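import Pool.Agent.T9h34.P.Greedy
import Pool.Agent.T9h35.RW.Approx

/-!
# Closed approximators: cliques on random sets of vertices against random sets of edges
-/

set_option autoImplicit false
set_option linter.unusedSectionVars false

namespace Pool.Agent.T9h34.P

open Finset Pool.Agent.T9h34
open Pool.Agent.T9h34.G (NoiseOp)
open Pool.Agent.T9h35.Wide (relMinsAt exists_relMin ind_exists_le')
open Pool.Agent.T9h35.RW (Nondecreasing cov_smalls)

variable {V E : Type*} [Fintype V] [DecidableEq V] [Fintype E] [DecidableEq E]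
variable {N : NoiseOp E} {K : Finset V → Finset E} {η : ℝ} {w : ℕ} {Ω : Type*} [Fintype Ω]

theorem not_covE_empty (W : Finset E) : ¬ covE K (∅ : Finset (Finset V)) W := by
  rintro ⟨S, hS, _⟩
  simp at hS

open Classical in
/-- The chain attached to a source. -/
noncomputable def sFam (c : ℕ) (I : E → Finset (Finset V)) (𝒜 : ℕ → ℝ → Finset (Finset V))
    (n : ℕ) : T9h35.RW.Src E → ℝ → Finset (Finset V)
  | .input i => fun θ => if θ ≤ 0 then smalls c else if θ ≤ 1 then I i else ∅
  | .const b => fun θ => if θ ≤ b then smalls c else ∅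
  | .gate j => fun θ => if j < n then 𝒜 j θ else if θ ≤ 0 then smalls c else ∅

theorem chain_of_const (hη1 : η ≤ 1) {c : ℕ} (b : ℝ) :
    Chain N K η c (fun θ => by classical exact if θ ≤ b then smalls c else ∅) := by
  classical
  refine ⟨?_, ?_, ?_⟩
  · intro x y hxy
    by_cases hy : y ≤ b
    · simp only [if_pos hy, if_pos (hxy.trans hy)]
      exact le_refl _
    · simp only [if_neg hy]
      exact Finset.empty_subset _
  · intro θ
    by_cases h : θ ≤ b
    · simp only [if_pos h]; exact closed_smalls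
    · simp only [if_neg h]; exact closed_empty hη1
  · intro θ
    by_cases h : θ ≤ b
    · simp only [if_pos h]; exact le_refl _
    · simp only [if_neg h]; exact Finset.empty_subset _

theorem sFam_chain (hη1 : η ≤ 1) {c n : ℕ} {I : E → Finset (Finset V)}
    {𝒜 : ℕ → ℝ → Finset (Finset V)}
    (hI : ∀ i, Closed N K η c (I i) ∧ I i ⊆ smalls c)
    (h𝒜 : ∀ j, Chain N K η c (𝒜 j)) (a : T9h35.RW.Src E) :
    Chain N K η c (sFam c I 𝒜 n a) := by
  classical
  cases a with
  | input i =>
    refine ⟨?_, ?_, ?_⟩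
    · intro x y hxy
      simp only [sFam]
      by_cases hx : x ≤ 0
      · rw [if_pos hx]
        split_ifs
        · exact le_refl _
        · exact (hI i).2
        · exact Finset.empty_subset _
      · rw [if_neg hx, if_neg (by intro h; exact hx (hxy.trans h))]
        by_cases hy1 : y ≤ 1
        · rw [if_pos hy1, if_pos (hxy.trans hy1)]
        · rw [if_neg hy1]
          exact Finset.empty_subset _
    · intro θ
      simp only [sFam]
      split_ifs
      · exact closed_smalls
      · exact (hI i).1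
      · exact closed_empty hη1
    · intro θ
      simp only [sFam]
      split_ifs
      · exact le_refl _
      · exact (hI i).2
      · exact Finset.empty_subset _
  | const b =>
    have h := chain_of_const (N := N) (K := K) hη1 (c := c) b
    refine ⟨fun x y hxy => ?_, fun θ => ?_, fun θ => ?_⟩
    · simpa [sFam] using h.anti x y hxy
    · simpa [sFam] using h.closed θ
    · simpa [sFam] using h.small θ
  | gate j =>
    by_cases hj : j < n
    · have h := h𝒜 j
      refine ⟨fun x y hxy => ?_, fun θ => ?_, fun θ => ?_⟩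
      · simpa [sFam, hj] using h.anti x y hxy
      · simpa [sFam, hj] using h.closed θ
      · simpa [sFam, hj] using h.small θ
    · have h := chain_of_const (N := N) (K := K) hη1 (c := c) 0
      refine ⟨fun x y hxy => ?_, fun θ => ?_, fun θ => ?_⟩
      · simpa [sFam, hj] using h.anti x y hxy
      · simpa [sFam, hj] using h.closed θ
      · simpa [sFam, hj] using h.small θ

theorem sFam_pos {c n : ℕ} {I : E → Finset (Finset V)} {𝒜 : ℕ → ℝ → Finset (Finset V)}
    {vals : List ℝ} {Z : Finset V} (hI : ∀ e ∈ K Z, cov (I e) Z)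
    (hlen : vals.length = n) (h : ∀ j < n, ∀ θ, θ ≤ vals.getD j 0 → cov (𝒜 j θ) Z)
    (a : T9h35.RW.Src E)
    (θ : ℝ) (ha : θ ≤ a.eval (chi (K Z)) vals) : cov (sFam c I 𝒜 n a θ) Z := by
  classical
  cases a with
  | input i =>
    simp only [T9h35.RW.Src.eval] at ha
    simp only [sFam]
    by_cases hθ : θ ≤ 0
    · rw [if_pos hθ]
      exact cov_smalls Z
    · rw [if_neg hθ]
      by_cases hi : i ∈ K Z
      · rw [if_pos (show chi (K Z) i = true by simp [chi, hi])] at ha
        rw [if_pos ha]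
        exact hI i hi
      · rw [if_neg (show ¬ chi (K Z) i = true by simp [chi, hi])] at ha
        exact absurd ha hθ
  | const b =>
    simp only [T9h35.RW.Src.eval] at ha
    simp only [sFam]
    rw [if_pos ha]
    exact cov_smalls Z
  | gate j =>
    simp only [T9h35.RW.Src.eval] at ha
    simp only [sFam]
    by_cases hj : j < n
    · rw [if_pos hj]
      exact h j hj θ ha
    · rw [if_neg hj]
      rw [List.getD_eq_default _ _ (by omega)] at ha
      rw [if_pos ha]
      exact cov_smalls Z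

theorem sFam_neg {c n : ℕ} {I : E → Finset (Finset V)} {𝒜 : ℕ → ℝ → Finset (Finset V)}
    {vals : List ℝ} {Z : Finset E} (hlen : vals.length = n) (hI : ∀ i, covE K (I i) Z → i ∈ Z)
    (h : ∀ j < n, ∀ θ, covE K (𝒜 j θ) Z → θ ≤ vals.getD j 0) (a : T9h35.RW.Src E) (θ : ℝ)
    (ha : covE K (sFam c I 𝒜 n a θ) Z) : θ ≤ a.eval (chi Z) vals := by
  classical
  cases a with
  | input i =>
    simp only [T9h35.RW.Src.eval]
    simp only [sFam] at ha
    by_cases hθ : θ ≤ 0
    · refine hθ.trans ?_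
      split_ifs <;> norm_num
    · rw [if_neg hθ] at ha
      by_cases hθ1 : θ ≤ 1
      · rw [if_pos hθ1] at ha
        have hi := hI i ha
        rw [if_pos (show chi Z i = true by simp [chi, hi])]
        exact hθ1
      · rw [if_neg hθ1] at ha
        exact absurd ha (not_covE_empty Z)
  | const b =>
    simp only [T9h35.RW.Src.eval]
    simp only [sFam] at ha
    by_cases hθ : θ ≤ b
    · exact hθ
    · rw [if_neg hθ] at ha
      exact absurd ha (not_covE_empty Z)
  | gate j =>
    simp only [T9h35.RW.Src.eval]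
    simp only [sFam] at ha
    by_cases hj : j < n
    · rw [if_pos hj] at ha
      exact h j hj θ ha
    · rw [if_neg hj] at ha
      rw [List.getD_eq_default _ _ (by omega)]
      by_cases hθ : θ ≤ 0
      · exact hθ
      · rw [if_neg hθ] at ha
        exact absurd ha (not_covE_empty Z)

open Classical in
/-- The chain attached to a gate, before closing. -/
noncomputable def gFam (c : ℕ) (I : E → Finset (Finset V)) (𝒜 : ℕ → ℝ → Finset (Finset V))
    (n : ℕ) (args : List (T9h35.RW.Src E)) (φ : List ℝ → ℝ) (θ : ℝ) : Finset (Finset V) :=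
  (smalls c).filter (fun S => ∃ r : List ℝ,
    List.Forall₂ (fun a ρ => S ∈ sFam c I 𝒜 n a ρ) args r ∧ θ ≤ φ r)

theorem mem_gFam {c n : ℕ} {I : E → Finset (Finset V)} {𝒜 : ℕ → ℝ → Finset (Finset V)}
    {args : List (T9h35.RW.Src E)} {φ : List ℝ → ℝ} {θ : ℝ} {S : Finset V} :
    S ∈ gFam c I 𝒜 n args φ θ ↔ S.card ≤ c ∧ ∃ r : List ℝ,
      List.Forall₂ (fun a ρ => S ∈ sFam c I 𝒜 n a ρ) args r ∧ θ ≤ φ r := by
  classical
  unfold gFam
  rw [Finset.mem_filter, mem_smalls]

theorem gFam_sub {c n : ℕ} {I : E → Finset (Finset V)} {𝒜 : ℕ → ℝ → Finset (Finset V)}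
    {args : List (T9h35.RW.Src E)} {φ : List ℝ → ℝ} (θ : ℝ) :
    gFam c I 𝒜 n args φ θ ⊆ smalls c := by
  intro S hS
  exact mem_smalls.2 (mem_gFam.1 hS).1

theorem gFam_anti {c n : ℕ} {I : E → Finset (Finset V)} {𝒜 : ℕ → ℝ → Finset (Finset V)}
    {args : List (T9h35.RW.Src E)} {φ : List ℝ → ℝ} (a b : ℝ) (hab : a ≤ b) :
    gFam c I 𝒜 n args φ b ⊆ gFam c I 𝒜 n args φ a := by
  intro S hS
  rw [mem_gFam] at hS ⊢
  obtain ⟨h1, r, h2, h3⟩ := hS
  exact ⟨h1, r, h2, hab.trans h3⟩

theorem gFam_pos {c n : ℕ} {I : E → Finset (Finset V)} {𝒜 : ℕ → ℝ → Finset (Finset V)}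
    {vals : List ℝ} {Z : Finset V} (hI : ∀ e ∈ K Z, cov (I e) Z)
    (hlen : vals.length = n) (h : ∀ j < n, ∀ θ, θ ≤ vals.getD j 0 → cov (𝒜 j θ) Z)
    (args : List (T9h35.RW.Src E)) (φ : List ℝ → ℝ) (θ : ℝ)
    (ha : θ ≤ φ (args.map fun a => a.eval (chi (K Z)) vals))
    (hgood : ¬ RBad c (args.map (sFam c I 𝒜 n)) ∅ Z) : cov (gFam c I 𝒜 n args φ θ) Z := by
  unfold RBad at hgood
  push Not at hgood
  obtain ⟨S, _, hSZ, hSc, hS⟩ := hgood (Finset.empty_subset _)
    (args.map fun a => a.eval (chi (K Z)) vals) (by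
      rw [List.forall₂_map_left_iff, List.forall₂_map_right_iff, List.forall₂_same]
      intro a _
      exact sFam_pos hI hlen h a _ (le_refl _))
  refine ⟨S, ?_, hSZ⟩
  rw [mem_gFam]
  refine ⟨hSc, _, ?_, ha⟩
  rw [List.forall₂_map_left_iff] at hS
  exact hS

theorem gFam_neg {c n : ℕ} {I : E → Finset (Finset V)} {𝒜 : ℕ → ℝ → Finset (Finset V)}
    {vals : List ℝ} {Z : Finset E} (hlen : vals.length = n) (hI : ∀ i, covE K (I i) Z → i ∈ Z)
    (h : ∀ j < n, ∀ θ, covE K (𝒜 j θ) Z → θ ≤ vals.getD j 0)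
    (args : List (T9h35.RW.Src E)) (φ : List ℝ → ℝ) (hφ : Nondecreasing φ) (θ : ℝ)
    (ha : covE K (gFam c I 𝒜 n args φ θ) Z) :
    θ ≤ φ (args.map fun a => a.eval (chi Z) vals) := by
  obtain ⟨S, hS, hSZ⟩ := ha
  rw [mem_gFam] at hS
  obtain ⟨_, r, hr, hθ⟩ := hS
  refine hθ.trans (hφ _ _ ?_)
  rw [List.forall₂_map_right_iff]
  refine List.Forall₂.flip ?_
  refine hr.imp fun a ρ hS => ?_
  exact sFam_neg hlen hI h a ρ ⟨S, hS, hSZ⟩

theorem exists_inputs (hK : Sys K w) (hη : 0 < η) {c : ℕ} (hc : 2 ≤ c) :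
    ∃ I : E → Finset (Finset V), (∀ Z : Finset V, ∀ e ∈ K Z, cov (I e) Z) ∧
      (∀ i, Closed N K η c (I i) ∧ I i ⊆ smalls c) ∧
      N.E (fun W => ind (∃ i, covE K (I i) W ∧ i ∉ W)) ≤
        Fintype.card E * (((smalls (X := V) c).card : ℝ) * η) := by
  classical
  refine ⟨fun e => cl N K η c ((smalls c).filter fun S => e ∈ K S), ?_, ?_, ?_⟩
  · intro Z e he
    obtain ⟨S, hS, hS2, heS⟩ := hK.small he
    refine ⟨S, sub_cl (Finset.filter_subset _ _) ?_, hS⟩
    rw [Finset.mem_filter, mem_smalls]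
    exact ⟨hS2.trans hc, heS⟩
  · intro i
    exact ⟨cl_closed, cl_sub⟩
  · have h1 : ∀ W : Finset E, ind (∃ i, covE K (cl N K η c ((smalls c).filter fun S => i ∈ K S)) W ∧
        i ∉ W) ≤ ∑ i ∈ (univ : Finset E), ind (covE K (cl N K η c ((smalls c).filter
          fun S => i ∈ K S)) (∅ ∪ W) ∧ ¬ covE K ((smalls c).filter fun S => i ∈ K S) (∅ ∪ W)) := by
      intro W
      refine le_trans (ind_mono ?_) (ind_exists_le' _ _)
      rintro ⟨i, h2, h3⟩
      rw [Finset.empty_union]
      refine ⟨i, Finset.mem_univ _, h2, ?_⟩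
      rintro ⟨S, hS, hSW⟩
      rw [Finset.mem_filter] at hS
      exact h3 (hSW hS.2)
    refine (N.mono h1).trans ?_
    have h2 := N.iter_sum 1 (univ : Finset E) (fun i W => ind (covE K (cl N K η c ((smalls c).filter
          fun S => i ∈ K S)) (∅ ∪ W) ∧ ¬ covE K ((smalls c).filter fun S => i ∈ K S) (∅ ∪ W)))
    simp only [N.iter_one] at h2
    rw [h2]
    refine (Finset.sum_le_sum fun i _ => cl_err hη (Finset.filter_subset _ _) ∅).trans ?_
    rw [Finset.sum_const, Finset.card_univ, nsmul_eq_mul]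

/-- The hypotheses on the parameters. -/
structure Hyp (N : NoiseOp E) (K : Finset V → Finset E) (v : Ω → Finset V) (η : ℝ) (w c f : ℕ)
    (B κ : ℝ) : Prop where
  hK : Sys K w
  hη : 0 < η
  hη1 : η ≤ 1
  hc : 2 ≤ c
  hB1 : 1 ≤ B
  hcov : Covers N K η c B
  hκ : 0 ≤ κ
  hsp : Spread v (2 * c) κ
  hf1 : 1 ≤ f
  hf : 8 * (B * f * κ) ≤ 1

/-- The negative error per gate. -/
noncomputable def del (V : Type*) [Fintype V] [DecidableEq V] (η : ℝ) (c : ℕ) : ℝ :=
  (((smalls (X := V) c).card : ℝ) + 1) * (((smalls (X := V) c).card : ℝ) * η)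

theorem del_nonneg (hη : 0 ≤ η) {c : ℕ} : 0 ≤ del V η c := by
  unfold del
  positivity

variable {c f : ℕ} {B κ : ℝ} {v : Ω → Finset V}

theorem approx_gates (H : Hyp N K v η w c f B κ) (I : E → Finset (Finset V))
    (hI1 : ∀ Z : Finset V, ∀ e ∈ K Z, cov (I e) Z)
    (hI2 : ∀ i, Closed N K η c (I i) ∧ I i ⊆ smalls c)
    (gs : List (T9h35.RW.Gate E)) (hm : ∀ g ∈ gs, g.IsMono f) :
    ∃ 𝒜 : ℕ → ℝ → Finset (Finset V), (∀ j, Chain N K η c (𝒜 j)) ∧
      Ev v (fun Z => ind (∃ j < gs.length, ∃ θ,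
        θ ≤ (T9h35.RW.runGates (chi (K Z)) gs).getD j 0 ∧ ¬ cov (𝒜 j θ) Z))
          ≤ gs.length * (8 * (B * f * κ)) ^ c ∧
      N.E (fun W => ind ((∀ i, covE K (I i) W → i ∈ W) ∧
        ∃ j < gs.length, ∃ θ, covE K (𝒜 j θ) W ∧
          ¬ θ ≤ (T9h35.RW.runGates (chi W) gs).getD j 0))
          ≤ gs.length * del V η c := by
  induction gs using List.reverseRecOn with
  | nil =>
    refine ⟨fun _ _ => ∅, fun _ => ⟨fun _ _ _ => le_refl _, fun _ => closed_empty H.hη1,
      fun _ => by simp⟩, ?_, ?_⟩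
    · have : (fun Z : Finset V => ind (∃ j < ([] : List (T9h35.RW.Gate E)).length, ∃ θ,
          θ ≤ (T9h35.RW.runGates (chi (K Z)) []).getD j 0 ∧ ¬ cov (∅ : Finset (Finset V)) Z))
          = fun _ => (0 : ℝ) * 1 := by
        funext Z
        rw [ind_not (by simp)]; ring
      rw [this, Ev_const_mul]
      simp
    · have : (fun W : Finset E => ind ((∀ i, covE K (I i) W → i ∈ W) ∧
          ∃ j < ([] : List (T9h35.RW.Gate E)).length, ∃ θ,
          covE K (∅ : Finset (Finset V)) W ∧
            ¬ θ ≤ (T9h35.RW.runGates (chi W) []).getD j 0))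
          = fun _ => (0 : ℝ) := by
        funext Z
        rw [ind_not (by simp)]
      rw [this, N.const']
      simp
  | append_singleton gs g ih =>
    have hgs : ∀ g ∈ gs, g.IsMono f := fun g' hg' => hm g' (by simp [hg'])
    have hg : g.IsMono f := hm g (by simp)
    obtain ⟨𝒜, h1, h2, h3⟩ := ih hgs
    cases g with
    | other tests φ => exact absurd hg (by simp [T9h35.RW.Gate.IsMono])
    | mono args φ =>
    obtain ⟨hargs, hφ⟩ := hg
    set F : ℝ → Finset (Finset V) := gFam c I 𝒜 gs.length args φ with hF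
    have hFsub : ∀ θ, F θ ⊆ smalls c := fun θ => gFam_sub θ
    have hFanti : ∀ a b : ℝ, a ≤ b → F b ⊆ F a := fun a b hab => gFam_anti a b hab
    refine ⟨fun j => if j = gs.length then fun θ => cl N K η c (F θ) else 𝒜 j, ?_, ?_, ?_⟩
    · intro j
      by_cases hj : j = gs.length
      · simp only [if_pos hj]
        exact ⟨fun a b hab => cl_mono (hFanti a b hab), fun θ => cl_closed, fun θ => cl_sub⟩
      · simp only [if_neg hj]
        exact h1 j
    · have hpt : ∀ Z : Finset V, ind (∃ j < (gs ++ [T9h35.RW.Gate.mono args φ]).length, ∃ θ,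
          θ ≤ (T9h35.RW.runGates (chi (K Z)) (gs ++ [T9h35.RW.Gate.mono args φ])).getD j 0 ∧
            ¬ cov ((if j = gs.length then fun θ => cl N K η c (F θ) else 𝒜 j) θ) Z)
          ≤ ind (∃ j < gs.length, ∃ θ, θ ≤ (T9h35.RW.runGates (chi (K Z)) gs).getD j 0 ∧
              ¬ cov (𝒜 j θ) Z)
            + ind (RBad c (args.map (sFam c I 𝒜 gs.length)) ∅ Z) := by
        intro Z
        refine le_trans (ind_mono ?_) (ind_or_le _ _)
        rintro ⟨j, hj, θ, hv, hnc⟩
        by_cases hbad : ∃ j < gs.length, ∃ θ,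
            θ ≤ (T9h35.RW.runGates (chi (K Z)) gs).getD j 0 ∧ ¬ cov (𝒜 j θ) Z
        · exact Or.inl hbad
        · right
          push Not at hbad
          rw [T9h35.RW.runGates_append] at hv
          have hlen : (gs ++ [T9h35.RW.Gate.mono args φ]).length = gs.length + 1 := by simp
          rw [hlen] at hj
          rcases lt_or_eq_of_le (Nat.lt_succ_iff.1 hj) with hj' | hj'
          · rw [T9h35.RW.getD_append_lt (by rw [T9h35.RW.length_runGates]; exact hj')] at hv
            rw [if_neg (by omega)] at hnc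
            exact absurd (hbad j hj' θ hv) hnc
          · rw [T9h35.RW.getD_append_eq (by rw [T9h35.RW.length_runGates]; exact hj')] at hv
            rw [if_pos hj'] at hnc
            by_contra hgood
            apply hnc
            exact cov_mono (sub_cl (hFsub θ)) (le_refl _)
              (gFam_pos (hI1 Z) (T9h35.RW.length_runGates (chi (K Z)) gs) hbad args φ θ hv hgood)
      refine le_trans (Ev_mono v hpt) ?_
      rw [Ev_add]
      have h4 := Ev_rbad_small H.hK H.hη H.hη1 H.hB1 H.hcov v H.hκ H.hsp H.hf1 H.hf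
        (args.map (sFam c I 𝒜 gs.length))
        (by
          intro F' hF'
          obtain ⟨a, _, rfl⟩ := List.mem_map.1 hF'
          exact sFam_chain H.hη1 hI2 h1 a)
        (by rw [List.length_map]; exact hargs)
      have hlen : ((gs ++ [T9h35.RW.Gate.mono args φ]).length : ℝ) = gs.length + 1 := by simp
      rw [hlen]
      linarith
    · have hpt : ∀ W : Finset E, ind ((∀ i, covE K (I i) W → i ∈ W) ∧
          ∃ j < (gs ++ [T9h35.RW.Gate.mono args φ]).length, ∃ θ,
          covE K ((if j = gs.length then fun θ => cl N K η c (F θ) else 𝒜 j) θ) W ∧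
          ¬ θ ≤ (T9h35.RW.runGates (chi W) (gs ++ [T9h35.RW.Gate.mono args φ])).getD j 0)
          ≤ ind ((∀ i, covE K (I i) W → i ∈ W) ∧
              ∃ j < gs.length, ∃ θ, covE K (𝒜 j θ) W ∧
              ¬ θ ≤ (T9h35.RW.runGates (chi W) gs).getD j 0)
            + ind (∃ θ, covE K (cl N K η c (F θ)) (∅ ∪ W) ∧ ¬ covE K (F θ) (∅ ∪ W)) := by
        intro W
        rw [Finset.empty_union]
        refine le_trans (ind_mono ?_) (ind_or_le _ _)
        rintro ⟨hin, j, hj, θ, hcv, hv⟩
        by_cases hbad : ∃ j < gs.length, ∃ θ, covE K (𝒜 j θ) W ∧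
            ¬ θ ≤ (T9h35.RW.runGates (chi W) gs).getD j 0
        · exact Or.inl ⟨hin, hbad⟩
        · right
          have hbad' : ∀ j < gs.length, ∀ θ, covE K (𝒜 j θ) W →
              θ ≤ (T9h35.RW.runGates (chi W) gs).getD j 0 := by
            intro j hj θ hc
            by_contra hcon
            exact hbad ⟨j, hj, θ, hc, hcon⟩
          rw [T9h35.RW.runGates_append] at hv
          have hlen : (gs ++ [T9h35.RW.Gate.mono args φ]).length = gs.length + 1 := by simp
          rw [hlen] at hj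
          rcases lt_or_eq_of_le (Nat.lt_succ_iff.1 hj) with hj' | hj'
          · rw [T9h35.RW.getD_append_lt (by rw [T9h35.RW.length_runGates]; exact hj')] at hv
            rw [if_neg (by omega)] at hcv
            exact absurd (hbad' j hj' θ hcv) hv
          · rw [T9h35.RW.getD_append_eq (by rw [T9h35.RW.length_runGates]; exact hj')] at hv
            rw [if_pos hj'] at hcv
            refine ⟨θ, hcv, ?_⟩
            intro hFθ
            exact hv (gFam_neg (T9h35.RW.length_runGates _ _) hin hbad' args φ hφ θ hFθ)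
      refine le_trans (N.mono hpt) ?_
      rw [N.add']
      have h5 := chain_err (N := N) (K := K) H.hη hFanti hFsub ∅
      have hlen : ((gs ++ [T9h35.RW.Gate.mono args φ]).length : ℝ) = gs.length + 1 := by simp
      rw [hlen]
      unfold del at h3 ⊢
      linarith

/-- A closed family which does not contain the empty set covers few spread sets. -/
theorem Ev_cov_le (H : Hyp N K v η w c f B κ) {𝒞 : Finset (Finset V)}
    (hcl : Closed N K η c 𝒞) (hsm : 𝒞 ⊆ smalls c) (hempty : ∅ ∉ 𝒞) :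
    Ev v (fun Z => ind (cov 𝒞 Z)) ≤ 2 * (B * κ) := by
  have hB0 : 0 ≤ B := by linarith [H.hB1]
  have hBκ0 : 0 ≤ B * κ := mul_nonneg hB0 H.hκ
  have hBκ : B * κ ≤ 1 / 2 := by
    have h1 := H.hf
    have h2 : (1 : ℝ) ≤ f := by exact_mod_cast H.hf1
    nlinarith
  have h1 : ∀ Z : Finset V, ind (cov 𝒞 Z)
      ≤ ∑ k ∈ Finset.Icc 1 c, ∑ S ∈ relMinsAt 𝒞 ∅ k ∅, ind (S ⊆ Z) := by
    intro Z
    by_cases h : cov 𝒞 Z
    · rw [ind_of h]
      obtain ⟨S0, hS0, hS0Z⟩ := h
      obtain ⟨S, hS, _, hSS0, hmin⟩ := exists_relMin hS0 (Finset.empty_subset S0)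
      have hSZ : S ⊆ Z := hSS0.trans hS0Z
      have hSc : S.card ≤ c := mem_smalls.1 (hsm hS)
      have hSpos : 1 ≤ S.card := by
        rw [Nat.one_le_iff_ne_zero]
        intro h0
        rw [Finset.card_eq_zero] at h0
        rw [h0] at hS
        exact hempty hS
      have h2 : (1 : ℝ) ≤ ∑ S ∈ relMinsAt 𝒞 ∅ S.card ∅, ind (S ⊆ Z) := by
        rw [← ind_of hSZ]
        apply Finset.single_le_sum (f := fun S => ind (S ⊆ Z)) (fun b _ => ind_nonneg _)
        rw [relMinsAt, Finset.mem_filter]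
        exact ⟨hS, hmin, rfl, Finset.empty_subset _⟩
      refine le_trans h2 ?_
      exact Finset.single_le_sum (f := fun k => ∑ S ∈ relMinsAt 𝒞 ∅ k ∅, ind (S ⊆ Z))
        (fun k _ => Finset.sum_nonneg (fun b _ => ind_nonneg _)) (Finset.mem_Icc.2 ⟨hSpos, hSc⟩)
    · rw [ind_not h]
      exact Finset.sum_nonneg (fun k _ => Finset.sum_nonneg (fun b _ => ind_nonneg _))
  refine le_trans (Ev_mono v h1) ?_
  rw [Ev_sum]
  have h2 : ∀ k ∈ Finset.Icc 1 c, Ev v (fun Z => ∑ S ∈ relMinsAt 𝒞 ∅ k ∅, ind (S ⊆ Z))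
      ≤ (B * κ) ^ k := by
    intro k hk
    rw [Finset.mem_Icc] at hk
    rw [Ev_sum]
    have h3 : ∀ S ∈ relMinsAt 𝒞 ∅ k ∅, Ev v (fun Z => ind (S ⊆ Z)) ≤ κ ^ k := by
      intro S hS
      simp only [relMinsAt, Finset.mem_filter] at hS
      have := H.hsp S (by omega)
      rw [hS.2.2.1] at this
      exact this
    refine le_trans (Finset.sum_le_sum h3) ?_
    rw [Finset.sum_const, nsmul_eq_mul]
    have h4 := card_relMinsAt_le H.hB1 H.hcov hcl hk.2 ∅ ∅ (Finset.empty_subset _)
    rw [Finset.card_empty, Nat.sub_zero] at h4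
    calc ((relMinsAt 𝒞 ∅ k ∅).card : ℝ) * κ ^ k ≤ B ^ k * κ ^ k :=
          mul_le_mul_of_nonneg_right h4 (pow_nonneg H.hκ k)
      _ = (B * κ) ^ k := by rw [← mul_pow]
  refine le_trans (Finset.sum_le_sum h2) ?_
  exact T9h35.Wide.geom_Icc hBκ0 hBκ c

/-- **Domination lemma.** If a circuit of nondecreasing real gates of fan-in at most `f` accepts
the cliques on spread random sets with some probability, then it accepts the random set of edges
with at least that probability, up to a small error. -/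
theorem domination (H : Hyp N K v η w c f B κ) (C : T9h35.RW.Circuit E)
    (hm : ∀ g ∈ C.gates, g.IsMono f) :
    Ev v (fun Z => ind (C.eval (chi (K Z)) = true))
      ≤ N.E (fun W => ind (C.eval (chi W) = true))
        + (C.size * (8 * (B * f * κ)) ^ c + 2 * (B * κ) +
          (C.size + Fintype.card E) * del V η c) := by
  obtain ⟨I, hI1, hI2, hI3⟩ := exists_inputs (N := N) H.hK H.hη H.hc
  obtain ⟨𝒜, h1, h2, h3⟩ := approx_gates H I hI1 hI2 C.gates hm
  set n := C.gates.length with hn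
  set 𝒞 := sFam c I 𝒜 n C.out.1 C.out.2 with h𝒞
  have hch := sFam_chain (n := n) H.hη1 hI2 h1 C.out.1
  have hc3 : Closed N K η c 𝒞 := hch.closed _
  have hc2 : 𝒞 ⊆ smalls c := hch.small _
  set δ := del V η c with hδ
  have hδ0 : 0 ≤ δ := del_nonneg H.hη.le
  have hδ1 : ((smalls (X := V) c).card : ℝ) * η ≤ δ := by
    rw [hδ]
    unfold del
    have h4 : (0 : ℝ) ≤ ((smalls (X := V) c).card : ℝ) * η :=
      mul_nonneg (Nat.cast_nonneg _) H.hη.le
    have h5 : (0 : ℝ) ≤ ((smalls (X := V) c).card : ℝ) := by positivity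
    nlinarith
  have hB0 : 0 ≤ B := by linarith [H.hB1]
  have hBκ0 : 0 ≤ B * κ := mul_nonneg hB0 H.hκ
  -- positive side
  have hpos : Ev v (fun Z => ind (C.eval (chi (K Z)) = true))
      ≤ n * (8 * (B * f * κ)) ^ c + Ev v (fun Z => ind (cov 𝒞 Z)) := by
    have hpt : ∀ Z : Finset V, ind (C.eval (chi (K Z)) = true)
        ≤ ind (∃ j < C.gates.length, ∃ θ,
            θ ≤ (T9h35.RW.runGates (chi (K Z)) C.gates).getD j 0 ∧ ¬ cov (𝒜 j θ) Z)
          + ind (cov 𝒞 Z) := by
      intro Z
      refine le_trans (ind_mono ?_) (ind_or_le _ _)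
      intro hv
      by_cases hbad : ∃ j < C.gates.length, ∃ θ,
          θ ≤ (T9h35.RW.runGates (chi (K Z)) C.gates).getD j 0 ∧ ¬ cov (𝒜 j θ) Z
      · exact Or.inl hbad
      · right
        push Not at hbad
        unfold T9h35.RW.Circuit.eval at hv
        rw [T9h35.RW.test_eval] at hv
        exact sFam_pos (hI1 Z) (T9h35.RW.length_runGates _ _) hbad C.out.1 _ hv
    refine le_trans (Ev_mono v hpt) ?_
    rw [Ev_add]
    linarith
  -- negative side
  have hneg : N.E (fun W => ind (covE K 𝒞 W))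
      ≤ N.E (fun W => ind (C.eval (chi W) = true)) + (n + Fintype.card E) * δ := by
    have hpt : ∀ W : Finset E, ind (covE K 𝒞 W) ≤ ind (C.eval (chi W) = true)
          + (ind ((∀ i, covE K (I i) W → i ∈ W) ∧
              ∃ j < C.gates.length, ∃ θ, covE K (𝒜 j θ) W ∧
              ¬ θ ≤ (T9h35.RW.runGates (chi W) C.gates).getD j 0)
            + ind (∃ i, covE K (I i) W ∧ i ∉ W)) := by
      intro W
      have p1 := ind_nonneg (C.eval (chi W) = true)
      have p2 := ind_nonneg ((∀ i, covE K (I i) W → i ∈ W) ∧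
            ∃ j < C.gates.length, ∃ θ, covE K (𝒜 j θ) W ∧
            ¬ θ ≤ (T9h35.RW.runGates (chi W) C.gates).getD j 0)
      have p3 := ind_nonneg (∃ i, covE K (I i) W ∧ i ∉ W)
      have p4 := ind_le_one (covE K 𝒞 W)
      by_cases hin : ∃ i, covE K (I i) W ∧ i ∉ W
      · rw [ind_of hin]
        linarith
      have hin' : ∀ i, covE K (I i) W → i ∈ W := by
        intro i hi
        by_contra hc
        exact hin ⟨i, hi, hc⟩
      by_cases hbad : ∃ j < C.gates.length, ∃ θ, covE K (𝒜 j θ) W ∧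
            ¬ θ ≤ (T9h35.RW.runGates (chi W) C.gates).getD j 0
      · rw [ind_of (⟨hin', hbad⟩ : (∀ i, covE K (I i) W → i ∈ W) ∧
            ∃ j < C.gates.length, ∃ θ, covE K (𝒜 j θ) W ∧
            ¬ θ ≤ (T9h35.RW.runGates (chi W) C.gates).getD j 0)]
        linarith
      · have hbad' : ∀ j < C.gates.length, ∀ θ, covE K (𝒜 j θ) W →
              θ ≤ (T9h35.RW.runGates (chi W) C.gates).getD j 0 := by
          intro j hj θ hc
          by_contra hcon
          exact hbad ⟨j, hj, θ, hc, hcon⟩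
        by_cases hz : covE K 𝒞 W
        · have hv : C.eval (chi W) = true := by
            unfold T9h35.RW.Circuit.eval
            rw [T9h35.RW.test_eval]
            exact sFam_neg (T9h35.RW.length_runGates _ _) hin' hbad' C.out.1 _ hz
          rw [ind_of hv]
          linarith
        · rw [ind_not hz]
          linarith
    have h4 := N.mono hpt
    rw [N.add', N.add'] at h4
    rw [← hn] at h4
    have h7 : ((n : ℝ) + Fintype.card E) * δ = n * δ + Fintype.card E * δ := by ring
    have h8 := mul_le_mul_of_nonneg_left hδ1 (Nat.cast_nonneg (α := ℝ) (Fintype.card E))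
    rw [h7]
    linarith
  have hcmp : Ev v (fun Z => ind (cov 𝒞 Z)) ≤ N.E (fun W => ind (covE K 𝒞 W)) +
      2 * (B * κ) := by
    by_cases hempty : ∅ ∈ 𝒞
    · have h4 : (fun W : Finset E => ind (covE K 𝒞 W)) = fun _ => 1 := by
        funext W
        exact ind_of ⟨∅, hempty, by rw [H.hK.empty]; exact Finset.empty_subset _⟩
      rw [h4, N.const']
      have h5 := Ev_le_one v (F := fun Z => ind (cov 𝒞 Z)) (fun z => ind_le_one _)
      linarith
    · have h4 := Ev_cov_le H hc3 hc2 hempty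
      have h5 : 0 ≤ N.E (fun W => ind (covE K 𝒞 W)) := N.nonneg fun _ => ind_nonneg _
      linarith
  have hsize : (C.size : ℝ) = n := by rw [hn]; rfl
  rw [hsize]
  linarith

end Pool.Agent.T9h34.P
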