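import Pool.Agent.T9h34.G.Noise

/-!
# Random sets with independent elements
-/

set_option autoImplicit false
set_option linter.unusedSectionVars false

namespace Pool.Agent.T9h34.P

open Finset Pool.Agent.T9h34
open Pool.Agent.T9h34.G (NoiseOp)

variable {E : Type*} [Fintype E] [DecidableEq E]

/-- The probability of the set `W` if every element is chosen with probability `γ`. -/
noncomputable def bw (γ : ℝ) (W : Finset E) : ℝ :=
  γ ^ W.card * (1 - γ) ^ (Fintype.card E - W.card)

theorem bw_nonneg {γ : ℝ} (h0 : 0 ≤ γ) (h1 : γ ≤ 1) (W : Finset E) : 0 ≤ bw γ W :=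
  mul_nonneg (pow_nonneg h0 _) (pow_nonneg (by linarith) _)

theorem sum_bw (γ : ℝ) : ∑ W : Finset E, bw γ W = 1 := by
  unfold bw
  rw [Fintype.sum_pow_mul_eq_add_pow]
  simp

/-- Expectation over a random set with independent elements. -/
noncomputable def bern {γ : ℝ} (h0 : 0 ≤ γ) (h1 : γ ≤ 1) : NoiseOp E where
  E F := ∑ W, bw γ W * F W
  mono' F G h := sum_le_sum fun W _ => mul_le_mul_of_nonneg_left (h W) (bw_nonneg h0 h1 W)
  add' F G := by
    rw [← sum_add_distrib]
    exact sum_congr rfl fun W _ => by ring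
  const_mul' c F := by
    rw [mul_sum]
    exact sum_congr rfl fun W _ => by ring
  const' c := by rw [← sum_mul, sum_bw, one_mul]

variable {γ : ℝ} {h0 : 0 ≤ γ} {h1 : γ ≤ 1}

theorem bern_superset (A : Finset E) :
    (bern (E := E) h0 h1).E (fun W => ind (A ⊆ W)) = γ ^ A.card := by
  change ∑ W, bw γ W * ind (A ⊆ W) = γ ^ A.card
  have h2 := Finset.prod_add (fun _ : E => γ) (fun e => if e ∈ A then (0 : ℝ) else 1 - γ) univ
  have h3 : ∏ e : E, (γ + if e ∈ A then (0 : ℝ) else 1 - γ) = γ ^ A.card := by
    have h4 : ∀ e : E, (γ + if e ∈ A then (0 : ℝ) else 1 - γ) = if e ∈ A then γ else 1 := by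
      intro e
      split_ifs <;> ring
    simp only [h4]
    rw [Finset.prod_ite, prod_const, prod_const, one_pow, mul_one]
    congr 2
    ext e
    simp
  rw [h3] at h2
  rw [h2, Finset.powerset_univ]
  apply sum_congr rfl
  intro W _
  unfold bw
  rw [prod_const]
  by_cases hA : A ⊆ W
  · rw [ind_of hA, mul_one]
    congr 1
    have h4 : ∀ e ∈ univ \ W, (if e ∈ A then (0 : ℝ) else 1 - γ) = 1 - γ := by
      intro e he
      rw [mem_sdiff] at he
      rw [if_neg (fun h => he.2 (hA h))]
    rw [prod_congr rfl h4, prod_const, card_sdiff_of_subset (subset_univ _), card_univ]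
  · rw [ind_not hA, mul_zero]
    obtain ⟨e, heA, heW⟩ := Finset.not_subset.1 hA
    rw [prod_eq_zero (i := e) (by simp [heW]) (by rw [if_pos heA]), mul_zero]

/-- Exchange the parts outside `A`. -/
def swp (A : Finset E) (p : Finset E × Finset E) : Finset E × Finset E :=
  ((p.1 ∩ A) ∪ (p.2 \ A), (p.2 ∩ A) ∪ (p.1 \ A))

theorem swp_swp (A : Finset E) (p : Finset E × Finset E) : swp A (swp A p) = p := by
  unfold swp
  apply Prod.ext
  · ext e
    simp only [mem_union, mem_inter, mem_sdiff]
    tauto
  · ext e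
    simp only [mem_union, mem_inter, mem_sdiff]
    tauto

theorem card_swp (A : Finset E) (p : Finset E × Finset E) :
    (swp A p).1.card + (swp A p).2.card = p.1.card + p.2.card := by
  unfold swp
  have h1 : ∀ U W : Finset E, ((U ∩ A) ∪ (W \ A)).card = (U ∩ A).card + (W \ A).card := by
    intro U W
    apply card_union_of_disjoint
    rw [disjoint_left]
    intro e he he'
    rw [mem_inter] at he
    rw [mem_sdiff] at he'
    exact he'.2 he.2
  have h2 : ∀ U : Finset E, (U ∩ A).card + (U \ A).card = U.card :=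
    fun U => card_inter_add_card_sdiff U A
  simp only [h1]
  have h3 := h2 p.1
  have h4 := h2 p.2
  omega

theorem bw_swp (γ : ℝ) (A : Finset E) (p : Finset E × Finset E) :
    bw γ (swp A p).1 * bw γ (swp A p).2 = bw γ p.1 * bw γ p.2 := by
  have h1 := card_swp A p
  have h2 : ∀ W : Finset E, W.card ≤ Fintype.card E := fun W => card_le_univ W
  have h3 := h2 (swp A p).1
  have h4 := h2 (swp A p).2
  have h5 := h2 p.1
  have h6 := h2 p.2
  unfold bw
  have h7 : ∀ a b : ℕ, (γ ^ a * (1 - γ) ^ (Fintype.card E - a)) *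
      (γ ^ b * (1 - γ) ^ (Fintype.card E - b)) =
      γ ^ (a + b) * (1 - γ) ^ ((Fintype.card E - a) + (Fintype.card E - b)) := by
    intro a b
    rw [pow_add, pow_add]
    ring
  rw [h7, h7, h1]
  congr 2
  omega

/-- Functions of disjoint parts are independent. -/
theorem bern_indep (A : Finset E) (F G : Finset E → ℝ) (hF : ∀ W, F W = F (W ∩ A))
    (hG : ∀ W, G W = G (W \ A)) :
    (bern (E := E) h0 h1).E (fun W => F W * G W) =
      (bern (E := E) h0 h1).E F * (bern (E := E) h0 h1).E G := by
  change ∑ W, bw γ W * (F W * G W) = (∑ W, bw γ W * F W) * ∑ W, bw γ W * G W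
  have h2 : ∑ W, bw γ W * (F W * G W) =
      ∑ p : Finset E × Finset E, (bw γ p.1 * bw γ p.2) * (F p.1 * G p.1) := by
    rw [Fintype.sum_prod_type]
    apply sum_congr rfl
    intro W _
    have h3 : ∀ U : Finset E, (bw γ W * bw γ U) * (F W * G W) =
        (bw γ W * (F W * G W)) * bw γ U := fun U => by ring
    simp only [h3]
    rw [← mul_sum, sum_bw, mul_one]
  rw [h2, sum_mul_sum, ← Fintype.sum_prod_type' (f := fun W U => bw γ W * F W * (bw γ U * G U))]
  apply Finset.sum_nbij' (swp A) (swp A)
  · intro p _; exact mem_univ _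
  · intro p _; exact mem_univ _
  · intro p _; exact swp_swp A p
  · intro p _; exact swp_swp A p
  · intro p _
    have h4 : F (swp A p).1 = F p.1 := by
      rw [hF (swp A p).1, hF p.1]
      congr 1
      ext e
      simp only [swp, mem_union, mem_inter, mem_sdiff]
      tauto
    have h5 : G (swp A p).2 = G p.1 := by
      rw [hG (swp A p).2, hG p.1]
      congr 1
      ext e
      simp only [swp, mem_union, mem_inter, mem_sdiff]
      tauto
    rw [h4, h5]
    have h6 := bw_swp γ A p
    calc (bw γ p.1 * bw γ p.2) * (F p.1 * G p.1)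
        = (bw γ (swp A p).1 * bw γ (swp A p).2) * (F p.1 * G p.1) := by rw [h6]
      _ = _ := by ring

/-- Functions of pairwise disjoint parts are independent. -/
theorem bern_prod {ι : Type*} [DecidableEq ι] (I : Finset ι) (A : ι → Finset E)
    (F : ι → Finset E → ℝ) (hA : ∀ i ∈ I, ∀ j ∈ I, i ≠ j → Disjoint (A i) (A j))
    (hF : ∀ i ∈ I, ∀ W, F i W = F i (W ∩ A i)) :
    (bern (E := E) h0 h1).E (fun W => ∏ i ∈ I, F i W) =
      ∏ i ∈ I, (bern (E := E) h0 h1).E (F i) := by
  induction I using Finset.induction_on with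
  | empty =>
    simp only [prod_empty]
    exact (bern h0 h1).const' 1
  | insert i I hi ih =>
    simp only [prod_insert hi]
    rw [bern_indep (A i) (F i) (fun W => ∏ j ∈ I, F j W)
      (hF i (mem_insert_self _ _)), ih]
    · intro j hj k hk
      exact hA j (mem_insert_of_mem hj) k (mem_insert_of_mem hk)
    · intro j hj
      exact hF j (mem_insert_of_mem hj)
    · intro W
      apply prod_congr rfl
      intro j hj
      rw [hF j (mem_insert_of_mem hj) W, hF j (mem_insert_of_mem hj) (W \ A i)]
      congr 1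
      have hne : i ≠ j := by rintro rfl; exact hi hj
      have hd := hA i (mem_insert_self _ _) j (mem_insert_of_mem hj) hne
      ext e
      simp only [mem_inter, mem_sdiff]
      constructor
      · rintro ⟨h2, h3⟩
        exact ⟨⟨h2, fun h4 => disjoint_left.1 hd h4 h3⟩, h3⟩
      · rintro ⟨⟨h2, _⟩, h3⟩
        exact ⟨h2, h3⟩

end Pool.Agent.T9h34.P
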