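import Pool.Agent.T9h34.P.Closed

/-!
# Cliques, and random sets of `k` vertices
-/

set_option autoImplicit false

namespace Pool.Agent.T9h34.P

open Finset Pool.Agent.T9h34

theorem choose_two_sub (j i c : ℕ) (h : j + i ≤ c) :
    (j + i + 1).choose 2 - (j + 1).choose 2 ≤ c * i := by
  rw [Nat.choose_two_right, Nat.choose_two_right]
  have h1 : (j + i + 1) * (j + i + 1 - 1) / 2 ≤ (j + 1) * (j + 1 - 1) / 2 + c * i := by
    have h2 : (j + i + 1) * (j + i + 1 - 1) ≤ (j + 1) * (j + 1 - 1) + (c * i) * 2 := by
      have e1 : j + i + 1 - 1 = j + i := by omega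
      have e2 : j + 1 - 1 = j := by omega
      rw [e1, e2]
      rcases Nat.eq_zero_or_pos i with hi | hi
      · subst hi; simp
      · obtain ⟨i', rfl⟩ : ∃ i', i = i' + 1 := ⟨i - 1, by omega⟩
        have h3 : (j + (i' + 1)) * (i' + 1) ≤ c * (i' + 1) := Nat.mul_le_mul_right _ h
        nlinarith
    calc (j + i + 1) * (j + i + 1 - 1) / 2 ≤ ((j + 1) * (j + 1 - 1) + (c * i) * 2) / 2 :=
          Nat.div_le_div_right h2
      _ = (j + 1) * (j + 1 - 1) / 2 + c * i := Nat.add_mul_div_right _ _ (by norm_num)
  omega

/-- Cliques satisfy the hypotheses. -/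
theorem sys_clique (n c : ℕ) : Sys (fun S : Finset (Fin n) => S.sym2) c where
  empty := by simp
  mono h := Finset.sym2_mono h
  inter S T := by
    intro e he
    rw [mem_inter, Finset.mem_sym2_iff, Finset.mem_sym2_iff] at he
    rw [Finset.mem_sym2_iff]
    intro v hv
    exact mem_inter.2 ⟨he.1 v hv, he.2 v hv⟩
  card := by
    intro J T hJT hT
    rw [card_sdiff_of_subset (Finset.sym2_mono hJT), Finset.card_sym2, Finset.card_sym2,
      card_sdiff_of_subset hJT]
    have h1 := card_le_card hJT
    have h2 := choose_two_sub J.card (T.card - J.card) c (by omega)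
    have h3 : J.card + (T.card - J.card) = T.card := by omega
    rw [h3] at h2
    exact h2
  small := by
    intro e Z he
    induction e using Sym2.ind with
    | _ a b =>
      rw [Finset.mk_mem_sym2_iff] at he
      refine ⟨{a, b}, ?_, card_le_two, ?_⟩
      · intro v hv
        rw [mem_insert, mem_singleton] at hv
        rcases hv with rfl | rfl
        · exact he.1
        · exact he.2
      · rw [Finset.mk_mem_sym2_iff]
        simp

/-- The sets of `k` vertices. -/
abbrev KSet (n k : ℕ) : Type := {S : Finset (Fin n) // S.card = k}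

theorem card_kset (n k : ℕ) : Fintype.card (KSet n k) = n.choose k := by
  rw [Fintype.card_finset_len, Fintype.card_fin]

/-- The number of sets of `k` vertices containing a given set. -/
theorem card_superset (n k : ℕ) (T : Finset (Fin n)) :
    ((univ : Finset (KSet n k)).filter fun S => T ⊆ S.1).card ≤ (n - T.card).choose (k - T.card) := by
  have h1 : ((univ : Finset (KSet n k)).filter fun S => T ⊆ S.1).card ≤
      (Finset.powersetCard (k - T.card) ((univ : Finset (Fin n)) \ T)).card := by
    apply card_le_card_of_injOn (fun S => S.1 \ T)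
    · intro S hS
      rw [mem_coe, mem_filter] at hS
      rw [mem_coe, mem_powersetCard]
      refine ⟨sdiff_subset_sdiff (subset_univ _) le_rfl, ?_⟩
      rw [card_sdiff_of_subset hS.2, S.2]
    · intro S hS S' hS' h
      rw [mem_coe, mem_filter] at hS hS'
      apply Subtype.ext
      simp only at h
      rw [← sdiff_union_of_subset hS.2, ← sdiff_union_of_subset hS'.2, h]
  refine h1.trans (le_of_eq ?_)
  rw [card_powersetCard, card_sdiff_of_subset (subset_univ _), card_univ, Fintype.card_fin]

theorem choose_ratio {n k : ℕ} (hk : k ≤ n) : ∀ t ≤ k,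
    (n - t).choose (k - t) * n ^ t ≤ k ^ t * n.choose k := by
  intro t
  induction t with
  | zero => intro _; simp
  | succ t ih =>
    intro ht
    have h1 := ih (by omega)
    have h2 : (n - t) * (n - (t + 1)).choose (k - (t + 1)) = (n - t).choose (k - t) * (k - t) := by
      have h3 := Nat.add_one_mul_choose_eq (n - (t + 1)) (k - (t + 1))
      have e1 : n - (t + 1) + 1 = n - t := by omega
      have e2 : k - (t + 1) + 1 = k - t := by omega
      rw [e1, e2] at h3
      exact h3
    have hnt : 0 < n - t := by omega
    have h3 : (n - (t + 1)).choose (k - (t + 1)) * n ≤ (n - t).choose (k - t) * k := by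
      have h4 : (n - t) * ((n - (t + 1)).choose (k - (t + 1)) * n) ≤
          (n - t) * ((n - t).choose (k - t) * k) := by
        calc (n - t) * ((n - (t + 1)).choose (k - (t + 1)) * n)
            = ((n - t) * (n - (t + 1)).choose (k - (t + 1))) * n := by ring
          _ = (n - t).choose (k - t) * ((k - t) * n) := by rw [h2]; ring
          _ ≤ (n - t).choose (k - t) * ((n - t) * k) := by
              apply Nat.mul_le_mul_left
              obtain ⟨x, hx⟩ : ∃ x, n = t + x := ⟨n - t, by omega⟩
              obtain ⟨y, hy⟩ : ∃ y, k = t + y := ⟨k - t, by omega⟩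
              have e1 : k - t = y := by omega
              have e2 : n - t = x := by omega
              rw [e1, e2, hx, hy]
              have hyx : y ≤ x := by omega
              nlinarith
          _ = _ := by ring
      exact Nat.le_of_mul_le_mul_left h4 hnt
    calc (n - (t + 1)).choose (k - (t + 1)) * n ^ (t + 1)
        = ((n - (t + 1)).choose (k - (t + 1)) * n) * n ^ t := by ring
      _ ≤ ((n - t).choose (k - t) * k) * n ^ t := Nat.mul_le_mul_right _ h3
      _ = ((n - t).choose (k - t) * n ^ t) * k := by ring
      _ ≤ (k ^ t * n.choose k) * k := Nat.mul_le_mul_right _ h1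
      _ = _ := by ring

/-- A random set of `k` vertices is spread. -/
theorem spread_kset {n k : ℕ} (hk : k ≤ n) (hn : 0 < n) (c : ℕ) :
    Spread (fun S : KSet n k => S.1) c ((k : ℝ) / n) := by
  intro T _
  unfold Ev
  have hcard : (0 : ℝ) < Fintype.card (KSet n k) := by
    rw [card_kset]
    exact_mod_cast Nat.choose_pos hk
  have h1 : ∑ S : KSet n k, ind (T ⊆ S.1) =
      (((univ : Finset (KSet n k)).filter fun S => T ⊆ S.1).card : ℝ) := by
    rw [card_filter]
    push_cast
    apply sum_congr rfl
    intro S _
    by_cases h : T ⊆ S.1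
    · rw [ind_of h, if_pos h]
    · rw [ind_not h, if_neg h]
  rw [h1, div_le_iff₀ hcard]
  by_cases hT : T.card ≤ k
  · have h2 := card_superset n k T
    have h3 := choose_ratio hk T.card hT
    have h4 : (((univ : Finset (KSet n k)).filter fun S => T ⊆ S.1).card : ℝ) * (n : ℝ) ^ T.card ≤
        (k : ℝ) ^ T.card * n.choose k := by
      have h5 := (Nat.mul_le_mul_right (n ^ T.card) h2).trans h3
      exact_mod_cast h5
    have hn0 : (0 : ℝ) < (n : ℝ) ^ T.card := by positivity
    rw [card_kset, div_pow, div_mul_eq_mul_div, le_div_iff₀ hn0]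
    exact h4
  · have h2 : ((univ : Finset (KSet n k)).filter fun S => T ⊆ S.1) = ∅ := by
      rw [eq_empty_iff_forall_notMem]
      intro S hS
      rw [mem_filter] at hS
      have h3 := card_le_card hS.2
      rw [S.2] at h3
      omega
    rw [h2, card_empty, Nat.cast_zero]
    positivity

end Pool.Agent.T9h34.P
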