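import Pool.Agent.T9h35.Wide.Gate

/-!
# Closed families of sets of vertices, for a random set of edges

Every set `S` of vertices has a set `K S` of edges.  A family of sets of vertices is closed if it
contains every small set `T` such that the random set of edges, together with `K T`, almost surely
contains `K S` for some member `S`.
-/

set_option autoImplicit false

namespace Pool.Agent.T9h34.P

open Finset Pool.Agent.T9h34
open Pool.Agent.T9h34.G (NoiseOp)
open Pool.Agent.T9h35.Wide (relMinsAt exists_relMin)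

variable {V E : Type*} [Fintype V] [DecidableEq V] [Fintype E] [DecidableEq E]

/-- The properties of the map from sets of vertices to sets of edges. -/
structure Sys (K : Finset V → Finset E) (w : ℕ) : Prop where
  empty : K ∅ = ∅
  mono : ∀ {S T : Finset V}, S ⊆ T → K S ⊆ K T
  inter : ∀ S T : Finset V, K S ∩ K T ⊆ K (S ∩ T)
  card : ∀ {J T : Finset V}, J ⊆ T → T.card ≤ w → (K T \ K J).card ≤ w * (T \ J).card
  small : ∀ {e : E} {Z : Finset V}, e ∈ K Z → ∃ S ⊆ Z, S.card ≤ 2 ∧ e ∈ K S

/-- Some member of the family has its edges in `W`. -/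
def covE (K : Finset V → Finset E) (𝒜 : Finset (Finset V)) (W : Finset E) : Prop :=
  ∃ S ∈ 𝒜, K S ⊆ W

omit [Fintype V] [DecidableEq V] [Fintype E] [DecidableEq E] in
theorem covE_mono {K : Finset V → Finset E} {𝒜 ℬ : Finset (Finset V)} {W W' : Finset E}
    (h : 𝒜 ⊆ ℬ) (hW : W ⊆ W') (hc : covE K 𝒜 W) : covE K ℬ W' := by
  obtain ⟨S, hS, hSW⟩ := hc
  exact ⟨S, h hS, hSW.trans hW⟩

/-- Closed families. -/
def Closed (N : NoiseOp E) (K : Finset V → Finset E) (η : ℝ) (c : ℕ)
    (𝒞 : Finset (Finset V)) : Prop :=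
  ∀ T : Finset V, T.card ≤ c → N.E (fun W => ind (¬ covE K 𝒞 (K T ∪ W))) < η → T ∈ 𝒞

variable {N : NoiseOp E} {K : Finset V → Finset E} {w : ℕ}

theorem exists_closure {η : ℝ} (hη : 0 < η) {c : ℕ} (ℱ : Finset (Finset V))
    (hℱ : ℱ ⊆ smalls c) :
    ∃ 𝒞 : Finset (Finset V), ℱ ⊆ 𝒞 ∧ 𝒞 ⊆ smalls c ∧ Closed N K η c 𝒞 ∧
      ∀ T : Finset E, N.E (fun W => ind (covE K 𝒞 (T ∪ W) ∧ ¬ covE K ℱ (T ∪ W)))
        ≤ ((smalls c \ ℱ).card : ℝ) * η := by
  induction hn : (smalls c \ ℱ).card using Nat.strong_induction_on generalizing ℱ with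
  | _ n ih =>
    by_cases hcl : Closed N K η c ℱ
    · refine ⟨ℱ, le_refl _, hℱ, hcl, ?_⟩
      intro T
      have : (fun W : Finset E => ind (covE K ℱ (T ∪ W) ∧ ¬ covE K ℱ (T ∪ W))) = fun _ => 0 := by
        funext W
        exact ind_not (by tauto)
      rw [this, N.const']
      positivity
    · unfold Closed at hcl
      push Not at hcl
      obtain ⟨R, hRc, hRlt, hR⟩ := hcl
      have hsub : insert R ℱ ⊆ smalls c := by
        rw [Finset.insert_subset_iff]
        exact ⟨mem_smalls.2 hRc, hℱ⟩
      have hlt : (smalls c \ insert R ℱ).card + 1 = (smalls c \ ℱ).card := by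
        have h1 : smalls c \ ℱ = insert R (smalls c \ insert R ℱ) := by
          ext S
          simp only [Finset.mem_sdiff, Finset.mem_insert]
          constructor
          · intro ⟨h1, h2⟩
            by_cases hS : S = R
            · exact Or.inl hS
            · exact Or.inr ⟨h1, by tauto⟩
          · rintro (h1 | ⟨h1, h2⟩)
            · subst h1; exact ⟨mem_smalls.2 hRc, hR⟩
            · exact ⟨h1, by tauto⟩
        rw [h1, Finset.card_insert_of_notMem]
        simp
      obtain ⟨𝒞, h1, h2, h3, h4⟩ := ih _ (by omega) (insert R ℱ) hsub rfl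
      refine ⟨𝒞, (Finset.subset_insert _ _).trans h1, h2, h3, ?_⟩
      intro T
      have h5 : ∀ W : Finset E, ind (covE K 𝒞 (T ∪ W) ∧ ¬ covE K ℱ (T ∪ W))
          ≤ ind (covE K 𝒞 (T ∪ W) ∧ ¬ covE K (insert R ℱ) (T ∪ W)) +
            ind (¬ covE K ℱ (K R ∪ W)) := by
        intro W
        refine le_trans (ind_mono ?_) (ind_or_le _ _)
        rintro ⟨ha, hb⟩
        by_cases hc : covE K (insert R ℱ) (T ∪ W)
        · right
          intro hd
          apply hb
          obtain ⟨S, hS, hSW⟩ := hc
          rw [Finset.mem_insert] at hS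
          rcases hS with hS | hS
          · subst hS
            refine covE_mono (le_refl _) ?_ hd
            exact Finset.union_subset hSW Finset.subset_union_right
          · exact ⟨S, hS, hSW⟩
        · exact Or.inl ⟨ha, hc⟩
      refine le_trans (N.mono h5) ?_
      rw [N.add']
      have h6 := h4 T
      have h7 : ((smalls (X := V) c \ ℱ).card : ℝ) = (smalls (X := V) c \ insert R ℱ).card + 1 := by
        rw [← hlt]; push_cast; ring
      rw [← hn, h7]
      calc _ ≤ ((smalls (X := V) c \ insert R ℱ).card : ℝ) * η + η :=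
            add_le_add h6 hRlt.le
        _ = _ := by ring

/-- The random set of edges covers large families of sets with small degrees. -/
def Covers (N : NoiseOp E) (K : Finset V → Finset E) (η : ℝ) (c : ℕ) (B : ℝ) : Prop :=
  ∀ (J : Finset V) (n : ℕ) (𝒯 : Finset (Finset V)), J.card + n ≤ c →
    (∀ T ∈ 𝒯, T.card = n ∧ Disjoint T J) →
    (∀ I : Finset V, I.Nonempty → ((𝒯.filter (fun T => I ⊆ T)).card : ℝ) ≤ B ^ (n - I.card)) →
    B ^ n < 𝒯.card → N.E (fun W => ind (¬ ∃ T ∈ 𝒯, K (J ∪ T) ⊆ K J ∪ W)) < η

/-- Closed families are closed under small supersets. -/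
theorem closed_up (hK : Sys K w) {η : ℝ} (hη : 0 < η) {c : ℕ} {𝒮 : Finset (Finset V)}
    (hcl : Closed N K η c 𝒮) {S T : Finset V} (hS : S ∈ 𝒮) (hST : S ⊆ T) (hT : T.card ≤ c) :
    T ∈ 𝒮 := by
  apply hcl T hT
  have : (fun W : Finset E => ind (¬ covE K 𝒮 (K T ∪ W))) = fun _ => 0 := by
    funext W
    apply ind_not
    intro h
    exact h ⟨S, hS, (hK.mono hST).trans Finset.subset_union_left⟩
  rw [this, N.const']
  exact hη

theorem closed_empty {η : ℝ} (hη : η ≤ 1) {c : ℕ} :
    Closed N K η c (∅ : Finset (Finset V)) := by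
  intro T _ h
  exfalso
  have : (fun W : Finset E => ind (¬ covE K (∅ : Finset (Finset V)) (K T ∪ W))) = fun _ => 1 := by
    funext W
    apply ind_of
    rintro ⟨S, hS, _⟩
    simp at hS
  rw [this, N.const'] at h
  linarith

theorem closed_smalls {η : ℝ} {c : ℕ} : Closed N K η c (smalls (X := V) c) :=
  fun _ hT _ => mem_smalls.2 hT

theorem card_relMinsAt_le {η : ℝ} {c : ℕ} {B : ℝ} (hB1 : 1 ≤ B) (hcov : Covers N K η c B)
    {𝒮 : Finset (Finset V)} (hcl : Closed N K η c 𝒮) {k : ℕ} (hk : k ≤ c) (U J : Finset V)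
    (hUJ : U ⊆ J) :
    ((relMinsAt 𝒮 U k J).card : ℝ) ≤ B ^ (k - J.card) := by
  induction hn : k - J.card using Nat.strong_induction_on generalizing J with
  | _ n ih =>
    have hB0 : (0 : ℝ) ≤ B ^ n := by positivity
    have hB1n : (1 : ℝ) ≤ B ^ n := one_le_pow₀ hB1
    by_cases hJk : k < J.card
    · have : relMinsAt 𝒮 U k J = ∅ := by
        rw [Finset.eq_empty_iff_forall_notMem]
        intro S hS
        simp only [relMinsAt, Finset.mem_filter] at hS
        have := Finset.card_le_card hS.2.2.2
        omega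
      rw [this]; simpa using hB0
    by_cases hJ : J ∈ 𝒮
    · have : relMinsAt 𝒮 U k J ⊆ {J} := by
        intro S hS
        simp only [relMinsAt, Finset.mem_filter] at hS
        rw [Finset.mem_singleton]
        exact (hS.2.1 J hJ hUJ hS.2.2.2).symm
      have h2 := Finset.card_le_card this
      rw [Finset.card_singleton] at h2
      have h3 : ((relMinsAt 𝒮 U k J).card : ℝ) ≤ 1 := by exact_mod_cast h2
      exact le_trans h3 hB1n
    push Not at hJk
    by_contra hgt
    push Not at hgt
    apply hJ
    -- the link family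
    set 𝒯 := (relMinsAt 𝒮 U k J).image (fun S => S \ J) with h𝒯
    have hinj : Set.InjOn (fun S : Finset V => S \ J) (relMinsAt 𝒮 U k J : Set (Finset V)) := by
      intro S hS S' hS' h
      simp only [relMinsAt, Finset.coe_filter, Set.mem_ofPred_eq] at hS hS'
      simp only at h
      rw [← Finset.sdiff_union_of_subset hS.2.2.2, ← Finset.sdiff_union_of_subset hS'.2.2.2, h]
    have hcardT : 𝒯.card = (relMinsAt 𝒮 U k J).card := Finset.card_image_of_injOn hinj
    have hcard : ∀ T ∈ 𝒯, T.card = n ∧ Disjoint T J := by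
      intro T hT
      rw [h𝒯, Finset.mem_image] at hT
      obtain ⟨S, hS, rfl⟩ := hT
      simp only [relMinsAt, Finset.mem_filter] at hS
      refine ⟨?_, Finset.sdiff_disjoint⟩
      rw [Finset.card_sdiff_of_subset hS.2.2.2, hS.2.2.1, hn]
    have hdeg : ∀ I : Finset V, I.Nonempty → ((𝒯.filter (fun T => I ⊆ T)).card : ℝ)
        ≤ B ^ (n - I.card) := by
      intro I hI
      have hIc : 0 < I.card := Finset.card_pos.2 hI
      by_cases hIJ : Disjoint I J
      · have hsub : (𝒯.filter (fun T => I ⊆ T)) ⊆
            (relMinsAt 𝒮 U k (J ∪ I)).image (fun S => S \ J) := by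
          intro T hT
          rw [Finset.mem_filter] at hT
          obtain ⟨hT1, hT2⟩ := hT
          rw [h𝒯, Finset.mem_image] at hT1
          obtain ⟨S, hS, rfl⟩ := hT1
          rw [Finset.mem_image]
          refine ⟨S, ?_, rfl⟩
          simp only [relMinsAt, Finset.mem_filter] at hS ⊢
          refine ⟨hS.1, hS.2.1, hS.2.2.1,
            Finset.union_subset hS.2.2.2 (hT2.trans Finset.sdiff_subset)⟩
        have h1 : (𝒯.filter (fun T => I ⊆ T)).card ≤ (relMinsAt 𝒮 U k (J ∪ I)).card :=
          le_trans (Finset.card_le_card hsub) Finset.card_image_le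
        have h2 : ((𝒯.filter (fun T => I ⊆ T)).card : ℝ) ≤ (relMinsAt 𝒮 U k (J ∪ I)).card := by
          exact_mod_cast h1
        have hJIc : (J ∪ I).card = J.card + I.card := Finset.card_union_of_disjoint hIJ.symm
        by_cases hbig : k < (J ∪ I).card
        · have : relMinsAt 𝒮 U k (J ∪ I) = ∅ := by
            rw [Finset.eq_empty_iff_forall_notMem]
            intro S hS
            simp only [relMinsAt, Finset.mem_filter] at hS
            have := Finset.card_le_card hS.2.2.2
            omega
          rw [this] at h2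
          simp only [Finset.card_empty, Nat.cast_zero] at h2
          exact le_trans h2 (by positivity)
        · push Not at hbig
          have h3 := ih (k - (J ∪ I).card) (by omega) (J ∪ I)
            (hUJ.trans Finset.subset_union_left) rfl
          have h4 : k - (J ∪ I).card = n - I.card := by omega
          rw [h4] at h3
          exact le_trans h2 h3
      · have : 𝒯.filter (fun T => I ⊆ T) = ∅ := by
          rw [Finset.eq_empty_iff_forall_notMem]
          intro T hT
          rw [Finset.mem_filter] at hT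
          obtain ⟨hT1, hT2⟩ := hT
          rw [h𝒯, Finset.mem_image] at hT1
          obtain ⟨S, hS, rfl⟩ := hT1
          apply hIJ
          exact Finset.disjoint_of_subset_left hT2 Finset.sdiff_disjoint
        rw [this]
        simp only [Finset.card_empty, Nat.cast_zero]
        positivity
    rw [← hcardT] at hgt
    have hprob := hcov J n 𝒯 (by omega) hcard hdeg hgt
    apply hcl J (by omega)
    refine lt_of_le_of_lt (N.mono ?_) hprob
    intro W
    apply ind_mono
    rintro h ⟨T, hT, hTW⟩
    apply h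
    rw [h𝒯, Finset.mem_image] at hT
    obtain ⟨S, hS, rfl⟩ := hT
    simp only [relMinsAt, Finset.mem_filter] at hS
    refine ⟨S, hS.1, ?_⟩
    rwa [Finset.union_sdiff_of_subset hS.2.2.2] at hTW

end Pool.Agent.T9h34.P
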