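import Pool.Agent.T9h34.P.Bern
import Pool.Agent.T9h34.P.Closed

/-!
# A random set of edges covers large families of sets of vertices

The second moment method on the parts of a random colouring of the vertices.
-/

set_option autoImplicit false
set_option linter.unusedSectionVars false

namespace Pool.Agent.T9h34.P

open Finset Pool.Agent.T9h34
open Pool.Agent.T9h34.G (NoiseOp)

variable {V E : Type*} [Fintype V] [DecidableEq V] [Fintype E] [DecidableEq E]

theorem ind_sq (p : Prop) : ind p * ind p = ind p := by
  by_cases h : p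
  · rw [ind_of h, one_mul]
  · rw [ind_not h, mul_zero]

/-- Expectation over a random colouring and a random set. -/
noncomputable def avg (V : Type*) [Fintype V] [DecidableEq V] (N : NoiseOp E) (m : ℕ)
    (F : (V → Fin m) → Finset E → ℝ) : ℝ :=
  (∑ col : V → Fin m, N.E (F col)) / (m : ℝ) ^ Fintype.card V

variable {N : NoiseOp E} {m : ℕ}

theorem avg_mono {F G : (V → Fin m) → Finset E → ℝ} (h : ∀ col W, F col W ≤ G col W) :
    avg V N m F ≤ avg V N m G := by
  unfold avg
  apply div_le_div_of_nonneg_right _ (by positivity)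
  exact sum_le_sum fun col _ => N.mono (h col)

theorem avg_add (F G : (V → Fin m) → Finset E → ℝ) :
    avg V N m (fun col W => F col W + G col W) = avg V N m F + avg V N m G := by
  unfold avg
  rw [← add_div, ← sum_add_distrib]
  congr 1
  apply sum_congr rfl
  intro col _
  exact N.add' _ _

theorem avg_const_mul (c : ℝ) (F : (V → Fin m) → Finset E → ℝ) :
    avg V N m (fun col W => c * F col W) = c * avg V N m F := by
  unfold avg
  rw [← mul_div_assoc, mul_sum]
  congr 1
  apply sum_congr rfl
  intro col _
  exact N.const_mul' _ _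

theorem avg_const (hm : 0 < m) (c : ℝ) : avg V N m (fun _ _ => c) = c := by
  unfold avg
  have h : (m : ℝ) ^ Fintype.card V ≠ 0 := by positivity
  simp only [N.const']
  rw [sum_const, card_univ, Fintype.card_fun, Fintype.card_fin, nsmul_eq_mul]
  push_cast
  field_simp

theorem avg_sum {α : Type*} (s : Finset α) (F : α → (V → Fin m) → Finset E → ℝ) :
    avg V N m (fun col W => ∑ a ∈ s, F a col W) = ∑ a ∈ s, avg V N m (F a) := by
  classical
  induction s using Finset.induction_on with
  | empty =>
    simp only [sum_empty]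
    unfold avg
    simp only [N.const', sum_const_zero, zero_div]
  | insert a s ha ih =>
    simp only [sum_insert ha]
    rw [avg_add, ih]

theorem avg_nonneg {F : (V → Fin m) → Finset E → ℝ} (h : ∀ col W, 0 ≤ F col W) :
    0 ≤ avg V N m F := by
  unfold avg
  apply div_nonneg _ (by positivity)
  exact sum_nonneg fun col _ => N.nonneg (h col)

/-- The second moment inequality. -/
theorem second {X : (V → Fin m) → Finset E → ℝ} {a b : ℝ} (ha : 0 < a) (hb : 0 < b)
    (h1 : avg V N m X = a) (h2 : avg V N m (fun col W => X col W * X col W) ≤ b) :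
    a ^ 2 ≤ b * avg V N m (fun col W => ind (X col W ≠ 0)) := by
  obtain ⟨t, ht⟩ : ∃ t, t = b / a := ⟨_, rfl⟩
  obtain ⟨P, hP⟩ : ∃ P, P = avg V N m (fun col W => ind (X col W ≠ 0)) := ⟨_, rfl⟩
  have h3 : 0 ≤ avg V N m (fun col W => (X col W - t * ind (X col W ≠ 0)) *
      (X col W - t * ind (X col W ≠ 0))) := avg_nonneg fun col W => mul_self_nonneg _
  have h4 : (fun col W => (X col W - t * ind (X col W ≠ 0)) *
      (X col W - t * ind (X col W ≠ 0))) =
      fun (col : V → Fin m) (W : Finset E) => X col W * X col W +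
        ((-(2 * t)) * X col W + t ^ 2 * ind (X col W ≠ 0)) := by
    funext col W
    by_cases h : X col W = 0
    · rw [ind_not (not_not.2 h), h]
      ring
    · rw [ind_of h]
      ring
  rw [h4, avg_add, avg_add, avg_const_mul, avg_const_mul, h1, ← hP] at h3
  rw [← hP]
  have h5 : 0 ≤ b + (-(2 * t) * a + t ^ 2 * P) := by linarith
  have h6 : t * a = b := by rw [ht]; field_simp
  have h7 : 0 ≤ -b + t ^ 2 * P := by nlinarith
  have h8 : b * a ^ 2 ≤ (t * a) ^ 2 * P := by nlinarith [sq_nonneg a, mul_nonneg (sq_nonneg a) h7]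
  rw [h6] at h8
  nlinarith

/-- The number of colourings with one colour on a given set. -/
theorem sum_colour (hm : 0 < m) (U : Finset V) (i : Fin m) :
    ∑ col : V → Fin m, ind (∀ v ∈ U, col v = i) =
      (m : ℝ) ^ Fintype.card V / (m : ℝ) ^ U.card := by
  classical
  have h1 : ∀ col : V → Fin m, ind (∀ v ∈ U, col v = i) =
      if col ∈ Fintype.piFinset (fun v => if v ∈ U then ({i} : Finset (Fin m)) else univ)
        then (1 : ℝ) else 0 := by
    intro col
    by_cases h : ∀ v ∈ U, col v = i
    · rw [ind_of h, if_pos]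
      rw [Fintype.mem_piFinset]
      intro v
      by_cases hv : v ∈ U
      · rw [if_pos hv, h v hv]
        exact mem_singleton_self _
      · rw [if_neg hv]
        exact mem_univ _
    · rw [ind_not h, if_neg]
      rw [Fintype.mem_piFinset]
      intro h2
      apply h
      intro v hv
      have h3 := h2 v
      rw [if_pos hv, mem_singleton] at h3
      exact h3
  simp only [h1]
  rw [Finset.sum_boole, Finset.filter_mem_eq_inter, Finset.univ_inter, Fintype.card_piFinset]
  have h2 : ∀ v : V, (if v ∈ U then ({i} : Finset (Fin m)) else univ).card =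
      if v ∈ U then 1 else m := by
    intro v
    split_ifs
    · exact card_singleton _
    · rw [card_univ, Fintype.card_fin]
  simp only [h2]
  rw [Finset.prod_ite, prod_const, prod_const, one_pow, one_mul, eq_div_iff (by positivity)]
  push_cast
  rw [← pow_add]
  congr 1
  have h3 : (univ.filter fun v => v ∉ U) = univ \ U := by ext v; simp
  rw [h3, card_sdiff_of_subset (subset_univ _), card_univ]
  have := card_le_univ U
  omega

variable {K : Finset V → Finset E}

open Classical in
/-- The random set of edges covers large families of sets of vertices. -/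
theorem covers_bern {c : ℕ} (hK : Sys K c) {γ Q : ℝ} (h0 : 0 ≤ γ) (h1 : γ ≤ 1) (hQ1 : 1 ≤ Q)
    (hQ : 1 ≤ Q * γ) (hm : 0 < m) {B : ℝ} (hB : 4 * (c * (m * Q ^ c)) ≤ B) (hB1 : 1 ≤ B) {η : ℝ}
    (hη : (1 / 4 : ℝ) ^ m < η) : Covers (bern (E := E) h0 h1) K η c B := by
  intro J n 𝒯 hJn h𝒯 hdeg hbig
  obtain ⟨N, hN⟩ : ∃ N, N = bern (E := E) h0 h1 := ⟨_, rfl⟩
  rw [← hN]
  have hγ : 0 < γ := by
    rcases h0.lt_or_eq with h | h
    · exact h
    · rw [← h] at hQ
      linarith
  have hm0 : (0 : ℝ) < m := by exact_mod_cast hm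
  have hm1 : (1 : ℝ) ≤ m := by exact_mod_cast hm
  obtain ⟨A, hA⟩ : ∃ A : Finset V → Finset E, ∀ T, A T = K (J ∪ T) \ K J := ⟨_, fun _ => rfl⟩
  -- overlaps
  have hover : ∀ T ∈ 𝒯, ∀ T' ∈ 𝒯, (A T ∩ A T').card ≤ c * (T ∩ T').card := by
    intro T hT T' hT'
    have h2 : A T ∩ A T' ⊆ K (J ∪ (T ∩ T')) \ K J := by
      intro e he
      rw [mem_inter, hA, hA, mem_sdiff, mem_sdiff] at he
      rw [mem_sdiff]
      refine ⟨?_, he.1.2⟩
      have h3 := hK.inter (J ∪ T) (J ∪ T') (mem_inter.2 ⟨he.1.1, he.2.1⟩)
      rwa [← Finset.union_inter_distrib_left] at h3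
    have h3 : (J ∪ (T ∩ T')).card ≤ c := by
      have h4 := card_union_le J (T ∩ T')
      have h5 := card_le_card (inter_subset_left (s₁ := T) (s₂ := T'))
      have h6 := (h𝒯 T hT).1
      omega
    have h4 := hK.card (subset_union_left (s₁ := J) (s₂ := T ∩ T')) h3
    have h5 : ((J ∪ (T ∩ T')) \ J).card ≤ (T ∩ T').card := by
      apply card_le_card
      intro v hv
      rw [mem_sdiff, mem_union] at hv
      tauto
    exact (card_le_card h2).trans (h4.trans (Nat.mul_le_mul_left _ h5))
  obtain ⟨y, hy⟩ : ∃ y : ℝ, y = m * Q ^ c := ⟨_, rfl⟩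
  have hQc1 : (1 : ℝ) ≤ Q ^ c := one_le_pow₀ hQ1
  have hy1 : 1 ≤ y := by rw [hy]; nlinarith
  have hy0 : 0 < y := by linarith
  have hB0 : 0 < B := by linarith
  have hTpos : (0 : ℝ) < 𝒯.card := lt_of_le_of_lt (by positivity) hbig
  -- one colour
  have hcol : ∀ i : Fin m, avg V N m (fun col W =>
      ind (¬ ∃ T ∈ 𝒯, (∀ v ∈ T, col v = i) ∧ A T ⊆ W)) ≤ 1 / 4 := by
    intro i
    obtain ⟨x, hx⟩ : ∃ x : Finset V → (V → Fin m) → Finset E → ℝ, ∀ T col W, x T col W =
      ((m : ℝ) ^ n / γ ^ (A T).card) * (ind (∀ v ∈ T, col v = i) * ind (A T ⊆ W)) :=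
      ⟨_, fun _ _ _ => rfl⟩
    obtain ⟨X, hX⟩ : ∃ X : (V → Fin m) → Finset E → ℝ, ∀ col W, X col W = ∑ T ∈ 𝒯, x T col W :=
      ⟨_, fun _ _ => rfl⟩
    have hx0 : ∀ T col W, 0 ≤ x T col W := by
      intro T col W
      rw [hx]
      have := ind_nonneg (∀ v ∈ T, col v = i)
      have := ind_nonneg (A T ⊆ W)
      positivity
    have hpair : ∀ (U : Finset V) (D : Finset E), avg V N m (fun col W =>
        ind (∀ v ∈ U, col v = i) * ind (D ⊆ W)) = γ ^ D.card / (m : ℝ) ^ U.card := by
      intro U D
      unfold avg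
      have h2 : ∀ col : V → Fin m, N.E (fun W => ind (∀ v ∈ U, col v = i) * ind (D ⊆ W)) =
          γ ^ D.card * ind (∀ v ∈ U, col v = i) := by
        intro col
        rw [N.const_mul', hN, bern_superset, mul_comm]
      simp only [h2]
      rw [← mul_sum, sum_colour hm]
      have h3 : (0 : ℝ) < (m : ℝ) ^ Fintype.card V := by positivity
      have h4 : (0 : ℝ) < (m : ℝ) ^ U.card := by positivity
      field_simp
    have hfirst : avg V N m X = 𝒯.card := by
      have h2 : X = fun col W => ∑ T ∈ 𝒯, x T col W := by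
        funext col W
        exact hX col W
      rw [h2, avg_sum, ← nsmul_one, ← sum_const]
      apply sum_congr rfl
      intro T hT
      have h3 : x T = fun col W => ((m : ℝ) ^ n / γ ^ (A T).card) *
          (ind (∀ v ∈ T, col v = i) * ind (A T ⊆ W)) := by
        funext col W
        exact hx T col W
      rw [h3, avg_const_mul, hpair, (h𝒯 T hT).1]
      have h4 : (0 : ℝ) < γ ^ (A T).card := by positivity
      field_simp
    have hsecond : avg V N m (fun col W => X col W * X col W) ≤
        (𝒯.card : ℝ) ^ 2 * (y / B + 1) ^ n := by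
      have h2 : (fun col W => X col W * X col W) = fun (col : V → Fin m) (W : Finset E) =>
          ∑ T ∈ 𝒯, ∑ T' ∈ 𝒯, x T col W * x T' col W := by
        funext col W
        rw [hX, sum_mul_sum]
      rw [h2, avg_sum]
      simp only [avg_sum]
      have h3 : ∀ T ∈ 𝒯, ∑ T' ∈ 𝒯, avg V N m (fun col W => x T col W * x T' col W) ≤
          (𝒯.card : ℝ) * (y / B + 1) ^ n := by
        intro T hT
        have h4 : ∀ T' ∈ 𝒯, avg V N m (fun col W => x T col W * x T' col W) ≤
            ∑ I ∈ T.powerset, y ^ I.card * ind (I ⊆ T') := by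
          intro T' hT'
          have h5 : (fun col W => x T col W * x T' col W) =
              fun (col : V → Fin m) (W : Finset E) =>
                ((m : ℝ) ^ n / γ ^ (A T).card * ((m : ℝ) ^ n / γ ^ (A T').card)) *
                (ind (∀ v ∈ T ∪ T', col v = i) * ind (A T ∪ A T' ⊆ W)) := by
            funext col W
            rw [hx, hx]
            have h6 : ind (∀ v ∈ T ∪ T', col v = i) =
                ind (∀ v ∈ T, col v = i) * ind (∀ v ∈ T', col v = i) := by
              rw [← ind_and]
              congr 1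
              apply propext
              constructor
              · intro h
                exact ⟨fun v hv => h v (mem_union_left _ hv),
                  fun v hv => h v (mem_union_right _ hv)⟩
              · rintro ⟨h, h'⟩ v hv
                rcases mem_union.1 hv with hv | hv
                · exact h v hv
                · exact h' v hv
            have h7 : ind (A T ∪ A T' ⊆ W) = ind (A T ⊆ W) * ind (A T' ⊆ W) := by
              rw [← ind_and]
              congr 1
              apply propext
              exact union_subset_iff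
            rw [h6, h7]
            ring
          rw [h5, avg_const_mul, hpair]
          have hc1 : (T ∪ T').card + (T ∩ T').card = n + n := by
            rw [card_union_add_card_inter, (h𝒯 T hT).1, (h𝒯 T' hT').1]
          have hc2 : (A T ∪ A T').card + (A T ∩ A T').card = (A T).card + (A T').card :=
            card_union_add_card_inter _ _
          have h6 : (m : ℝ) ^ n / γ ^ (A T).card * ((m : ℝ) ^ n / γ ^ (A T').card) *
              (γ ^ (A T ∪ A T').card / (m : ℝ) ^ (T ∪ T').card) =
              (m : ℝ) ^ (T ∩ T').card * (1 / γ) ^ (A T ∩ A T').card := by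
            have h7 : (m : ℝ) ^ n * (m : ℝ) ^ n =
                (m : ℝ) ^ (T ∪ T').card * (m : ℝ) ^ (T ∩ T').card := by
              rw [← pow_add, ← pow_add, hc1]
            have h8 : γ ^ (A T).card * γ ^ (A T').card =
                γ ^ (A T ∪ A T').card * γ ^ (A T ∩ A T').card := by
              rw [← pow_add, ← pow_add, hc2]
            have h9 : (0 : ℝ) < γ ^ (A T ∪ A T').card := by positivity
            have h10 : (0 : ℝ) < γ ^ (A T ∩ A T').card := by positivity
            have h11 : (0 : ℝ) < (m : ℝ) ^ (T ∪ T').card := by positivity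
            calc (m : ℝ) ^ n / γ ^ (A T).card * ((m : ℝ) ^ n / γ ^ (A T').card) *
                (γ ^ (A T ∪ A T').card / (m : ℝ) ^ (T ∪ T').card)
                = ((m : ℝ) ^ n * (m : ℝ) ^ n) / (γ ^ (A T).card * γ ^ (A T').card) *
                  (γ ^ (A T ∪ A T').card / (m : ℝ) ^ (T ∪ T').card) := by
                  rw [div_mul_div_comm]
              _ = ((m : ℝ) ^ (T ∪ T').card * (m : ℝ) ^ (T ∩ T').card) /
                    (γ ^ (A T ∪ A T').card * γ ^ (A T ∩ A T').card) *
                  (γ ^ (A T ∪ A T').card / (m : ℝ) ^ (T ∪ T').card) := by rw [h7, h8]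
              _ = _ := by
                  rw [div_pow, one_pow]
                  field_simp
          rw [h6]
          have h7 : (m : ℝ) ^ (T ∩ T').card * (1 / γ) ^ (A T ∩ A T').card ≤
              y ^ (T ∩ T').card := by
            have h8 : 1 / γ ≤ Q := by
              rw [div_le_iff₀ hγ]
              exact hQ
            have h9 : (1 / γ) ^ (A T ∩ A T').card ≤ Q ^ (c * (T ∩ T').card) :=
              (pow_le_pow_left₀ (by positivity) h8 _).trans
                (pow_le_pow_right₀ hQ1 (hover T hT T' hT'))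
            calc (m : ℝ) ^ (T ∩ T').card * (1 / γ) ^ (A T ∩ A T').card
                ≤ (m : ℝ) ^ (T ∩ T').card * Q ^ (c * (T ∩ T').card) :=
                  mul_le_mul_of_nonneg_left h9 (by positivity)
              _ = y ^ (T ∩ T').card := by rw [pow_mul, ← mul_pow, hy]
          refine h7.trans ?_
          have h8 : y ^ (T ∩ T').card = y ^ (T ∩ T').card * ind (T ∩ T' ⊆ T') := by
            rw [ind_of inter_subset_right, mul_one]
          rw [h8]
          apply single_le_sum (f := fun I => y ^ I.card * ind (I ⊆ T'))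
          · intro I _
            exact mul_nonneg (by positivity) (ind_nonneg _)
          · rw [mem_powerset]
            exact inter_subset_left
        refine (sum_le_sum h4).trans ?_
        rw [sum_comm]
        have h5 : ∀ I ∈ T.powerset, ∑ T' ∈ 𝒯, y ^ I.card * ind (I ⊆ T') ≤
            (𝒯.card : ℝ) * ((y / B) ^ I.card * 1 ^ (T.card - I.card)) := by
          intro I hI
          rw [← mul_sum, one_pow, mul_one]
          have h6 : ∑ T' ∈ 𝒯, ind (I ⊆ T') = ((𝒯.filter fun T' => I ⊆ T').card : ℝ) := by
            rw [card_filter]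
            push_cast
            apply sum_congr rfl
            intro T' _
            by_cases h : I ⊆ T'
            · rw [ind_of h, if_pos h]
            · rw [ind_not h, if_neg h]
          rw [h6]
          have hIn : I.card ≤ n := by
            rw [← (h𝒯 T hT).1]
            exact card_le_card (mem_powerset.1 hI)
          have h7 : ((𝒯.filter fun T' => I ⊆ T').card : ℝ) ≤ 𝒯.card / B ^ I.card := by
            by_cases hne : I.Nonempty
            · refine (hdeg I hne).trans ?_
              rw [le_div_iff₀ (by positivity), ← pow_add, Nat.sub_add_cancel hIn]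
              exact hbig.le
            · rw [Finset.not_nonempty_iff_eq_empty] at hne
              rw [hne, card_empty, pow_zero, div_one]
              exact_mod_cast card_le_card (filter_subset _ _)
          calc y ^ I.card * ((𝒯.filter fun T' => I ⊆ T').card : ℝ)
              ≤ y ^ I.card * (𝒯.card / B ^ I.card) := mul_le_mul_of_nonneg_left h7 (by positivity)
            _ = _ := by rw [div_pow]; ring
        refine (sum_le_sum h5).trans ?_
        rw [← mul_sum, Finset.sum_pow_mul_eq_add_pow, (h𝒯 T hT).1]
      refine (sum_le_sum h3).trans (le_of_eq ?_)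
      rw [sum_const, nsmul_eq_mul]
      ring
    have h2 := second (by exact_mod_cast hTpos : (0 : ℝ) < 𝒯.card) (by positivity) hfirst hsecond
    obtain ⟨P, hP⟩ : ∃ P, P = avg V N m (fun col W => ind (X col W ≠ 0)) := ⟨_, rfl⟩
    rw [← hP] at h2
    have h3 : 1 ≤ (y / B + 1) ^ n * P := by
      have h4 : (0 : ℝ) < (𝒯.card : ℝ) ^ 2 := by positivity
      have h5 : (𝒯.card : ℝ) ^ 2 * 1 ≤ (𝒯.card : ℝ) ^ 2 * ((y / B + 1) ^ n * P) := by
        linarith
      exact le_of_mul_le_mul_left h5 h4
    have hyB : y / B * n ≤ 1 / 4 := by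
      rw [div_mul_eq_mul_div, div_le_iff₀ hB0]
      have hnc : (n : ℝ) ≤ c := by
        have : n ≤ c := by omega
        exact_mod_cast this
      rw [← hy] at hB
      nlinarith
    have hyB0 : 0 ≤ y / B := by positivity
    have hP0 : 0 ≤ P := by
      rw [hP]
      exact avg_nonneg fun _ _ => ind_nonneg _
    have h4 : 3 / 4 ≤ P := by
      by_cases hn0 : n = 0
      · rw [hn0, pow_zero, one_mul] at h3
        linarith
      · have hn1 : (1 : ℝ) ≤ n := by
          have : 1 ≤ n := Nat.one_le_iff_ne_zero.2 hn0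
          exact_mod_cast this
        have hyB1 : y / B ≤ 1 / 4 := by nlinarith
        have h5 : 1 - n * (y / B) ≤ (1 - y / B) ^ n := by
          have h6 := one_add_mul_le_pow (a := -(y / B)) (by linarith) n
          have h7 : (1 : ℝ) + -(y / B) = 1 - y / B := by ring
          rw [h7] at h6
          linarith
        have h6 : (1 - y / B) ^ n * (y / B + 1) ^ n ≤ 1 := by
          rw [← mul_pow]
          apply pow_le_one₀
          · nlinarith
          · nlinarith
        have h7 : 0 ≤ (1 - y / B) ^ n := pow_nonneg (by linarith) n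
        have h8 : (1 - y / B) ^ n * 1 ≤ (1 - y / B) ^ n * ((y / B + 1) ^ n * P) :=
          mul_le_mul_of_nonneg_left h3 h7
        have h9 : (1 - y / B) ^ n * ((y / B + 1) ^ n * P) ≤ 1 * P := by
          rw [← mul_assoc]
          exact mul_le_mul_of_nonneg_right h6 hP0
        linarith
    have h5 : (fun col W => ind (¬ ∃ T ∈ 𝒯, (∀ v ∈ T, col v = i) ∧ A T ⊆ W)) =
        fun (col : V → Fin m) (W : Finset E) => (1 : ℝ) + (-1) * ind (X col W ≠ 0) := by
      funext col W
      by_cases h : ∃ T ∈ 𝒯, (∀ v ∈ T, col v = i) ∧ A T ⊆ W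
      · obtain ⟨T, hT, hT1, hT2⟩ := h
        rw [ind_not (not_not.2 ⟨T, hT, hT1, hT2⟩), ind_of]
        · ring
        · have h6 : 0 < x T col W := by
            rw [hx, ind_of hT1, ind_of hT2]
            positivity
          have h7 : x T col W ≤ X col W := by
            rw [hX]
            exact single_le_sum (f := fun T => x T col W) (fun T _ => hx0 T col W) hT
          exact (lt_of_lt_of_le h6 h7).ne'
      · rw [ind_of h, ind_not]
        · ring
        · rw [not_not, hX]
          apply sum_eq_zero
          intro T hT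
          rw [hx]
          by_cases h6 : ∀ v ∈ T, col v = i
          · have h7 : ¬ A T ⊆ W := fun h8 => h ⟨T, hT, h6, h8⟩
            rw [ind_not h7]
            ring
          · rw [ind_not h6]
            ring
    rw [h5, avg_add, avg_const hm, avg_const_mul, ← hP]
    linarith
  -- a good colouring
  obtain ⟨Y, hY⟩ : ∃ Y : (V → Fin m) → Fin m → ℝ, ∀ col i, Y col i = N.E (fun W =>
    ind (¬ ∃ T ∈ 𝒯, (∀ v ∈ T, col v = i) ∧ A T ⊆ W)) := ⟨_, fun _ _ => rfl⟩
  have hY0 : ∀ col i, 0 ≤ Y col i := by
    intro col i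
    rw [hY]
    exact N.nonneg fun _ => ind_nonneg _
  obtain ⟨col, hcolsum⟩ : ∃ col : V → Fin m, ∑ i, Y col i ≤ m / 4 := by
    by_contra hcon
    push Not at hcon
    have h2 : ∑ i : Fin m, avg V N m (fun col W =>
      ind (¬ ∃ T ∈ 𝒯, (∀ v ∈ T, col v = i) ∧ A T ⊆ W)) ≤ m / 4 := by
      refine (sum_le_sum fun i _ => hcol i).trans (le_of_eq ?_)
      rw [sum_const, card_univ, Fintype.card_fin, nsmul_eq_mul]
      ring
    have h3 : ∑ i : Fin m, avg V N m (fun col W =>
        ind (¬ ∃ T ∈ 𝒯, (∀ v ∈ T, col v = i) ∧ A T ⊆ W)) =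
        (∑ col : V → Fin m, ∑ i, Y col i) / (m : ℝ) ^ Fintype.card V := by
      unfold avg
      rw [← sum_div, sum_comm]
      simp only [hY]
    rw [h3, div_le_iff₀ (by positivity)] at h2
    haveI : Nonempty (Fin m) := ⟨⟨0, hm⟩⟩
    have h4 : ∑ _col : V → Fin m, ((m : ℝ) / 4) < ∑ col : V → Fin m, ∑ i, Y col i :=
      sum_lt_sum_of_nonempty univ_nonempty fun col _ => hcon col
    rw [sum_const, card_univ, Fintype.card_fun, Fintype.card_fin, nsmul_eq_mul] at h4
    push_cast at h4
    linarith
  -- independence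
  have hprod : N.E (fun W => ∏ i : Fin m,
      ind (¬ ∃ T ∈ 𝒯, (∀ v ∈ T, col v = i) ∧ A T ⊆ W)) = ∏ i : Fin m, Y col i := by
    rw [hN, bern_prod univ (fun i => (𝒯.filter fun T => ∀ v ∈ T, col v = i).biUnion A)
      (fun i W => ind (¬ ∃ T ∈ 𝒯, (∀ v ∈ T, col v = i) ∧ A T ⊆ W))]
    · simp only [hY, hN]
    · intro i _ j _ hij
      rw [disjoint_left]
      intro e he he'
      rw [mem_biUnion] at he he'
      obtain ⟨T, hT, heT⟩ := he
      obtain ⟨T', hT', heT'⟩ := he'
      rw [mem_filter] at hT hT'
      have h2 := hover T hT.1 T' hT'.1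
      have h3 : T ∩ T' = ∅ := by
        rw [eq_empty_iff_forall_notMem]
        intro v hv
        rw [mem_inter] at hv
        exact hij ((hT.2 v hv.1).symm.trans (hT'.2 v hv.2))
      rw [h3, card_empty, mul_zero, Nat.le_zero, card_eq_zero] at h2
      have h4 : e ∈ A T ∩ A T' := mem_inter.2 ⟨heT, heT'⟩
      rw [h2] at h4
      simp at h4
    · intro i _ W
      congr 1
      apply propext
      rw [not_iff_not]
      constructor
      · rintro ⟨T, hT, hT1, hT2⟩
        refine ⟨T, hT, hT1, subset_inter hT2 ?_⟩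
        intro e he
        rw [mem_biUnion]
        exact ⟨T, by rw [mem_filter]; exact ⟨hT, hT1⟩, he⟩
      · rintro ⟨T, hT, hT1, hT2⟩
        exact ⟨T, hT, hT1, hT2.trans inter_subset_left⟩
  have hfin : ∏ i : Fin m, Y col i ≤ (1 / 4 : ℝ) ^ m := by
    have h2 : ∀ i ∈ (univ : Finset (Fin m)), Y col i ≤
        (1 / 4 : ℝ) * Real.exp (4 * Y col i - 1) := by
      intro i _
      have h3 := Real.add_one_le_exp (4 * Y col i - 1)
      linarith
    refine (prod_le_prod (fun i _ => hY0 col i) h2).trans ?_
    rw [prod_mul_distrib, prod_const, card_univ, Fintype.card_fin, ← Real.exp_sum,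
      sum_sub_distrib, ← mul_sum, sum_const, card_univ, Fintype.card_fin, nsmul_eq_mul, mul_one]
    have h3 : Real.exp (4 * ∑ i, Y col i - m) ≤ 1 := by
      rw [Real.exp_le_one_iff]
      linarith
    have h4 : (0 : ℝ) ≤ (1 / 4 : ℝ) ^ m := by positivity
    nlinarith
  refine lt_of_le_of_lt ?_ hη
  refine le_trans ?_ hfin
  rw [← hprod]
  apply N.mono
  intro W
  by_cases h : ∃ T ∈ 𝒯, K (J ∪ T) ⊆ K J ∪ W
  · rw [ind_not (not_not.2 h)]
    exact prod_nonneg fun _ _ => ind_nonneg _
  · rw [ind_of h]
    apply le_of_eq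
    symm
    apply prod_eq_one
    intro i _
    apply ind_of
    rintro ⟨T, hT, _, hT2⟩
    apply h
    refine ⟨T, hT, ?_⟩
    intro e he
    rw [mem_union]
    by_cases heJ : e ∈ K J
    · exact Or.inl heJ
    · right
      apply hT2
      rw [hA, mem_sdiff]
      exact ⟨he, heJ⟩

end Pool.Agent.T9h34.P
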