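import Pool.Agent.T9h34.V.Defs

set_option autoImplicit false

/-!
# Planted cliques in random graphs of unknown density
-/

namespace Pool.Agent.PC34

open Pool.Agent.T9h34 (graphInput)
open Pool.Agent.T9h35.RW (Circuit)

/-- The graph of the pairs of vertices whose label is smaller than `a`.  For independent uniform
labels in `{0, ..., L - 1}` this is the random graph of density `a / L`. -/
def labelGraph {n L : ℕ} (lab : Sym2 (Fin n) → Fin L) (a : ℕ) : SimpleGraph (Fin n) where
  Adj u v := u ≠ v ∧ (lab s(u, v) : ℕ) < a
  symm := ⟨fun u v h => ⟨h.1.symm, by rw [Sym2.eq_swap]; exact h.2⟩⟩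
  loopless := ⟨fun _ h => h.1 rfl⟩

/-- The graph `G` together with all edges between vertices of `S`. -/
def withClique {n : ℕ} (G : SimpleGraph (Fin n)) (S : Finset (Fin n)) : SimpleGraph (Fin n) where
  Adj u v := G.Adj u v ∨ (u ≠ v ∧ u ∈ S ∧ v ∈ S)
  symm := ⟨fun _ _ h => h.elim (fun h => Or.inl h.symm) (fun h => Or.inr ⟨h.1.symm, h.2.2, h.2.1⟩)⟩
  loopless := ⟨fun _ h => h.elim (fun h => h.ne rfl) (fun h => h.1 rfl)⟩

/-- The outcomes of the experiment: the number of the density, the labels of the pairs, the set of
`k` vertices, the coin. -/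
abbrev Outcome (n k L M : ℕ) : Type :=
  Fin M × (Sym2 (Fin n) → Fin L) × {S : Finset (Fin n) // S.card = k} × Bool

/-- The graph which the circuit is given: the random graph of density `a i / L`, with a planted
clique on the set if the coin shows `true`. -/
def sample {n k L M : ℕ} (a : ℕ → ℕ) (ω : Outcome n k L M) : SimpleGraph (Fin n) :=
  if ω.2.2.2 = true then withClique (labelGraph ω.2.1 (a ω.1)) ω.2.2.1.1
  else labelGraph ω.2.1 (a ω.1)

open Classical in
/-- The probability of an event, for a uniformly random outcome. -/
noncomputable def prob {Ω : Type} [Fintype Ω] (A : Ω → Prop) : ℝ :=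
  ((Finset.univ.filter A).card : ℝ) / Fintype.card Ω

/-- The probability that the circuit outputs the coin. -/
noncomputable def success {n : ℕ} (C : Circuit (Fin n × Fin n)) (k L M : ℕ) (a : ℕ → ℕ) : ℝ :=
  prob fun ω : Outcome n k L M => C.eval (graphInput (sample a ω)) = ω.2.2.2

/-- The expected number of `i < M` such that the answers to the tests of the circuit are different
on the random graphs of densities `a i / L` and `a (i + 1) / L`, for uniformly random labels. -/
noncomputable def meanChanges {n : ℕ} (C : Circuit (Fin n × Fin n)) (L M : ℕ) (a : ℕ → ℕ) : ℝ :=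
  (∑ lab : Sym2 (Fin n) → Fin L, (VC34.changes C M (fun i => labelGraph lab (a i)) : ℝ)) /
    Fintype.card (Sym2 (Fin n) → Fin L)

end Pool.Agent.PC34
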