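import Pool.Agent.T9h34.P.Params

/-!
# Planted cliques in random graphs of unknown density: the theorem
-/

set_option autoImplicit false

namespace Pool.Agent.T9h34.P

open Finset Pool.Agent.T9h34
open Pool.Agent.PC34 (labelGraph withClique Outcome sample prob success meanChanges)
open scoped Classical

/-- The success probability in terms of the two acceptance probabilities. -/
theorem success_eq {n k L M : ℕ} (hk : k ≤ n) (hL : 0 < L) (hM : 0 < M)
    (C : T9h35.RW.Circuit (Fin n × Fin n)) (a : ℕ → ℕ) :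
    (2 * success C k L M a - 1) * (M * Fintype.card (Sym2 (Fin n) → Fin L)) =
    ∑ i ∈ range M, ∑ lab : Sym2 (Fin n) → Fin L,
      (Ev (fun S : KSet n k => S.1)
          (fun Z => ind (C.eval (graphInput (gr (below lab (a i) ∪ Z.sym2))) = true)) -
        ind (C.eval (graphInput (gr (below lab (a i)))) = true)) := by
  obtain ⟨T, hT⟩ : ∃ T : ℝ, T = Fintype.card (Sym2 (Fin n) → Fin L) := ⟨_, rfl⟩
  obtain ⟨R, hR⟩ : ∃ R : ℝ, R = Fintype.card (KSet n k) := ⟨_, rfl⟩
  have hTpos : 0 < T := by
    rw [hT]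
    haveI : Nonempty (Fin L) := ⟨⟨0, hL⟩⟩
    exact_mod_cast Fintype.card_pos
  have hRpos : 0 < R := by
    rw [hR, card_kset]
    exact_mod_cast Nat.choose_pos hk
  have hMpos : (0 : ℝ) < M := by exact_mod_cast hM
  obtain ⟨p, hp⟩ : ∃ p : ℕ → (Sym2 (Fin n) → Fin L) → Finset (Fin n) → ℝ, ∀ i lab Z,
    p i lab Z = ind (C.eval (graphInput (gr (below lab (a i) ∪ Z.sym2))) = true) :=
    ⟨_, fun _ _ _ => rfl⟩
  obtain ⟨q, hq⟩ : ∃ q : ℕ → (Sym2 (Fin n) → Fin L) → ℝ, ∀ i lab,
    q i lab = ind (C.eval (graphInput (gr (below lab (a i)))) = true) := ⟨_, fun _ _ => rfl⟩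
  have hcard : (Fintype.card (Outcome n k L M) : ℝ) = M * (T * (R * 2)) := by
    rw [hT, hR]
    simp only [Outcome, Fintype.card_prod, Fintype.card_fin, Fintype.card_bool]
    push_cast
    rfl
  have hnum : (((univ.filter fun ω : Outcome n k L M =>
      C.eval (graphInput (sample a ω)) = ω.2.2.2).card : ℕ) : ℝ) =
      ∑ i ∈ range M, ∑ lab : Sym2 (Fin n) → Fin L, ∑ S : KSet n k,
        (p i lab S.1 + (1 - q i lab)) := by
    rw [card_filter]
    push_cast
    rw [← Fin.sum_univ_eq_sum_range (fun i => ∑ lab : Sym2 (Fin n) → Fin L, ∑ S : KSet n k,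
        (p i lab S.1 + (1 - q i lab))) M]
    rw [Fintype.sum_prod_type]
    apply sum_congr rfl
    intro i _
    rw [Fintype.sum_prod_type]
    apply sum_congr rfl
    intro lab _
    rw [Fintype.sum_prod_type]
    apply sum_congr rfl
    intro S _
    rw [Fintype.sum_bool]
    have h1 : sample a ((i, lab, S, true) : Outcome n k L M) =
        gr (below lab (a i) ∪ S.1.sym2) := by
      unfold sample
      simp only [if_true]
      rw [labelGraph_eq, withClique_eq]
    have h2 : sample a ((i, lab, S, false) : Outcome n k L M) = gr (below lab (a i)) := by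
      unfold sample
      simp only [Bool.false_eq_true, if_false]
      rw [labelGraph_eq]
    rw [h1, h2, hp, hq]
    congr 1
    · by_cases h : C.eval (graphInput (gr (below lab (a i) ∪ S.1.sym2))) = true
      · rw [if_pos h, ind_of h]
      · rw [if_neg h, ind_not h]
    · by_cases h : C.eval (graphInput (gr (below lab (a i)))) = true
      · rw [if_neg (by rw [h]; simp), ind_of h]
        ring
      · rw [if_pos (by simpa using h), ind_not h]
        ring
  have hEv : ∀ i lab, ∑ S : KSet n k, p i lab S.1 =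
      R * Ev (fun S : KSet n k => S.1) (fun Z => p i lab Z) := by
    intro i lab
    unfold Ev
    rw [← hR]
    field_simp
  have hnum2 : (((univ.filter fun ω : Outcome n k L M =>
      C.eval (graphInput (sample a ω)) = ω.2.2.2).card : ℕ) : ℝ) =
      R * (∑ i ∈ range M, ∑ lab : Sym2 (Fin n) → Fin L,
        (Ev (fun S : KSet n k => S.1) (fun Z => p i lab Z) - q i lab)) + M * (T * R) := by
    rw [hnum]
    have h1 : ∀ i lab, ∑ S : KSet n k, (p i lab S.1 + (1 - q i lab)) =
        R * (Ev (fun S : KSet n k => S.1) (fun Z => p i lab Z) - q i lab) + R := by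
      intro i lab
      rw [sum_add_distrib, hEv, sum_const, card_univ, nsmul_eq_mul, ← hR]
      ring
    simp only [h1]
    have h2 : ∀ i ∈ range M, ∑ lab : Sym2 (Fin n) → Fin L,
        (R * (Ev (fun S : KSet n k => S.1) (fun Z => p i lab Z) - q i lab) + R) =
        R * (∑ lab : Sym2 (Fin n) → Fin L,
          (Ev (fun S : KSet n k => S.1) (fun Z => p i lab Z) - q i lab)) + T * R := by
      intro i _
      rw [sum_add_distrib, ← mul_sum, sum_const, card_univ, nsmul_eq_mul, ← hT]
    rw [sum_congr rfl h2, sum_add_distrib, ← mul_sum, sum_const, card_range, nsmul_eq_mul]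
  have hsucc : success C k L M a = (((univ.filter fun ω : Outcome n k L M =>
      C.eval (graphInput (sample a ω)) = ω.2.2.2).card : ℕ) : ℝ) /
      Fintype.card (Outcome n k L M) := by
    unfold success prob
    congr!
  rw [hsucc, hnum2, hcard, ← hT]
  simp only [hp, hq]
  obtain ⟨Y, hY⟩ : ∃ Y : ℝ, Y = ∑ i ∈ range M, ∑ lab : Sym2 (Fin n) → Fin L,
      (Ev (fun S : KSet n k => S.1)
          (fun Z => ind (C.eval (graphInput (gr (below lab (a i) ∪ Z.sym2))) = true)) -
        ind (C.eval (graphInput (gr (below lab (a i)))) = true)) := ⟨_, rfl⟩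
  rw [← hY]
  field_simp
  ring

/-- The number of changes is bounded in terms of the number of further gates. -/
theorem changes_bound {n L M f d : ℕ} {C : T9h35.RW.Circuit (Fin n × Fin n)} (hC : C.FanIn f d)
    (lab : Sym2 (Fin n) → Fin L) (a : ℕ → ℕ) (ha : ∀ i < M, a i < a (i + 1)) :
    VC34.changes C M (fun i => labelGraph lab (a i)) + d ≤ d * 2 ^ C.numOther := by
  have h1 := VC34.changes_le' hC (fun i => labelGraph lab (a (min i M))) (by
    intro i
    have h2 : a (min i M) ≤ a (min (i + 1) M) := by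
      by_cases h : i < M
      · rw [min_eq_left h.le, min_eq_left (by omega : i + 1 ≤ M)]
        exact (ha i h).le
      · rw [min_eq_right (by omega), min_eq_right (by omega)]
    intro u v huv
    exact ⟨huv.1, lt_of_lt_of_le huv.2 h2⟩) M
  have h2 : VC34.changes C M (fun i => labelGraph lab (a i)) =
      VC34.changes C M (fun i => labelGraph lab (a (min i M))) := by
    unfold VC34.changes
    congr 1
    apply filter_congr
    intro i hi
    rw [mem_range] at hi
    simp only
    rw [min_eq_left hi.le, min_eq_left (by omega : i + 1 ≤ M)]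
  rw [h2]
  exact h1

/-- **Planted cliques in random graphs of unknown density.** -/
theorem planted {ε : ℝ} (h0 : 0 < ε) (h1 : ε ≤ 1) : ∃ n₀ : ℕ, ∀ (n k L M f s : ℕ) (a : ℕ → ℕ)
    (Q : ℝ), n₀ ≤ n → (k : ℝ) ≤ (n : ℝ) ^ (1 - ε) → 1 ≤ M → (∀ i < M, a i < a (i + 1)) →
    a M ≤ L → (∀ i < M, (L : ℝ) - a i ≤ Q * ((a (i + 1) : ℝ) - a i)) → n ≤ s →
    (f : ℝ) ≤ (n : ℝ) ^ (ε ^ 2 / 64) → Real.log s ≤ (n : ℝ) ^ (ε ^ 2 / 64) →
    Real.log s * Real.log Q ≤ ε ^ 2 / 64 * Real.log n ^ 2 →
    ∀ (d : ℕ) (C : T9h35.RW.Circuit (Fin n × Fin n)), C.FanIn f d →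
      C.size + VC34.numTests C ≤ s →
      meanChanges C L M a + d ≤ d * 2 ^ C.numOther ∧
      2 * success C k L M a - 1 ≤ (1 + meanChanges C L M a) / M + (n : ℝ) ^ (-(ε / 2)) := by
  obtain ⟨n₀, hn₀⟩ := params h0 h1
  refine ⟨n₀, ?_⟩
  intro n k L M f s a Q hn hk hM ha haM hQ hns hf hlog hlQ d C hC hCs
  have hmono : ∀ i < M, a (i + 1) ≤ L := by
    intro i hi
    have h2 : ∀ j, j ≤ M → i + 1 ≤ j → a (i + 1) ≤ a j := by
      intro j
      induction j with
      | zero => intro _ h; omega
      | succ j ih =>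
        intro h3 h4
        rcases Nat.lt_or_ge i j with h5 | h5
        · exact (ih (by omega) (by omega)).trans (ha j (by omega)).le
        · have : i = j := by omega
          rw [this]
    exact (h2 M le_rfl hi).trans haM
  have hQ1 : 1 ≤ Q := by
    have h2 := hQ 0 (by omega)
    have h3 : (a 0 : ℝ) < a 1 := by exact_mod_cast ha 0 (by omega)
    have h4 : (a 1 : ℝ) ≤ L := by exact_mod_cast hmono 0 (by omega)
    simp only [zero_add] at h2
    by_contra hcon
    push Not at hcon
    nlinarith
  have hL : 0 < L := by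
    have h2 := hmono 0 (by omega)
    have h3 := ha 0 (by omega)
    simp only [zero_add] at h2 h3
    omega
  obtain ⟨hn16, c, m, B, η, hc, hm, hB, hB1, hBf, hη1, hη, herr⟩ :=
    hn₀ n k f s Q hn hQ1 hk hns hf hlog hlQ
  have hn0 : 0 < n := by omega
  have hn0' : (0 : ℝ) < n := by exact_mod_cast hn0
  have hkn : k ≤ n := by
    have h2 : (n : ℝ) ^ (1 - ε) ≤ (n : ℝ) ^ (1 : ℝ) := by
      apply Real.rpow_le_rpow_of_exponent_le
      · have : 1 ≤ n := hn0
        exact_mod_cast this
      · linarith
    rw [Real.rpow_one] at h2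
    exact_mod_cast hk.trans h2
  obtain ⟨T, hT⟩ : ∃ T : ℝ, T = Fintype.card (Sym2 (Fin n) → Fin L) := ⟨_, rfl⟩
  have hTpos : 0 < T := by
    rw [hT]
    haveI : Nonempty (Fin L) := ⟨⟨0, hL⟩⟩
    exact_mod_cast Fintype.card_pos
  have hMpos : (0 : ℝ) < M := by exact_mod_cast hM
  have hmean : ∑ lab : Sym2 (Fin n) → Fin L, (((range M).filter fun i =>
          C.reads (graphInput (gr (below lab (a (i + 1))))) ≠
            C.reads (graphInput (gr (below lab (a i))))).card : ℝ) =
      meanChanges C L M a * T := by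
    unfold meanChanges
    rw [← hT, div_mul_cancel₀ _ hTpos.ne']
    apply sum_congr rfl
    intro lab _
    unfold VC34.changes
    simp only [VC34.answers_eq, labelGraph_eq]
    simp only [ne_comm]
  constructor
  · -- the bound for the number of changes
    have h2 : ∀ lab ∈ (univ : Finset (Sym2 (Fin n) → Fin L)),
        (VC34.changes C M (fun i => labelGraph lab (a i)) : ℝ) ≤ d * 2 ^ C.numOther - d := by
      intro lab _
      have h3 := changes_bound hC lab a ha
      have h4 : ((VC34.changes C M (fun i => labelGraph lab (a i)) + d : ℕ) : ℝ) ≤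
          ((d * 2 ^ C.numOther : ℕ) : ℝ) := by exact_mod_cast h3
      push_cast at h4
      linarith
    have h3 : meanChanges C L M a ≤ d * 2 ^ C.numOther - d := by
      unfold meanChanges
      rw [← hT, div_le_iff₀ hTpos]
      refine (sum_le_sum h2).trans (le_of_eq ?_)
      rw [sum_const, card_univ, nsmul_eq_mul, ← hT]
      ring
    linarith
  · have h2 := total (s := s + 1) (f := f + 2) hkn hn0 hc (by omega) hQ1 hm hB hB1 hBf hη1 hη a ha
      hmono hQ C (VC34.fanIn_mono (by omega) hC) (by
        rw [VC34.numTests_eq] at hCs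
        omega)
    rw [← success_eq hkn hL hM C a, ← hT, hmean] at h2
    have h3 : perr n c (f + 2) (s + 1) B ((k : ℝ) / n) η ≤ (n : ℝ) ^ (-(ε / 2)) := herr
    have h4 : M * T * perr n c (f + 2) (s + 1) B ((k : ℝ) / n) η ≤
        M * T * (n : ℝ) ^ (-(ε / 2)) := mul_le_mul_of_nonneg_left h3 (by positivity)
    have h5 : (2 * success C k L M a - 1) * (M * T) ≤
        ((1 + meanChanges C L M a) / M + (n : ℝ) ^ (-(ε / 2))) * (M * T) := by
      have h6 : ((1 + meanChanges C L M a) / M + (n : ℝ) ^ (-(ε / 2))) * (M * T) =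
          T + meanChanges C L M a * T + M * T * (n : ℝ) ^ (-(ε / 2)) := by
        field_simp
      rw [h6]
      linarith
    exact le_of_mul_le_mul_right h5 (by positivity)

end Pool.Agent.T9h34.P
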