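import Pool.Agent.T9h34.P.Close

/-!
# Chains of closed families and spread random sets

A spread random set which covers members of some chains of closed families contains, with high
probability, one small set lying in all of these members.
-/

set_option autoImplicit false
set_option linter.unusedSectionVars false

namespace Pool.Agent.T9h34.P

open Finset Pool.Agent.T9h34
open Pool.Agent.T9h34.G (NoiseOp)
open Pool.Agent.T9h35.Wide (relMinsAt exists_relMin ind_exists_le')

variable {V E : Type*} [Fintype V] [DecidableEq V] [Fintype E] [DecidableEq E]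
variable {N : NoiseOp E} {K : Finset V → Finset E} {η : ℝ} {w : ℕ} {Ω : Type*} [Fintype Ω]

/-- `Z` contains `U` and covers one member of each chain, but no small set between `U` and `Z`
lies in all of these members. -/
def RBad (c : ℕ) (l : List (ℝ → Finset (Finset V))) (U Z : Finset V) : Prop :=
  U ⊆ Z ∧ ∃ r : List ℝ, List.Forall₂ (fun F ρ => cov (F ρ) Z) l r ∧
    ¬ ∃ S : Finset V, U ⊆ S ∧ S ⊆ Z ∧ S.card ≤ c ∧ List.Forall₂ (fun F ρ => S ∈ F ρ) l r

theorem not_rbad_nil {c : ℕ} {U Z : Finset V} (hU : U.card ≤ c) : ¬ RBad c [] U Z := by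
  rintro ⟨h1, r, h2, h3⟩
  rw [List.forall₂_nil_left_iff] at h2
  subst h2
  exact h3 ⟨U, le_refl _, h1, hU, List.Forall₂.nil⟩

theorem rbad_cons (hK : Sys K w) (hη : 0 < η) (hη1 : η ≤ 1) {c : ℕ} {F : ℝ → Finset (Finset V)} {l : List (ℝ → Finset (Finset V))}
    (hF : Chain N K η c F) {U Z : Finset V} (hUc : U.card ≤ c)
    (h : RBad c (F :: l) U Z) :
    RBad c l U Z ∨
      (∃ δ ∈ Finset.Icc 1 c, ∃ S ∈ relMinsAt (nxt F U) U (U.card + δ) U,
        U.card + δ ≤ c ∧ RBad c (F :: l) S Z) ∨
      (∃ J ∈ U.powerset, ∃ δ ∈ Finset.Icc 1 c, ∃ W ∈ relMinsAt (nxt F U) ∅ (J.card + δ) J,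
        c < U.card + δ ∧ J.card + δ ≤ c ∧ (U ∪ W).card = U.card + δ ∧ U ∪ W ⊆ Z) := by
  obtain ⟨hUZ, r, hr, hno⟩ := h
  rw [List.forall₂_cons_left_iff] at hr
  obtain ⟨ρ, rs, hρ, hrs, rfl⟩ := hr
  by_cases hU : U ∈ F ρ
  · left
    refine ⟨hUZ, rs, hrs, ?_⟩
    rintro ⟨S, hUS, hSZ, hSc, hS⟩
    apply hno
    exact ⟨S, hUS, hSZ, hSc, List.Forall₂.cons (closed_up hK hη (hF.closed ρ) hU hUS hSc) hS⟩
  · right
    have hcovN : cov (nxt F U) Z := cov_mono (sub_nxt hF hU) (le_refl _) hρ
    have hcl := nxt_closed hη1 hF U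
    have hsm := nxt_small hF U
    obtain ⟨W0, hW0, hW0Z⟩ := hcovN
    obtain ⟨W, hW, _, hWW0, hWmin⟩ := exists_relMin hW0 (Finset.empty_subset W0)
    have hWZ : W ⊆ Z := hWW0.trans hW0Z
    have hWc : W.card ≤ c := mem_smalls.1 (hsm hW)
    by_cases hbig : c < (U ∪ W).card
    · right
      have hc1 : (U ∪ W).card = U.card + (W \ U).card := by
        rw [← Finset.union_sdiff_self_eq_union]
        exact Finset.card_union_of_disjoint Finset.disjoint_sdiff
      have hc2 : (W \ U).card + (W ∩ U).card = W.card := Finset.card_sdiff_add_card_inter W U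
      refine ⟨W ∩ U, Finset.mem_powerset.2 Finset.inter_subset_right, (W \ U).card, ?_, W, ?_,
        by omega, by omega, hc1, Finset.union_subset hUZ hWZ⟩
      · rw [Finset.mem_Icc]
        refine ⟨?_, by omega⟩
        rw [Nat.one_le_iff_ne_zero]
        intro h0
        rw [Finset.card_eq_zero, Finset.sdiff_eq_empty_iff_subset] at h0
        have h2 : U ∪ W = U := Finset.union_eq_left.2 h0
        rw [h2] at hbig
        omega
      · rw [relMinsAt, Finset.mem_filter]
        exact ⟨hW, hWmin, by omega, Finset.inter_subset_left⟩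
    · left
      push Not at hbig
      have hUW : U ∪ W ∈ nxt F U := closed_up hK hη hcl hW Finset.subset_union_right hbig
      obtain ⟨S, hS, hUS, hSUW, hSmin⟩ := exists_relMin hUW Finset.subset_union_left
      have hSZ : S ⊆ Z := hSUW.trans (Finset.union_subset hUZ hWZ)
      have hSc : S.card ≤ c := mem_smalls.1 (hsm hS)
      have hlt : U.card < S.card := by
        apply Finset.card_lt_card
        rw [Finset.ssubset_iff_subset_ne]
        refine ⟨hUS, ?_⟩
        rintro rfl
        exact not_mem_nxt _ hS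
      refine ⟨S.card - U.card, ?_, S, ?_, by omega, hSZ, ρ :: rs,
        List.Forall₂.cons hρ hrs, ?_⟩
      · rw [Finset.mem_Icc]; omega
      · rw [relMinsAt, Finset.mem_filter]
        exact ⟨hS, hSmin, by omega, hUS⟩
      · rintro ⟨T, hST, hTZ, hTc, hT⟩
        exact hno ⟨T, hUS.trans hST, hTZ, hTc, hT⟩

/-- A spread random set which covers members of some chains of closed families contains, with high
probability, one small set lying in all of these members. -/
theorem Ev_rbad_le (hK : Sys K w) (hη : 0 < η) (hη1 : η ≤ 1) {c : ℕ} {B : ℝ} (hB1 : 1 ≤ B)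
    (hcov : Covers N K η c B)
    (v : Ω → Finset V) {ρ y g Q : ℝ} (hρ0 : 0 ≤ ρ) (hρ1 : ρ ≤ 1) (hy : 0 ≤ y)
    (hsp : Spread v (2 * c) (ρ * y)) (hg : g = ∑ δ ∈ Finset.Icc 1 c, (2 * B * y) ^ δ)
    (hQ : Q * (1 - g) = 1) (hQ1 : 1 ≤ Q)
    (l : List (ℝ → Finset (Finset V))) (hl : ∀ F ∈ l, Chain N K η c F) :
    ∀ U : Finset V, U.card ≤ c → Ev v (fun Z => ind (RBad c l U Z)) ≤
      ρ ^ c * (2 * y) ^ U.card * (Q ^ l.length - 1) := by
  have hB0 : 0 ≤ B := by linarith
  have hg0 : 0 ≤ g := by
    rw [hg]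
    exact Finset.sum_nonneg fun δ _ => by positivity
  induction l with
  | nil =>
    intro U hU
    have h1 : (fun Z : Finset V => ind (RBad c [] U Z)) = fun _ => (0 : ℝ) * 1 := by
      funext Z
      rw [ind_not (not_rbad_nil hU)]; ring
    rw [h1, Ev_const_mul]
    simp
  | cons F l ih =>
    have hF := hl F (by simp)
    have hl' : ∀ F ∈ l, Chain N K η c F := fun F' h => hl F' (by simp [h])
    have ih' := ih hl'
    set A : ℝ := Q ^ l.length - 1 with hA
    set A' : ℝ := Q ^ (F :: l).length - 1 with hA'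
    have hA0 : 0 ≤ A := by
      have : (1 : ℝ) ≤ Q ^ l.length := one_le_pow₀ hQ1
      linarith
    have hA0' : 0 ≤ A' := by
      have : (1 : ℝ) ≤ Q ^ (F :: l).length := one_le_pow₀ hQ1
      linarith
    have hAA' : A' = A + (g * A' + g) := by
      rw [hA', hA, List.length_cons, pow_succ]
      linear_combination (Q ^ l.length) * hQ
    intro U hU
    induction hn : c - U.card using Nat.strong_induction_on generalizing U with
    | _ n ihU =>
    have hρc : 0 ≤ ρ ^ c := by positivity
    have h2y : 0 ≤ (2 * y) ^ U.card := by positivity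
    have hpt : ∀ Z : Finset V, ind (RBad c (F :: l) U Z) ≤ ind (RBad c l U Z) +
        ((∑ δ ∈ Finset.Icc 1 c, ∑ S ∈ relMinsAt (nxt F U) U (U.card + δ) U,
          ind (U.card + δ ≤ c ∧ RBad c (F :: l) S Z)) +
        ∑ J ∈ U.powerset, ∑ δ ∈ Finset.Icc 1 c, ∑ W ∈ relMinsAt (nxt F U) ∅ (J.card + δ) J,
          ind (c < U.card + δ ∧ J.card + δ ≤ c ∧ (U ∪ W).card = U.card + δ ∧ U ∪ W ⊆ Z)) := by
      intro Z
      refine (ind_mono (rbad_cons hK hη hη1 hF hU)).trans ?_
      refine (ind_or_le _ _).trans ?_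
      refine add_le_add (le_refl _) ?_
      refine (ind_or_le _ _).trans ?_
      refine add_le_add ?_ ?_
      · refine (ind_exists_le' _ _).trans (Finset.sum_le_sum fun δ _ => ?_)
        exact ind_exists_le' _ _
      · refine (ind_exists_le' _ _).trans (Finset.sum_le_sum fun J _ => ?_)
        refine (ind_exists_le' _ _).trans (Finset.sum_le_sum fun δ _ => ?_)
        exact ind_exists_le' _ _
    refine (Ev_mono v hpt).trans ?_
    rw [Ev_add, Ev_add, Ev_sum, Ev_sum]
    -- the small sets
    have hsmall : ∑ δ ∈ Finset.Icc 1 c, Ev v (fun Z => ∑ S ∈ relMinsAt (nxt F U) U (U.card + δ) U,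
          ind (U.card + δ ≤ c ∧ RBad c (F :: l) S Z)) ≤ ρ ^ c * (2 * y) ^ U.card * (g * A') := by
      have h1 : ∀ δ ∈ Finset.Icc 1 c, Ev v (fun Z => ∑ S ∈ relMinsAt (nxt F U) U (U.card + δ) U,
          ind (U.card + δ ≤ c ∧ RBad c (F :: l) S Z)) ≤
            (ρ ^ c * (2 * y) ^ U.card * A') * (2 * B * y) ^ δ := by
        intro δ hδ1
        rw [Finset.mem_Icc] at hδ1
        rw [Ev_sum]
        by_cases hδ : U.card + δ ≤ c
        · have h2 : ∀ S ∈ relMinsAt (nxt F U) U (U.card + δ) U,
              Ev v (fun Z => ind (U.card + δ ≤ c ∧ RBad c (F :: l) S Z)) ≤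
                ρ ^ c * (2 * y) ^ (U.card + δ) * A' := by
            intro S hS
            have hSc : S.card = U.card + δ := by
              rw [relMinsAt, Finset.mem_filter] at hS
              exact hS.2.2.1
            have h3 := ihU (c - S.card) (by omega) S (by omega) rfl
            rw [hSc] at h3
            refine le_trans (Ev_mono v fun Z => ind_mono ?_) h3
            exact fun h => h.2
          refine (Finset.sum_le_sum h2).trans ?_
          rw [Finset.sum_const, nsmul_eq_mul]
          have h3 := card_relMinsAt_le hB1 hcov (nxt_closed hη1 hF U) hδ U U (le_refl _)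
          rw [Nat.add_sub_cancel_left] at h3
          have h4 : 0 ≤ ρ ^ c * (2 * y) ^ (U.card + δ) * A' := by positivity
          refine (mul_le_mul_of_nonneg_right h3 h4).trans (le_of_eq ?_)
          rw [pow_add, mul_pow (2 * B) y, mul_pow 2 B, mul_pow 2 y δ]
          ring
        · have h2 : ∀ S ∈ relMinsAt (nxt F U) U (U.card + δ) U,
              Ev v (fun Z => ind (U.card + δ ≤ c ∧ RBad c (F :: l) S Z)) = 0 := by
            intro S _
            have h3 : (fun Z : Finset V => ind (U.card + δ ≤ c ∧ RBad c (F :: l) S Z))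
                = fun _ => (0 : ℝ) * 1 := by
              funext Z
              rw [ind_not (fun h => hδ h.1)]; ring
            rw [h3, Ev_const_mul, zero_mul]
          rw [Finset.sum_eq_zero h2]
          positivity
      refine (Finset.sum_le_sum h1).trans (le_of_eq ?_)
      rw [← Finset.mul_sum, ← hg]
      ring
    -- the large sets
    have hlarge : ∑ J ∈ U.powerset, Ev v (fun Z => ∑ δ ∈ Finset.Icc 1 c,
          ∑ W ∈ relMinsAt (nxt F U) ∅ (J.card + δ) J,
          ind (c < U.card + δ ∧ J.card + δ ≤ c ∧ (U ∪ W).card = U.card + δ ∧ U ∪ W ⊆ Z)) ≤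
            ρ ^ c * (2 * y) ^ U.card * g := by
      have h1 : ∀ J ∈ U.powerset, Ev v (fun Z => ∑ δ ∈ Finset.Icc 1 c,
          ∑ W ∈ relMinsAt (nxt F U) ∅ (J.card + δ) J,
          ind (c < U.card + δ ∧ J.card + δ ≤ c ∧ (U ∪ W).card = U.card + δ ∧ U ∪ W ⊆ Z)) ≤
            ρ ^ c * y ^ U.card * g := by
        intro J _
        rw [Ev_sum, hg, Finset.mul_sum]
        refine Finset.sum_le_sum fun δ hδ => ?_
        rw [Finset.mem_Icc] at hδ
        rw [Ev_sum]
        by_cases hcond : c < U.card + δ ∧ J.card + δ ≤ c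
        · have h2 : ∀ W ∈ relMinsAt (nxt F U) ∅ (J.card + δ) J, Ev v (fun Z => ind (c < U.card + δ ∧
              J.card + δ ≤ c ∧ (U ∪ W).card = U.card + δ ∧ U ∪ W ⊆ Z)) ≤
                ρ ^ c * (y ^ U.card * y ^ δ) := by
            intro W _
            by_cases hW : (U ∪ W).card = U.card + δ
            · have h3 := hsp (U ∪ W) (by omega)
              rw [hW] at h3
              have h4 : Ev v (fun Z => ind (c < U.card + δ ∧
                  J.card + δ ≤ c ∧ (U ∪ W).card = U.card + δ ∧ U ∪ W ⊆ Z)) ≤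
                    Ev v (fun Z => ind (U ∪ W ⊆ Z)) :=
                Ev_mono v fun Z => ind_mono fun h => h.2.2.2
              refine h4.trans (h3.trans ?_)
              rw [mul_pow, ← pow_add y]
              apply mul_le_mul_of_nonneg_right _ (by positivity)
              exact pow_le_pow_of_le_one hρ0 hρ1 (by omega)
            · have h3 : (fun Z : Finset V => ind (c < U.card + δ ∧
                  J.card + δ ≤ c ∧ (U ∪ W).card = U.card + δ ∧ U ∪ W ⊆ Z))
                  = fun _ => (0 : ℝ) * 1 := by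
                funext Z
                rw [ind_not (fun h => hW h.2.2.1)]; ring
              rw [h3, Ev_const_mul, zero_mul]
              positivity
          refine (Finset.sum_le_sum h2).trans ?_
          rw [Finset.sum_const, nsmul_eq_mul]
          have h3 := card_relMinsAt_le hB1 hcov (nxt_closed hη1 hF U) hcond.2 ∅ J
            (Finset.empty_subset _)
          rw [Nat.add_sub_cancel_left] at h3
          have h4 : 0 ≤ ρ ^ c * (y ^ U.card * y ^ δ) := by positivity
          refine (mul_le_mul_of_nonneg_right h3 h4).trans ?_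
          have h5 : B ^ δ * (ρ ^ c * (y ^ U.card * y ^ δ)) = ρ ^ c * y ^ U.card * (B * y) ^ δ := by
            rw [mul_pow]; ring
          rw [h5]
          apply mul_le_mul_of_nonneg_left _ (by positivity)
          apply pow_le_pow_left₀ (by positivity)
          nlinarith [mul_nonneg hB0 hy]
        · have h2 : ∀ W ∈ relMinsAt (nxt F U) ∅ (J.card + δ) J, Ev v (fun Z => ind (c < U.card + δ ∧
              J.card + δ ≤ c ∧ (U ∪ W).card = U.card + δ ∧ U ∪ W ⊆ Z)) = 0 := by
            intro W _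
            have h3 : (fun Z : Finset V => ind (c < U.card + δ ∧
                  J.card + δ ≤ c ∧ (U ∪ W).card = U.card + δ ∧ U ∪ W ⊆ Z))
                  = fun _ => (0 : ℝ) * 1 := by
                funext Z
                rw [ind_not (fun h => hcond ⟨h.1, h.2.1⟩)]; ring
            rw [h3, Ev_const_mul, zero_mul]
          rw [Finset.sum_eq_zero h2]
          positivity
      refine (Finset.sum_le_sum h1).trans (le_of_eq ?_)
      rw [Finset.sum_const, Finset.card_powerset, nsmul_eq_mul, mul_pow]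
      push_cast
      ring
    have h0 := ih' U hU
    have hfin : ρ ^ c * (2 * y) ^ U.card * A' =
        ρ ^ c * (2 * y) ^ U.card * A + (ρ ^ c * (2 * y) ^ U.card * (g * A') +
          ρ ^ c * (2 * y) ^ U.card * g) := by
      linear_combination (ρ ^ c * (2 * y) ^ U.card) * hAA'
    rw [hfin]
    exact add_le_add h0 (add_le_add hsmall hlarge)

theorem Ev_rbad_small (hK : Sys K w) (hη : 0 < η) (hη1 : η ≤ 1) {c : ℕ} {B : ℝ} (hB1 : 1 ≤ B)
    (hcov : Covers N K η c B) (v : Ω → Finset V) {κ : ℝ} (hκ : 0 ≤ κ) (hsp : Spread v (2 * c) κ)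
    {m : ℕ} (hm1 : 1 ≤ m) (hm : 8 * (B * m * κ) ≤ 1)
    (l : List (ℝ → Finset (Finset V))) (hl : ∀ F ∈ l, Chain N K η c F)
    (hlm : l.length ≤ m) : Ev v (fun Z => ind (RBad c l ∅ Z)) ≤ (8 * (B * m * κ)) ^ c := by
  have hB0 : 0 < B := by linarith
  have hm0 : (1 : ℝ) ≤ m := by exact_mod_cast hm1
  have hBm : (1 : ℝ) ≤ B * m := by nlinarith
  obtain ⟨y, hy⟩ : ∃ y : ℝ, y = 1 / (8 * (B * m)) := ⟨_, rfl⟩
  have hy0 : 0 < y := by rw [hy]; positivity
  have hyB : 8 * (B * m) * y = 1 := by rw [hy]; field_simp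
  have hsp' : Spread v (2 * c) (8 * (B * m * κ) * y) := by
    have : 8 * (B * m * κ) * y = κ := by
      calc 8 * (B * m * κ) * y = (8 * (B * m) * y) * κ := by ring
        _ = κ := by rw [hyB, one_mul]
    rw [this]; exact hsp
  have hBy : 8 * (B * y * m) = 1 := by linarith
  have hBy0 : 0 < B * y := by positivity
  have hBy1 : 8 * (B * y) ≤ 1 := by nlinarith
  set g := ∑ δ ∈ Finset.Icc 1 c, (2 * B * y) ^ δ with hg
  have hg1 : g ≤ 4 * (B * y) := by
    have h1 := T9h35.Wide.geom_Icc (z := 2 * B * y) (by positivity) (by linarith) c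
    rw [← hg] at h1
    linarith
  have hg0 : 0 ≤ g := Finset.sum_nonneg fun δ _ => by positivity
  have hghalf : g ≤ 1 / 2 := by linarith
  have h1g : 0 < 1 - g := by linarith
  have hQ : (1 - g)⁻¹ * (1 - g) = 1 := inv_mul_cancel₀ h1g.ne'
  have hQ1 : 1 ≤ (1 - g)⁻¹ := by
    rw [one_le_inv₀ h1g]; linarith
  have h1 := Ev_rbad_le hK hη hη1 hB1 hcov v (ρ := 8 * (B * m * κ)) (y := y) (by positivity) hm
    hy0.le hsp' hg hQ hQ1 l hl ∅ (by simp)
  refine h1.trans ?_
  rw [Finset.card_empty, pow_zero, mul_one]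
  have h2 : ((1 - g)⁻¹) ^ l.length ≤ 2 := by
    have h3 : ((1 - g)⁻¹) ^ l.length ≤ ((1 - g)⁻¹) ^ m := pow_le_pow_right₀ hQ1 hlm
    refine h3.trans ?_
    rw [inv_pow]
    have h4 : 1 - m * g ≤ (1 - g) ^ m := by
      have h5 := one_add_mul_le_pow (a := -g) (by linarith) m
      have h6 : (1 : ℝ) + -g = 1 - g := by ring
      rw [h6] at h5
      linarith
    have h5 : m * g ≤ 1 / 2 := by
      have h6 : (m : ℝ) * g ≤ m * (4 * (B * y)) := mul_le_mul_of_nonneg_left hg1 (by linarith)
      linarith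
    rw [inv_le_comm₀ (by positivity) (by norm_num)]
    have h6 : (2 : ℝ)⁻¹ = 1 / 2 := by norm_num
    rw [h6]
    linarith
  have h3 : (0 : ℝ) ≤ (8 * (B * m * κ)) ^ c := by positivity
  nlinarith

end Pool.Agent.T9h34.P
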