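import Pool.Agent.T9h34.P.Bern

/-!
# Random labels: the elements with small labels
-/

set_option autoImplicit false
set_option linter.unusedSectionVars false

namespace Pool.Agent.T9h34.P

open Finset Pool.Agent.T9h34
open Pool.Agent.T9h34.G (NoiseOp)

variable {E : Type*} [Fintype E] [DecidableEq E] {L : ℕ}

/-- The elements with labels below `a`. -/
def below (lab : E → Fin L) (a : ℕ) : Finset E := univ.filter fun e => (lab e : ℕ) < a

theorem mem_below {lab : E → Fin L} {a : ℕ} {e : E} : e ∈ below lab a ↔ (lab e : ℕ) < a := by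
  simp [below]

theorem below_mono (lab : E → Fin L) {a b : ℕ} (h : a ≤ b) : below lab a ⊆ below lab b := by
  intro e he
  rw [mem_below] at he ⊢
  omega

theorem prod_ind {ι : Type*} [Fintype ι] (p : ι → Prop) : ∏ i, ind (p i) = ind (∀ i, p i) := by
  by_cases h : ∀ i, p i
  · rw [ind_of h]
    exact prod_eq_one fun i _ => ind_of (h i)
  · rw [ind_not h]
    push Not at h
    obtain ⟨i, hi⟩ := h
    exact prod_eq_zero (mem_univ i) (ind_not hi)

/-- Products over the elements factorise under the random set. -/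
theorem sum_bw_prod (γ : ℝ) (h : E → Prop → ℝ) :
    ∑ W : Finset E, bw γ W * ∏ e, h e (e ∈ W) =
      ∏ e, (γ * h e True + (1 - γ) * h e False) := by
  rw [Finset.prod_add, Finset.powerset_univ]
  apply sum_congr rfl
  intro W _
  unfold bw
  rw [prod_mul_distrib, prod_mul_distrib, prod_const, prod_const,
    card_sdiff_of_subset (subset_univ _), card_univ]
  have h1 : ∏ e, h e (e ∈ W) = (∏ e ∈ W, h e True) * ∏ e ∈ univ \ W, h e False := by
    rw [← Finset.prod_sdiff (subset_univ W), mul_comm]
    congr 1
    · apply prod_congr rfl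
      intro e he
      rw [eq_true he]
    · apply prod_congr rfl
      intro e he
      rw [mem_sdiff] at he
      rw [eq_false he.2]
  rw [h1]
  ring

/-- Products over the elements factorise under random labels. -/
theorem sum_lab_prod (g : E → Fin L → ℝ) :
    ∑ lab : E → Fin L, ∏ e, g e (lab e) = ∏ e, ∑ l, g e l := by
  rw [Finset.prod_univ_sum]
  apply sum_congr _ (fun _ _ => rfl)
  ext lab
  simp

theorem sum_label {a b : ℕ} (hab : a ≤ b) (hb : b ≤ L) (ha : a < L) (u v : Prop)
    {γ : ℝ} (hγ : γ * ((L : ℝ) - a) = (b : ℝ) - a) :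
    ∑ l : Fin L, ind (((l : ℕ) < a ↔ u) ∧ ((l : ℕ) < b ↔ v)) =
      (∑ l : Fin L, ind ((l : ℕ) < a ↔ u)) *
        (γ * ind ((u ∨ True) ↔ v) + (1 - γ) * ind ((u ∨ False) ↔ v)) := by
  have hcount : ∀ x : ℕ, x ≤ L → ∑ l : Fin L, ind ((l : ℕ) < x) = x := by
    intro x hx
    have h1 : ∀ l : Fin L, ind ((l : ℕ) < x) = if (l : ℕ) < x then (1 : ℝ) else 0 := by
      intro l
      by_cases h : (l : ℕ) < x
      · rw [ind_of h, if_pos h]
      · rw [ind_not h, if_neg h]
    simp only [h1]
    rw [Finset.sum_boole]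
    congr 1
    rw [Fin.card_filter_val_lt]
    exact min_eq_right hx
  have hall : ∑ _l : Fin L, (1 : ℝ) = L := by simp
  have hA := hcount a ha.le
  have hB := hcount b hb
  by_cases hu : u
  · have h1 : ∀ l : Fin L, ind ((l : ℕ) < a ↔ u) = ind ((l : ℕ) < a) := by
      intro l
      congr 1
      apply propext
      tauto
    have h2 : ∀ l : Fin L, ind (((l : ℕ) < a ↔ u) ∧ ((l : ℕ) < b ↔ v)) =
        ind ((l : ℕ) < a) * ind v := by
      intro l
      rw [← ind_and]
      congr 1
      apply propext
      constructor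
      · rintro ⟨h3, h4⟩
        have h5 := h3.2 hu
        exact ⟨h5, h4.1 (by omega)⟩
      · rintro ⟨h3, h4⟩
        exact ⟨⟨fun _ => hu, fun _ => h3⟩, ⟨fun _ => h4, fun _ => by omega⟩⟩
    simp only [h1, h2]
    rw [← sum_mul, hA]
    have h3 : ind ((u ∨ True) ↔ v) = ind v := by congr 1; apply propext; tauto
    have h4 : ind ((u ∨ False) ↔ v) = ind v := by congr 1; apply propext; tauto
    rw [h3, h4]
    ring
  · have h1 : ∀ l : Fin L, ind ((l : ℕ) < a ↔ u) = 1 + (-1) * ind ((l : ℕ) < a) := by
      intro l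
      by_cases h : (l : ℕ) < a
      · rw [ind_of h, ind_not (by tauto)]; ring
      · rw [ind_not h, ind_of (by tauto)]; ring
    have hsum1 : ∑ l : Fin L, ind ((l : ℕ) < a ↔ u) = (L : ℝ) - a := by
      simp only [h1]
      rw [sum_add_distrib, ← mul_sum, hA, hall]
      ring
    rw [hsum1]
    by_cases hv : v
    · have h2 : ∀ l : Fin L, ind (((l : ℕ) < a ↔ u) ∧ ((l : ℕ) < b ↔ v)) =
          ind ((l : ℕ) < b) + (-1) * ind ((l : ℕ) < a) := by
        intro l
        by_cases h : (l : ℕ) < a
        · rw [ind_of h, ind_of (show (l : ℕ) < b by omega), ind_not (by tauto)]; ring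
        · by_cases h' : (l : ℕ) < b
          · rw [ind_not h, ind_of h', ind_of (by tauto)]; ring
          · rw [ind_not h, ind_not h', ind_not (by tauto)]; ring
      simp only [h2]
      rw [sum_add_distrib, ← mul_sum, hA, hB, ind_of (show (u ∨ True) ↔ v by tauto),
        ind_not (show ¬ ((u ∨ False) ↔ v) by tauto)]
      linarith
    · have h2 : ∀ l : Fin L, ind (((l : ℕ) < a ↔ u) ∧ ((l : ℕ) < b ↔ v)) =
          1 + (-1) * ind ((l : ℕ) < b) := by
        intro l
        by_cases h' : (l : ℕ) < b
        · rw [ind_of h', ind_not (by tauto)]; ring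
        · have h : ¬ (l : ℕ) < a := by omega
          rw [ind_not h', ind_of (by tauto)]; ring
      simp only [h2]
      rw [sum_add_distrib, ← mul_sum, hB, hall, ind_not (show ¬ ((u ∨ True) ↔ v) by tauto),
        ind_of (show (u ∨ False) ↔ v by tauto)]
      linarith

/-- Given the elements with labels below `a`, the further elements with labels below `b` form
a random set. -/
theorem sum_labels {a b : ℕ} (hab : a ≤ b) (hb : b ≤ L) (ha : a < L)
    {γ : ℝ} (hγ : γ * ((L : ℝ) - a) = (b : ℝ) - a) (F : Finset E → Finset E → ℝ) :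
    ∑ lab : E → Fin L, F (below lab a) (below lab b) =
      ∑ lab : E → Fin L, ∑ W : Finset E, bw γ W * F (below lab a) (below lab a ∪ W) := by
  have key : ∀ U Z : Finset E,
      ∑ lab : E → Fin L, ind (below lab a = U ∧ below lab b = Z) =
      ∑ lab : E → Fin L, ∑ W : Finset E, bw γ W *
        ind (below lab a = U ∧ below lab a ∪ W = Z) := by
    intro U Z
    have h1 : ∀ lab : E → Fin L, ind (below lab a = U ∧ below lab b = Z) =
        ∏ e, ind ((((lab e : ℕ) < a) ↔ e ∈ U) ∧ (((lab e : ℕ) < b) ↔ e ∈ Z)) := by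
      intro lab
      rw [prod_ind]
      congr 1
      apply propext
      rw [Finset.ext_iff, Finset.ext_iff]
      simp only [mem_below]
      exact ⟨fun h e => ⟨h.1 e, h.2 e⟩, fun h => ⟨fun e => (h e).1, fun e => (h e).2⟩⟩
    have h2 : ∀ lab : E → Fin L, ∑ W : Finset E, bw γ W *
        ind (below lab a = U ∧ below lab a ∪ W = Z) =
        ind (below lab a = U) * ∏ e, (γ * ind ((e ∈ U ∨ True) ↔ e ∈ Z) +
          (1 - γ) * ind ((e ∈ U ∨ False) ↔ e ∈ Z)) := by
      intro lab
      have h3 := sum_bw_prod (E := E) γ (fun e q => ind ((e ∈ U ∨ q) ↔ e ∈ Z))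
      rw [← h3, mul_sum]
      apply sum_congr rfl
      intro W _
      by_cases hU : below lab a = U
      · rw [ind_of hU, one_mul, prod_ind, hU]
        congr 2
        apply propext
        constructor
        · rintro ⟨_, h⟩ e
          rw [← h, mem_union]
        · intro h
          refine ⟨rfl, ?_⟩
          ext e
          rw [mem_union]
          exact h e
      · rw [ind_not hU, zero_mul, ind_not (fun h => hU h.1), mul_zero]
    simp only [h1, h2]
    rw [← sum_mul]
    have h4 : ∀ lab : E → Fin L, ind (below lab a = U) =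
        ∏ e, ind (((lab e : ℕ) < a) ↔ e ∈ U) := by
      intro lab
      rw [prod_ind]
      congr 1
      apply propext
      rw [Finset.ext_iff]
      simp only [mem_below]
    simp only [h4]
    rw [sum_lab_prod (fun e l => ind ((((l : Fin L) : ℕ) < a ↔ e ∈ U) ∧ ((l : ℕ) < b ↔ e ∈ Z))),
      sum_lab_prod (fun e l => ind (((l : Fin L) : ℕ) < a ↔ e ∈ U)), ← prod_mul_distrib]
    apply prod_congr rfl
    intro e _
    exact sum_label hab hb ha (e ∈ U) (e ∈ Z) hγ
  have hexp : ∀ U Z : Finset E, F U Z = ∑ q : Finset E × Finset E,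
      F q.1 q.2 * ind (U = q.1 ∧ Z = q.2) := by
    intro U Z
    rw [Finset.sum_eq_single (U, Z)]
    · rw [ind_of ⟨rfl, rfl⟩, mul_one]
    · intro q _ hq
      rw [ind_not, mul_zero]
      rintro ⟨h2, h3⟩
      exact hq (Prod.ext h2.symm h3.symm)
    · intro h
      exact absurd (mem_univ _) h
  have hL : ∑ lab : E → Fin L, F (below lab a) (below lab b) =
      ∑ q : Finset E × Finset E, F q.1 q.2 *
        ∑ lab : E → Fin L, ind (below lab a = q.1 ∧ below lab b = q.2) := by
    rw [sum_congr rfl fun lab _ => hexp (below lab a) (below lab b), sum_comm]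
    apply sum_congr rfl
    intro q _
    rw [mul_sum]
  have hR : ∑ lab : E → Fin L, ∑ W : Finset E, bw γ W * F (below lab a) (below lab a ∪ W) =
      ∑ q : Finset E × Finset E, F q.1 q.2 *
        ∑ lab : E → Fin L, ∑ W : Finset E, bw γ W *
          ind (below lab a = q.1 ∧ below lab a ∪ W = q.2) := by
    have h1 : ∀ lab : E → Fin L, ∑ W : Finset E, bw γ W * F (below lab a) (below lab a ∪ W) =
        ∑ q : Finset E × Finset E, F q.1 q.2 * ∑ W : Finset E, bw γ W *
          ind (below lab a = q.1 ∧ below lab a ∪ W = q.2) := by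
      intro lab
      have h2 : ∀ W : Finset E, bw γ W * F (below lab a) (below lab a ∪ W) =
          ∑ q : Finset E × Finset E, F q.1 q.2 * (bw γ W *
            ind (below lab a = q.1 ∧ below lab a ∪ W = q.2)) := by
        intro W
        rw [hexp (below lab a) (below lab a ∪ W), mul_sum]
        apply sum_congr rfl
        intro q _
        ring
      rw [sum_congr rfl fun W _ => h2 W, sum_comm]
      apply sum_congr rfl
      intro q _
      rw [mul_sum]
    rw [sum_congr rfl fun lab _ => h1 lab, sum_comm]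
    apply sum_congr rfl
    intro q _
    rw [mul_sum]
  rw [hL, hR]
  apply sum_congr rfl
  intro q _
  rw [key]

end Pool.Agent.T9h34.P
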