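import Pool.Agent.T9h34.P.Step
import Pool.Agent.T9h34.Params

/-!
# Planted cliques: the choice of the parameters
-/

set_option autoImplicit false

namespace Pool.Agent.T9h34.P

open Finset Pool.Agent.T9h34

theorem card_sym2_le (n : ℕ) : Fintype.card (Sym2 (Fin n)) ≤ n * n := by
  have h : Function.Surjective (fun p : Fin n × Fin n => s(p.1, p.2)) := by
    intro e
    induction e using Sym2.ind with
    | _ a b => exact ⟨(a, b), rfl⟩
  have h1 := Fintype.card_le_of_surjective _ h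
  simpa using h1

/-- The size of the closed families and the number of colours. -/
theorem exists_cm {ε l u : ℝ} (h0 : 0 < ε) (h1 : ε ≤ 1) (hl1 : 1 ≤ l) (hlu : l ≤ u) :
    ∃ c m : ℕ, 2 ≤ c ∧ 0 < m ∧ 4 * u + 2 * (ε * l) ≤ c * (ε * l) ∧ c * (ε * l) ≤ 8 * u ∧
      c * ε ≤ 8 * u ∧ m * ε ≤ 77 * u ∧ 2 * (u + (4 * c + 5) * l) ≤ m := by
  have hεl : 0 < ε * l := by positivity
  have hu1 : 1 ≤ u := hl1.trans hlu
  obtain ⟨x, hx⟩ : ∃ x, x = 4 * u / (ε * l) := ⟨_, rfl⟩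
  have hxm : x * (ε * l) = 4 * u := by rw [hx]; field_simp
  have hεu : ε * l ≤ u := by nlinarith
  have hx4 : 4 ≤ x := by
    rw [hx, le_div_iff₀ hεl]
    linarith
  obtain ⟨c, hc⟩ : ∃ c : ℕ, c = ⌈x⌉₊ + 2 := ⟨_, rfl⟩
  have hclo : x + 2 ≤ c := by
    have := Nat.le_ceil x
    rw [hc]
    push_cast
    linarith
  have hchi : (c : ℝ) ≤ 2 * x := by
    have := Nat.ceil_lt_add_one (by linarith : (0 : ℝ) ≤ x)
    rw [hc]
    push_cast
    linarith
  have hc0 : (0 : ℝ) < c := by linarith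
  have hcl : (c : ℝ) * (ε * l) ≤ 8 * u := by
    have := mul_le_mul_of_nonneg_right hchi hεl.le
    linarith
  have hcε : (c : ℝ) * ε ≤ 8 * u := by
    have h2 : (c : ℝ) * ε * 1 ≤ c * ε * l := mul_le_mul_of_nonneg_left hl1 (by positivity)
    linarith
  obtain ⟨y, hy⟩ : ∃ y, y = 2 * (u + (4 * c + 5) * l) := ⟨_, rfl⟩
  have hy0 : 0 < y := by rw [hy]; positivity
  obtain ⟨m, hm⟩ : ∃ m : ℕ, m = ⌈y⌉₊ := ⟨_, rfl⟩
  have hmlo : y ≤ m := by rw [hm]; exact Nat.le_ceil y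
  refine ⟨c, m, by omega, by rw [hm]; exact Nat.ceil_pos.2 hy0, ?_, hcl, hcε, ?_,
    by rw [← hy]; exact hmlo⟩
  · have := mul_le_mul_of_nonneg_right hclo hεl.le
    linarith
  · have h2 := Nat.ceil_lt_add_one hy0.le
    rw [← hm] at h2
    have h3 : (m : ℝ) * ε ≤ (y + 1) * ε := mul_le_mul_of_nonneg_right h2.le h0.le
    have h4 : (y + 1) * ε = 2 * (u * ε) + 8 * (c * (ε * l)) + 10 * (ε * l) + ε := by
      rw [hy]
      ring
    have h5 : u * ε ≤ u * 1 := mul_le_mul_of_nonneg_left h1 (by linarith)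
    linarith

theorem Q_pow {ε l u Q : ℝ} {c : ℕ} (h0 : 0 < ε) (hl0 : 0 < l) (hQ1 : 1 ≤ Q)
    (hcl : c * (ε * l) ≤ 8 * u) (hlQ : u * Real.log Q ≤ ε ^ 2 / 64 * l ^ 2) :
    Q ^ c ≤ Real.exp (ε * l / 8) := by
  obtain ⟨q, hq⟩ : ∃ q, q = Real.log Q := ⟨_, rfl⟩
  rw [← hq] at hlQ
  have hq0 : 0 ≤ q := by rw [hq]; exact Real.log_nonneg hQ1
  have hεl : 0 < ε * l := by positivity
  have h2 : Q ^ c = Real.exp (c * q) := by
    rw [hq, Real.exp_nat_mul, Real.exp_log (by linarith)]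
  rw [h2, Real.exp_le_exp]
  have h4 : (c : ℝ) * q * (ε * l) ≤ (ε * l / 8) * (ε * l) := by
    calc (c : ℝ) * q * (ε * l) = (c * (ε * l)) * q := by ring
      _ ≤ (8 * u) * q := mul_le_mul_of_nonneg_right hcl hq0
      _ = 8 * (u * q) := by ring
      _ ≤ 8 * (ε ^ 2 / 64 * l ^ 2) := by linarith
      _ = (ε * l / 8) * (ε * l) := by ring
  exact le_of_mul_le_mul_right h4 hεl

theorem B_bound {ε u P X Y : ℝ} {c m : ℕ} (h0 : 0 < ε) (hu0 : 0 < u) (hcε : c * ε ≤ 8 * u)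
    (hmε : m * ε ≤ 77 * u) (huP : u ≤ P) (hX0 : 0 ≤ X) (hXY : X ≤ Y) :
    4 * (c * (m * X)) * ε ^ 2 ≤ 2464 * P ^ 2 * Y := by
  have h2 : ((c : ℝ) * ε) * (m * ε) ≤ (8 * u) * (77 * u) :=
    mul_le_mul hcε hmε (by positivity) (by positivity)
  have h3 : u ^ 2 ≤ P ^ 2 := pow_le_pow_left₀ hu0.le huP 2
  have h4 : 4 * (((c : ℝ) * ε) * (m * ε)) ≤ 2464 * P ^ 2 := by nlinarith
  calc 4 * (c * (m * X)) * ε ^ 2 = (4 * (((c : ℝ) * ε) * (m * ε))) * X := by ring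
    _ ≤ (2464 * P ^ 2) * Y := mul_le_mul h4 hXY hX0 (by positivity)

theorem rho_bound {ε l P B F κ : ℝ} (h0 : 0 < ε) (h1 : ε ≤ 1) (hl0 : 0 < l)
    (hκ0 : 0 ≤ κ) (hF0 : 0 ≤ F) (hP : P = Real.exp (l * (ε ^ 2 / 64)))
    (hB : B * ε ^ 2 ≤ 2464 * P ^ 2 * Real.exp (ε * l / 8)) (hF : F ≤ 3 * P)
    (hκ : κ ≤ Real.exp (-(ε * l))) (hbig : 240000 / ε ^ 2 ≤ Real.exp (l * (ε / 4))) :
    8 * (B * F * κ) ≤ 1 / 4 * Real.exp (-(ε * l / 2)) := by
  have hP0 : 0 < P := by rw [hP]; exact Real.exp_pos _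
  have h2 : 8 * (B * F * κ) * ε ^ 2 ≤
      59136 * (P ^ 3 * (Real.exp (ε * l / 8) * Real.exp (-(ε * l)))) := by
    calc 8 * (B * F * κ) * ε ^ 2 = 8 * ((B * ε ^ 2) * (F * κ)) := by ring
      _ ≤ 8 * ((2464 * P ^ 2 * Real.exp (ε * l / 8)) * ((3 * P) * Real.exp (-(ε * l)))) := by
          apply mul_le_mul_of_nonneg_left _ (by norm_num)
          apply mul_le_mul hB _ (by positivity) (by positivity)
          exact mul_le_mul hF hκ hκ0 (by positivity)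
      _ = _ := by ring
  have h3 : P ^ 3 * (Real.exp (ε * l / 8) * Real.exp (-(ε * l))) ≤
      Real.exp (-(ε * l / 2)) * Real.exp (-(ε * l / 4)) := by
    have h4 : P ^ 3 = Real.exp (3 * (l * (ε ^ 2 / 64))) := by
      rw [hP, ← Real.exp_nat_mul]
      norm_num
    rw [h4, ← Real.exp_add, ← Real.exp_add, ← Real.exp_add, Real.exp_le_exp]
    have h5 : ε * (ε * l) ≤ 1 * (ε * l) := mul_le_mul_of_nonneg_right h1 (by positivity)
    have h6 : 3 * (l * (ε ^ 2 / 64)) = 3 / 64 * (ε * (ε * l)) := by ring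
    have h7 : 0 < ε * l := by positivity
    rw [h6]
    linarith
  have h5 : 240000 * Real.exp (-(ε * l / 4)) ≤ ε ^ 2 := by
    rw [div_le_iff₀ (by positivity)] at hbig
    have h6 : Real.exp (l * (ε / 4)) * Real.exp (-(ε * l / 4)) = 1 := by
      rw [← Real.exp_add]
      have : l * (ε / 4) + -(ε * l / 4) = 0 := by ring
      rw [this, Real.exp_zero]
    have h7 := mul_le_mul_of_nonneg_right hbig (Real.exp_pos (-(ε * l / 4))).le
    calc 240000 * Real.exp (-(ε * l / 4))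
        ≤ Real.exp (l * (ε / 4)) * ε ^ 2 * Real.exp (-(ε * l / 4)) := h7
      _ = (Real.exp (l * (ε / 4)) * Real.exp (-(ε * l / 4))) * ε ^ 2 := by ring
      _ = ε ^ 2 := by rw [h6, one_mul]
  have h7 := Real.exp_pos (-(ε * l / 2))
  have h8 := Real.exp_pos (-(ε * l / 4))
  have h6 : 8 * (B * F * κ) * ε ^ 2 ≤ 1 / 4 * Real.exp (-(ε * l / 2)) * ε ^ 2 := by
    calc 8 * (B * F * κ) * ε ^ 2
        ≤ 59136 * (P ^ 3 * (Real.exp (ε * l / 8) * Real.exp (-(ε * l)))) := h2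
      _ ≤ 59136 * (Real.exp (-(ε * l / 2)) * Real.exp (-(ε * l / 4))) :=
          mul_le_mul_of_nonneg_left h3 (by norm_num)
      _ = Real.exp (-(ε * l / 2)) * (59136 * Real.exp (-(ε * l / 4))) := by ring
      _ ≤ Real.exp (-(ε * l / 2)) * (1 / 4 * ε ^ 2) := by
          apply mul_le_mul_of_nonneg_left _ h7.le
          linarith
      _ = _ := by ring
  exact le_of_mul_le_mul_right h6 (by positivity)

theorem err_one {ε l u ρ S : ℝ} {c : ℕ} (hc : 2 ≤ c) (hu0 : 0 ≤ u) (hεl : 0 ≤ ε * l)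
    (hρ0 : 0 ≤ ρ)
    (hρ : ρ ≤ 1 / 4 * Real.exp (-(ε * l / 2))) (hS : S ≤ 2 * Real.exp u)
    (hclo : 4 * u + 2 * (ε * l) ≤ c * (ε * l)) :
    S * ρ ^ c ≤ 1 / 8 * Real.exp (-(ε * l / 2)) := by
  have h2 : ρ ^ c ≤ (1 / 4 : ℝ) ^ c * Real.exp (-(ε * l / 2)) ^ c := by
    rw [← mul_pow]
    exact pow_le_pow_left₀ hρ0 hρ c
  have h3 : Real.exp (-(ε * l / 2)) ^ c ≤ Real.exp (-(2 * u) - ε * l) := by
    rw [← Real.exp_nat_mul, Real.exp_le_exp]
    have h4 : (c : ℝ) * -(ε * l / 2) = -(c * (ε * l)) / 2 := by ring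
    rw [h4]
    linarith
  have h4 : (1 / 4 : ℝ) ^ c ≤ (1 / 4 : ℝ) ^ 2 :=
    pow_le_pow_of_le_one (by norm_num) (by norm_num) hc
  calc S * ρ ^ c
      ≤ (2 * Real.exp u) * ((1 / 4 : ℝ) ^ 2 * Real.exp (-(2 * u) - ε * l)) := by
        apply mul_le_mul hS _ (by positivity) (by positivity)
        exact h2.trans (mul_le_mul h4 h3 (by positivity) (by positivity))
    _ = 1 / 8 * (Real.exp u * Real.exp (-(2 * u) - ε * l)) := by ring
    _ = 1 / 8 * Real.exp (-u - ε * l) := by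
        rw [← Real.exp_add]
        congr 2
        ring
    _ ≤ 1 / 8 * Real.exp (-(ε * l / 2)) := by
        apply mul_le_mul_of_nonneg_left _ (by norm_num)
        rw [Real.exp_le_exp]
        linarith

theorem err_three {n c m : ℕ} {ε l u S : ℝ} (hn16 : 16 ≤ n) (h0 : 0 < ε) (h1 : ε ≤ 1)
    (hl1 : 1 ≤ l) (hu0 : 0 ≤ u) (hexpl : Real.exp l = n)
    (hS : S + Fintype.card (Sym2 (Fin n)) ≤ 3 * Real.exp (u + 2 * l)) (hS0 : 0 ≤ S)
    (hm : 2 * (u + (4 * c + 5) * l) ≤ m) :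
    (S + Fintype.card (Sym2 (Fin n))) * del (Fin n) ((1 / 2 : ℝ) ^ m) c ≤
      1 / 4 * Real.exp (-(ε * l / 2)) := by
  have hn16' : (16 : ℝ) ≤ n := by exact_mod_cast hn16
  obtain ⟨σ, hσ⟩ : ∃ σ : ℝ, σ = ((smalls (X := Fin n) c).card : ℝ) := ⟨_, rfl⟩
  have hσ0 : 0 ≤ σ := by rw [hσ]; positivity
  have hσhi : σ ≤ Real.exp (2 * c * l) := by
    have h2 := card_smalls_le (X := Fin n) c
    rw [Fintype.card_fin] at h2
    have h3 : σ ≤ ((n : ℝ) + 1) ^ c := by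
      rw [hσ]
      exact_mod_cast h2
    refine h3.trans ?_
    have h4 : ((n : ℝ) + 1) ≤ Real.exp (2 * l) := by
      have h5 : Real.exp (2 * l) = n * n := by
        rw [two_mul, Real.exp_add, hexpl]
      rw [h5]
      nlinarith
    have h6 : Real.exp (2 * c * l) = Real.exp (2 * l) ^ c := by
      rw [← Real.exp_nat_mul]
      congr 1
      ring
    rw [h6]
    exact pow_le_pow_left₀ (by linarith) h4 c
  have hη : (1 / 2 : ℝ) ^ m ≤ Real.exp (-(u + (4 * c + 5) * l)) := by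
    have h2 : (1 / 2 : ℝ) ^ m = Real.exp (-(m * Real.log 2)) := by
      have h3 : (1 / 2 : ℝ) = Real.exp (-Real.log 2) := by
        rw [Real.exp_neg, Real.exp_log (by norm_num)]
        norm_num
      rw [h3, ← Real.exp_nat_mul]
      congr 1
      ring
    rw [h2, Real.exp_le_exp]
    have h3 := Real.log_two_gt_d9
    have h4 : (m : ℝ) * (1 / 2) ≤ m * Real.log 2 :=
      mul_le_mul_of_nonneg_left (by linarith) (Nat.cast_nonneg m)
    linarith
  have hexp2 : (1 : ℝ) ≤ Real.exp (2 * c * l) := Real.one_le_exp (by positivity)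
  unfold del
  rw [← hσ]
  calc (S + Fintype.card (Sym2 (Fin n))) * ((σ + 1) * (σ * (1 / 2 : ℝ) ^ m))
      ≤ (3 * Real.exp (u + 2 * l)) * ((2 * Real.exp (2 * c * l)) * (Real.exp (2 * c * l) *
          Real.exp (-(u + (4 * c + 5) * l)))) := by
        apply mul_le_mul hS _ (by positivity) (by positivity)
        apply mul_le_mul (by linarith) _ (by positivity) (by positivity)
        exact mul_le_mul hσhi hη (by positivity) (by positivity)
    _ = 6 * (Real.exp (u + 2 * l) * (Real.exp (2 * c * l) * (Real.exp (2 * c * l) *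
          Real.exp (-(u + (4 * c + 5) * l))))) := by ring
    _ = 6 * Real.exp (-(3 * l)) := by
        rw [← Real.exp_add, ← Real.exp_add, ← Real.exp_add]
        congr 2
        ring
    _ ≤ 1 / 4 * Real.exp (-(ε * l / 2)) := by
        have h2 : Real.exp (-(3 * l)) = Real.exp (-l) * Real.exp (-l) * Real.exp (-l) := by
          rw [← Real.exp_add, ← Real.exp_add]
          congr 1
          ring
        have h3 : Real.exp (-l) ≤ 1 / 16 := by
          rw [Real.exp_neg, hexpl, inv_eq_one_div]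
          exact one_div_le_one_div_of_le (by norm_num) hn16'
        have h4 : Real.exp (-l) ≤ Real.exp (-(ε * l / 2)) := by
          rw [Real.exp_le_exp]
          nlinarith
        have h5 := Real.exp_pos (-l)
        rw [h2]
        have h6 : Real.exp (-l) * Real.exp (-l) ≤ 1 / 16 * (1 / 16) :=
          mul_le_mul h3 h3 h5.le (by norm_num)
        have h7 : Real.exp (-l) * Real.exp (-l) * Real.exp (-l) ≤ 1 / 16 * (1 / 16) *
            Real.exp (-(ε * l / 2)) := mul_le_mul h6 h4 h5.le (by norm_num)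
        have h8 := Real.exp_pos (-(ε * l / 2))
        linarith

theorem params {ε : ℝ} (h0 : 0 < ε) (h1 : ε ≤ 1) : ∃ n₀ : ℕ, ∀ (n k f s : ℕ) (Q : ℝ), n₀ ≤ n →
    1 ≤ Q → (k : ℝ) ≤ (n : ℝ) ^ (1 - ε) → n ≤ s → (f : ℝ) ≤ (n : ℝ) ^ (ε ^ 2 / 64) →
    Real.log s ≤ (n : ℝ) ^ (ε ^ 2 / 64) →
    Real.log s * Real.log Q ≤ ε ^ 2 / 64 * Real.log n ^ 2 →
    16 ≤ n ∧ ∃ (c m : ℕ) (B η : ℝ), 2 ≤ c ∧ 0 < m ∧ 4 * (c * (m * Q ^ c)) ≤ B ∧ 1 ≤ B ∧
      8 * (B * ((f + 2 : ℕ) : ℝ) * ((k : ℝ) / n)) ≤ 1 ∧ η ≤ 1 ∧ (1 / 4 : ℝ) ^ m < η ∧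
      perr n c (f + 2) (s + 1) B ((k : ℝ) / n) η ≤ (n : ℝ) ^ (-(ε / 2)) := by
  obtain ⟨n₁, hn₁⟩ : ∃ n₁ : ℕ, ∀ n ≥ n₁, 240000 / ε ^ 2 ≤ (n : ℝ) ^ (ε / 4) := by
    have h := ((tendsto_rpow_atTop (by positivity : 0 < ε / 4)).comp
      tendsto_natCast_atTop_atTop).eventually_ge_atTop (240000 / ε ^ 2)
    rw [Filter.eventually_atTop] at h
    exact h
  refine ⟨max n₁ 16, ?_⟩
  intro n k f s Q hn hQ1 hk hns hf hlog hlQ
  have hn16 : 16 ≤ n := le_trans (le_max_right _ _) hn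
  refine ⟨hn16, ?_⟩
  have hbig := hn₁ n (le_trans (le_max_left _ _) hn)
  have hn0 : (0 : ℝ) < n := by
    have : 0 < n := by omega
    exact_mod_cast this
  have hn16' : (16 : ℝ) ≤ n := by exact_mod_cast hn16
  have hs1 : (1 : ℝ) ≤ s := by
    have : 1 ≤ s := by omega
    exact_mod_cast this
  obtain ⟨l, hl⟩ : ∃ l, l = Real.log n := ⟨_, rfl⟩
  obtain ⟨u, hu⟩ : ∃ u, u = Real.log s := ⟨_, rfl⟩
  have hexpl : Real.exp l = n := by rw [hl, Real.exp_log hn0]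
  have hexpu : Real.exp u = s := by rw [hu, Real.exp_log (by linarith)]
  have hpow : ∀ y : ℝ, (n : ℝ) ^ y = Real.exp (l * y) := by
    intro y
    rw [Real.rpow_def_of_pos hn0, ← hl]
  rw [← hu, ← hl] at hlQ
  rw [← hu] at hlog
  rw [hpow] at hk hf hlog hbig
  rw [hpow]
  have hl1 : 1 ≤ l := by
    rw [hl, Real.le_log_iff_exp_le hn0]
    have := Real.exp_one_lt_d9
    linarith
  have hlu : l ≤ u := by
    rw [hl, hu]
    exact Real.log_le_log hn0 (by exact_mod_cast hns)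
  have hu1 : 1 ≤ u := hl1.trans hlu
  have hl0 : 0 < l := by linarith
  have hu0 : 0 < u := by linarith
  have hεl : 0 < ε * l := by positivity
  obtain ⟨c, m, hc2, hm0, hclo, hcl, hcε, hmε, hmlo⟩ := exists_cm h0 h1 hl1 hlu
  have hQc := Q_pow h0 hl0 hQ1 hcl hlQ
  have hQc0 : (1 : ℝ) ≤ Q ^ c := one_le_pow₀ hQ1
  obtain ⟨P, hP⟩ : ∃ P, P = Real.exp (l * (ε ^ 2 / 64)) := ⟨_, rfl⟩
  rw [← hP] at hf hlog
  have hP1 : 1 ≤ P := hu1.trans hlog
  obtain ⟨B, hB⟩ : ∃ B : ℝ, B = 4 * (c * (m * Q ^ c)) := ⟨_, rfl⟩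
  have hB1 : 1 ≤ B := by
    rw [hB]
    have h2 : (1 : ℝ) ≤ m := by exact_mod_cast hm0
    have h3 : (1 : ℝ) ≤ c := by
      have : 1 ≤ c := by omega
      exact_mod_cast this
    have h4 : (1 : ℝ) ≤ m * Q ^ c := one_le_mul_of_one_le_of_one_le h2 hQc0
    have h5 : (1 : ℝ) ≤ c * (m * Q ^ c) := one_le_mul_of_one_le_of_one_le h3 h4
    linarith
  have hBhi := B_bound h0 hu0 hcε hmε hlog (by linarith : (0 : ℝ) ≤ Q ^ c) hQc
  rw [← hB] at hBhi
  have hf2 : (((f + 2 : ℕ) : ℝ)) ≤ 3 * P := by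
    push_cast
    linarith
  have hκ : (k : ℝ) / n ≤ Real.exp (-(ε * l)) := by
    rw [div_le_iff₀ hn0, ← hexpl, ← Real.exp_add]
    refine hk.trans (le_of_eq ?_)
    congr 1
    ring
  have hκ0 : 0 ≤ (k : ℝ) / n := by positivity
  have hB0 : 0 ≤ B := by linarith
  have hρhi := rho_bound h0 h1 hl0 hκ0 (by positivity) hP hBhi hf2 hκ hbig
  have hexp1 : Real.exp (-(ε * l / 2)) ≤ 1 := by
    rw [Real.exp_le_one_iff]
    linarith
  have hE0 := Real.exp_pos (-(ε * l / 2))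
  refine ⟨c, m, B, (1 / 2 : ℝ) ^ m, hc2, hm0, hB.symm.le, hB1, by linarith,
    pow_le_one₀ (by norm_num) (by norm_num), pow_lt_pow_left₀ (by norm_num) (by norm_num) hm0.ne',
    ?_⟩
  -- the error
  unfold perr
  have he1 := err_one (S := ((s + 1 : ℕ) : ℝ)) hc2 hu0.le hεl.le
    (by positivity : 0 ≤ 8 * (B * ((f + 2 : ℕ) : ℝ) * ((k : ℝ) / n))) hρhi (by
      rw [hexpu]
      push_cast
      linarith) hclo
  have he2 : 2 * (B * ((k : ℝ) / n)) ≤ 1 / 8 * Real.exp (-(ε * l / 2)) := by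
    have h3 : (2 : ℝ) ≤ ((f + 2 : ℕ) : ℝ) := by
      push_cast
      have := Nat.cast_nonneg (α := ℝ) f
      linarith
    have h4 : 0 ≤ B * ((k : ℝ) / n) := by positivity
    have h5 := mul_le_mul_of_nonneg_right h3 h4
    have h6 : B * ((f + 2 : ℕ) : ℝ) * ((k : ℝ) / n) = ((f + 2 : ℕ) : ℝ) * (B * ((k : ℝ) / n)) := by
      ring
    rw [h6] at hρhi
    linarith
  have he3 := err_three (c := c) (S := ((s + 1 : ℕ) : ℝ)) hn16 h0 h1 hl1 hu0.le hexpl (by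
      have h2 : (Fintype.card (Sym2 (Fin n)) : ℝ) ≤ n * n := by exact_mod_cast card_sym2_le n
      have h3 : Real.exp (u + 2 * l) = s * (n * n) := by
        rw [Real.exp_add, hexpu, two_mul, Real.exp_add, hexpl]
      rw [h3]
      push_cast
      have h5 : (1 : ℝ) ≤ (n : ℝ) * n := by nlinarith
      have h6 : (s : ℝ) * 1 ≤ s * (n * n) := mul_le_mul_of_nonneg_left h5 (by linarith)
      have h7 : 1 * ((n : ℝ) * n) ≤ s * (n * n) := mul_le_mul_of_nonneg_right hs1 (by linarith)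
      linarith) (by positivity) hmlo
  have hfin : l * -(ε / 2) = -(ε * l / 2) := by ring
  rw [hfin]
  linarith

end Pool.Agent.T9h34.P
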