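import Pool.Agent.T9h34.P.Final

/-!
# Planting a random clique in an arbitrary graph is dominated by adding random edges
-/

set_option autoImplicit false

namespace Pool.Agent.T9h34.P

open Finset Pool.Agent.T9h34
open Pool.Agent.T9h34.G (NoiseOp)
open Pool.Agent.PC34 (labelGraph withClique Outcome sample prob success meanChanges)
open scoped Classical

/-- The probability in terms of `ind`. -/
theorem prob_eq {Ω : Type} [Fintype Ω] (A : Ω → Prop) :
    prob A = (∑ ω, ind (A ω)) / Fintype.card Ω := by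
  unfold prob
  congr 1
  rw [card_filter]
  push_cast
  apply sum_congr rfl
  intro ω _
  by_cases h : A ω
  · rw [if_pos h, ind_of h]
  · rw [if_neg h, ind_not h]

/-- The comparison for one graph. -/
theorem smooth_step {n k L m b c : ℕ} {Q B η : ℝ} (hk : k ≤ n) (hn : 0 < n) (hc : 2 ≤ c) {f : ℕ}
    (hf : 2 ≤ f) (hQ1 : 1 ≤ Q) (hm : 0 < m) (hB : 4 * (c * (m * Q ^ c)) ≤ B) (hB1 : 1 ≤ B)
    (hBf : 8 * (B * f * ((k : ℝ) / n)) ≤ 1) (hη1 : η ≤ 1) (hη : (1 / 4 : ℝ) ^ m < η)
    (hb : 1 ≤ b) (hbL : b ≤ L) (hQ : (L : ℝ) ≤ Q * b) {d s : ℕ}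
    (C : T9h35.RW.Circuit (Fin n × Fin n)) (hC : C.FanIn f d)
    (hs : C.size + C.numTests + 1 ≤ s) (G : SimpleGraph (Fin n))
    (A : (Sym2 (Fin n) → Fin L) → SimpleGraph (Fin n))
    (hA : ∀ lab, G ⊔ labelGraph lab b ≤ A lab) :
    prob (fun S : {S : Finset (Fin n) // S.card = k} =>
      C.eval (graphInput (withClique G S.1)) = true) ≤
    prob (fun lab : Sym2 (Fin n) → Fin L => C.eval (graphInput (A lab)) = true ∨
      C.reads (graphInput (A lab)) ≠ C.reads (graphInput G)) +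
    perr n c f s B ((k : ℝ) / n) η := by
  obtain ⟨U, hU⟩ : ∃ U : Finset (Sym2 (Fin n)), U = univ.filter (fun e => e ∈ G.edgeSet) :=
    ⟨_, rfl⟩
  have hGU : gr U = G := by
    ext u v
    simp only [gr, hU, mem_filter, mem_univ, true_and, SimpleGraph.mem_edgeSet]
    exact ⟨fun h => h.2, fun h => ⟨h.ne, h⟩⟩
  have hL0 : 0 < L := by omega
  have hLr : (0 : ℝ) < L := by exact_mod_cast hL0
  have hbr : (0 : ℝ) < b := by
    have : 0 < b := by omega
    exact_mod_cast this
  obtain ⟨γ, hγ⟩ : ∃ γ : ℝ, γ = (b : ℝ) / L := ⟨_, rfl⟩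
  have hγ0 : 0 ≤ γ := by rw [hγ]; positivity
  have hγ1 : γ ≤ 1 := by
    rw [hγ, div_le_one hLr]
    exact_mod_cast hbL
  have hγm : γ * ((L : ℝ) - (0 : ℕ)) = (b : ℝ) - (0 : ℕ) := by
    rw [hγ]
    push_cast
    rw [sub_zero, sub_zero]
    field_simp
  have hQγ : 1 ≤ Q * γ := by
    rw [hγ, ← mul_div_assoc, one_le_div hLr]
    exact hQ
  have hη0 : 0 < η := lt_trans (by positivity) hη
  have H : Hyp (bern (E := Sym2 (Fin n)) hγ0 hγ1) (fun S : Finset (Fin n) => S.sym2)
      (fun S : KSet n k => S.1) η c c f B ((k : ℝ) / n) :=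
    { hK := sys_clique n c
      hη := hη0
      hη1 := hη1
      hc := hc
      hB1 := hB1
      hcov := covers_bern (sys_clique n c) hγ0 hγ1 hQ1 hQγ hm hB hB1 hη
      hκ := by positivity
      hsp := spread_kset hk hn (2 * c)
      hf1 := by omega
      hf := hBf }
  obtain ⟨D, hD1, hD2, hD3, hD4⟩ :=
    T9h35.RW.exists_detector hf C hC (graphInput (gr U))
  have h1 : Ev (fun S : KSet n k => S.1)
        (fun Z => ind (C.eval (graphInput (gr (U ∪ Z.sym2))) = true)) ≤
      Ev (fun S : KSet n k => S.1)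
        (fun Z => ind (D.eval (graphInput (gr (U ∪ Z.sym2))) = true)) := by
    apply Ev_mono
    intro Z
    apply ind_mono
    intro h
    by_contra hcon
    have h2 := hD3 (graphInput (gr (U ∪ Z.sym2))) (graphInput_mono subset_union_left)
      (by simpa using hcon)
    rw [h2.2] at h
    exact absurd h (by simp)
  have h2 := dom_gr H D hD1 (hD2.trans hs) U
  obtain ⟨T, hT⟩ : ∃ T : ℝ, T = Fintype.card (Sym2 (Fin n) → Fin L) := ⟨_, rfl⟩
  have hTpos : 0 < T := by
    rw [hT]
    have : Nonempty (Fin L) := ⟨⟨0, hL0⟩⟩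
    exact_mod_cast Fintype.card_pos
  have h3 : T * (bern (E := Sym2 (Fin n)) hγ0 hγ1).E
      (fun W => ind (D.eval (graphInput (gr (U ∪ W))) = true)) =
      ∑ lab : Sym2 (Fin n) → Fin L, ind (D.eval (graphInput (gr (U ∪ below lab b))) = true) := by
    have h4 := sum_labels (E := Sym2 (Fin n)) (L := L) (a := 0) (b := b) (Nat.zero_le b) hbL hL0 hγm
      (fun _ Z => ind (D.eval (graphInput (gr (U ∪ Z))) = true))
    rw [h4]
    have h5 : ∀ lab : Sym2 (Fin n) → Fin L, below lab 0 = ∅ := by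
      intro lab
      ext e
      simp [mem_below]
    simp only [h5, empty_union]
    rw [sum_const, card_univ, nsmul_eq_mul, ← hT]
    rfl
  have h4 : ∑ lab : Sym2 (Fin n) → Fin L,
        ind (D.eval (graphInput (gr (U ∪ below lab b))) = true) ≤
      ∑ lab : Sym2 (Fin n) → Fin L, ind (C.eval (graphInput (A lab)) = true ∨
        C.reads (graphInput (A lab)) ≠ C.reads (graphInput G)) := by
    apply sum_le_sum
    intro lab _
    apply ind_mono
    intro h
    have h5 : D.eval (graphInput (A lab)) = true := by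
      refine T9h35.RW.Circuit.eval_mono ?_ D hD1 h
      intro p hp
      unfold graphInput at hp ⊢
      rw [decide_eq_true_eq] at hp ⊢
      apply hA lab
      rcases hp with ⟨hp1, hp2⟩
      rw [mem_union] at hp2
      rcases hp2 with hp2 | hp2
      · left
        rw [← hGU]
        exact ⟨hp1, hp2⟩
      · right
        rw [labelGraph_eq]
        exact ⟨hp1, hp2⟩
    by_cases hr : C.reads (graphInput (A lab)) = C.reads (graphInput G)
    · left
      apply hD4 _ _ h5
      rw [hGU]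
      exact hr
    · right
      exact hr
  have h5 : prob (fun S : {S : Finset (Fin n) // S.card = k} =>
      C.eval (graphInput (withClique G S.1)) = true) = Ev (fun S : KSet n k => S.1)
        (fun Z => ind (C.eval (graphInput (gr (U ∪ Z.sym2))) = true)) := by
    rw [prob_eq]
    unfold Ev
    congr 1
    apply sum_congr rfl
    intro S _
    change _ = ind (C.eval (graphInput (gr (U ∪ S.1.sym2))) = true)
    rw [← withClique_eq, hGU]
  rw [h5, prob_eq, ← hT]
  have h6 : (bern (E := Sym2 (Fin n)) hγ0 hγ1).E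
      (fun W => ind (D.eval (graphInput (gr (U ∪ W))) = true)) ≤
      (∑ lab : Sym2 (Fin n) → Fin L, ind (C.eval (graphInput (A lab)) = true ∨
        C.reads (graphInput (A lab)) ≠ C.reads (graphInput G))) / T := by
    rw [le_div_iff₀ hTpos, mul_comm, h3]
    exact h4
  linarith

/-- **Planting a random clique is dominated by adding random edges.** -/
theorem smoothed {ε : ℝ} (h0 : 0 < ε) (h1 : ε ≤ 1) : ∃ n₀ : ℕ, ∀ (n k L f s : ℕ) (Q : ℝ),
    n₀ ≤ n → (k : ℝ) ≤ (n : ℝ) ^ (1 - ε) → n ≤ s → (f : ℝ) ≤ (n : ℝ) ^ (ε ^ 2 / 64) →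
    Real.log s ≤ (n : ℝ) ^ (ε ^ 2 / 64) →
    Real.log s * Real.log Q ≤ ε ^ 2 / 64 * Real.log n ^ 2 →
    ∀ (d : ℕ) (C : T9h35.RW.Circuit (Fin n × Fin n)), C.FanIn f d →
    C.size + VC34.numTests C ≤ s →
    ∀ (b : ℕ) (G : SimpleGraph (Fin n)) (A : (Sym2 (Fin n) → Fin L) → SimpleGraph (Fin n)),
    1 ≤ b → b ≤ L → (L : ℝ) ≤ Q * b → (∀ lab, G ⊔ labelGraph lab b ≤ A lab) →
    prob (fun S : {S : Finset (Fin n) // S.card = k} =>
      C.eval (graphInput (withClique G S.1)) = true) ≤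
    prob (fun lab : Sym2 (Fin n) → Fin L => C.eval (graphInput (A lab)) = true ∨
      VC34.answers C (graphInput (A lab)) ≠ VC34.answers C (graphInput G)) +
    (n : ℝ) ^ (-(ε / 2)) := by
  obtain ⟨n₀, hn₀⟩ := params h0 h1
  refine ⟨n₀, ?_⟩
  intro n k L f s Q hn hk hns hf hlog hlQ d C hC hCs b G A hb hbL hQ hA
  have hQ1 : 1 ≤ Q := by
    have h2 : (0 : ℝ) < b := by
      have : 0 < b := by omega
      exact_mod_cast this
    have h3 : (b : ℝ) ≤ L := by exact_mod_cast hbL
    by_contra hcon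
    push Not at hcon
    nlinarith
  obtain ⟨hn16, c, m, B, η, hc, hm, hB, hB1, hBf, hη1, hη, herr⟩ :=
    hn₀ n k f s Q hn hQ1 hk hns hf hlog hlQ
  have hn0 : 0 < n := by omega
  have hkn : k ≤ n := by
    have h2 : (n : ℝ) ^ (1 - ε) ≤ (n : ℝ) ^ (1 : ℝ) := by
      apply Real.rpow_le_rpow_of_exponent_le
      · have : 1 ≤ n := hn0
        exact_mod_cast this
      · linarith
    rw [Real.rpow_one] at h2
    exact_mod_cast hk.trans h2
  have h2 := smooth_step (s := s + 1) (f := f + 2) hkn hn0 hc (by omega) hQ1 hm hB hB1 hBf hη1 hη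
    hb hbL hQ C (VC34.fanIn_mono (by omega) hC) (by
      rw [VC34.numTests_eq] at hCs
      omega) G A hA
  simp only [VC34.answers_eq] 
  exact h2.trans (by linarith)

end Pool.Agent.T9h34.P
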