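import Pool.Agent.T9h34.P.Approx
import Pool.Agent.T9h34.P.Cover
import Pool.Agent.T9h34.P.Clique
import Pool.Agent.T9h34.P.Labels
import Pool.Agent.T9h34.P.Defs
import Pool.Agent.T9h34.V.Main

/-!
# Planted cliques: the comparison of two densities, and the sum over all densities
-/

set_option autoImplicit false

namespace Pool.Agent.T9h34.P

open Finset Pool.Agent.T9h34
open Pool.Agent.T9h34.G (NoiseOp)
open Pool.Agent.PC34 (labelGraph withClique Outcome sample success meanChanges)
open scoped Classical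

variable {n : ℕ}

/-- The graph of a set of pairs. -/
def gr (U : Finset (Sym2 (Fin n))) : SimpleGraph (Fin n) where
  Adj u v := u ≠ v ∧ s(u, v) ∈ U
  symm := ⟨fun u v h => ⟨h.1.symm, by rw [Sym2.eq_swap]; exact h.2⟩⟩
  loopless := ⟨fun _ h => h.1 rfl⟩

theorem labelGraph_eq {L : ℕ} (lab : Sym2 (Fin n) → Fin L) (a : ℕ) :
    labelGraph lab a = gr (below lab a) := by
  ext u v
  simp only [labelGraph, gr, mem_below]

theorem withClique_eq (U : Finset (Sym2 (Fin n))) (S : Finset (Fin n)) :
    withClique (gr U) S = gr (U ∪ S.sym2) := by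
  ext u v
  simp only [withClique, gr, mem_union, Finset.mk_mem_sym2_iff]
  tauto

/-- The substitution that fixes the pairs in `U`. -/
noncomputable def fixσ (U : Finset (Sym2 (Fin n))) (p : Fin n × Fin n) : Sym2 (Fin n) ⊕ Bool :=
  if p.1 = p.2 then Sum.inr false else if s(p.1, p.2) ∈ U then Sum.inr true
  else Sum.inl s(p.1, p.2)

theorem pull_fixσ (U W : Finset (Sym2 (Fin n))) :
    pull (fixσ U) (chi W) = graphInput (gr (U ∪ W)) := by
  funext p
  unfold pull fixσ graphInput
  by_cases h1 : p.1 = p.2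
  · rw [if_pos h1]
    simp [gr, h1]
  · rw [if_neg h1]
    by_cases h2 : s(p.1, p.2) ∈ U
    · rw [if_pos h2]
      simp [gr, h1, h2]
    · rw [if_neg h2]
      simp [gr, h1, h2, chi]

theorem graphInput_mono {U Z : Finset (Sym2 (Fin n))} (h : U ⊆ Z) (p : Fin n × Fin n)
    (hp : graphInput (gr U) p = true) : graphInput (gr Z) p = true := by
  unfold graphInput at hp ⊢
  rw [decide_eq_true_eq] at hp ⊢
  exact ⟨hp.1, h hp.2⟩

/-- The error. -/
noncomputable def perr (n c f s : ℕ) (B κ η : ℝ) : ℝ :=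
  s * (8 * (B * f * κ)) ^ c + 2 * (B * κ) +
    (s + Fintype.card (Sym2 (Fin n))) * del (Fin n) η c

variable {Ω : Type*} [Fintype Ω] {N : NoiseOp (Sym2 (Fin n))} {v : Ω → Finset (Fin n)}
  {c f : ℕ} {B κ η : ℝ}

theorem dom_gr (H : Hyp N (fun S : Finset (Fin n) => S.sym2) v η c c f B κ)
    (D : T9h35.RW.Circuit (Fin n × Fin n)) (hm : ∀ g ∈ D.gates, g.IsMono f)
    {s : ℕ} (hs : D.size ≤ s) (U : Finset (Sym2 (Fin n))) :
    Ev v (fun Z => ind (D.eval (graphInput (gr (U ∪ Z.sym2))) = true)) ≤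
      N.E (fun W => ind (D.eval (graphInput (gr (U ∪ W))) = true)) + perr n c f s B κ η := by
  have hm' : ∀ g ∈ (D.subst (fixσ U)).gates, g.IsMono f := by
    intro g hg
    simp only [T9h35.RW.Circuit.subst, List.mem_map] at hg
    obtain ⟨g', hg', rfl⟩ := hg
    exact T9h35.RW.Gate.isMono_subst _ g' (hm g' hg')
  have h1 := domination H (D.subst (fixσ U)) hm'
  simp only [T9h35.RW.Circuit.eval_subst, pull_fixσ, T9h35.RW.Circuit.size_subst] at h1
  refine h1.trans ?_
  unfold perr
  have h2 : (D.size : ℝ) ≤ s := by exact_mod_cast hs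
  have h3 : 0 ≤ del (Fin n) η c := del_nonneg H.hη.le
  have hB0 : 0 ≤ B := by linarith [H.hB1]
  have h4 : 0 ≤ (8 * (B * f * κ)) ^ c := by
    have := H.hκ
    positivity
  have h5 := mul_le_mul_of_nonneg_right h2 h4
  have h6 := mul_le_mul_of_nonneg_right h2 h3
  linarith

/-- The comparison of two densities. -/
theorem step (H : Hyp N (fun S : Finset (Fin n) => S.sym2) v η c c f B κ) (hf : 2 ≤ f) {d s : ℕ}
    (C : T9h35.RW.Circuit (Fin n × Fin n)) (hC : C.FanIn f d)
    (hs : C.size + C.numTests + 1 ≤ s) (U : Finset (Sym2 (Fin n))) :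
    Ev v (fun Z => ind (C.eval (graphInput (gr (U ∪ Z.sym2))) = true)) ≤
      N.E (fun W => ind (C.eval (graphInput (gr (U ∪ W))) = true) +
        ind (C.reads (graphInput (gr (U ∪ W))) ≠ C.reads (graphInput (gr U)))) +
      perr n c f s B κ η := by
  obtain ⟨D, hD1, hD2, hD3, hD4⟩ :=
    T9h35.RW.exists_detector hf C hC (graphInput (gr U))
  have h1 : Ev v (fun Z => ind (C.eval (graphInput (gr (U ∪ Z.sym2))) = true)) ≤
      Ev v (fun Z => ind (D.eval (graphInput (gr (U ∪ Z.sym2))) = true)) := by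
    apply Ev_mono
    intro Z
    apply ind_mono
    intro h
    by_contra hcon
    have h2 := hD3 (graphInput (gr (U ∪ Z.sym2))) (graphInput_mono subset_union_left)
      (by simpa using hcon)
    rw [h2.2] at h
    exact absurd h (by simp)
  have h2 := dom_gr H D hD1 (hD2.trans hs) U
  have h3 : N.E (fun W => ind (D.eval (graphInput (gr (U ∪ W))) = true)) ≤
      N.E (fun W => ind (C.eval (graphInput (gr (U ∪ W))) = true) +
        ind (C.reads (graphInput (gr (U ∪ W))) ≠ C.reads (graphInput (gr U)))) := by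
    apply N.mono
    intro W
    have h4 := ind_nonneg (C.eval (graphInput (gr (U ∪ W))) = true)
    by_cases hr : C.reads (graphInput (gr (U ∪ W))) = C.reads (graphInput (gr U))
    · rw [ind_not (not_not.2 hr), add_zero]
      apply ind_mono
      exact hD4 _ hr
    · rw [ind_of hr]
      have h5 := ind_le_one (D.eval (graphInput (gr (U ∪ W))) = true)
      linarith
  linarith

/-- The sum over all densities. -/
theorem total {k L M m : ℕ} {Q : ℝ} (hk : k ≤ n) (hn : 0 < n) (hc : 2 ≤ c) (hf : 2 ≤ f)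
    (hQ1 : 1 ≤ Q) (hm : 0 < m) (hB : 4 * (c * (m * Q ^ c)) ≤ B) (hB1 : 1 ≤ B)
    (hBf : 8 * (B * f * ((k : ℝ) / n)) ≤ 1) (hη1 : η ≤ 1) (hη : (1 / 4 : ℝ) ^ m < η)
    (a : ℕ → ℕ) (ha : ∀ i < M, a i < a (i + 1)) (haL : ∀ i < M, a (i + 1) ≤ L)
    (hQ : ∀ i < M, (L : ℝ) - a i ≤ Q * ((a (i + 1) : ℝ) - a i)) {d s : ℕ}
    (C : T9h35.RW.Circuit (Fin n × Fin n)) (hC : C.FanIn f d)
    (hs : C.size + C.numTests + 1 ≤ s) :
    ∑ i ∈ range M, ∑ lab : Sym2 (Fin n) → Fin L,
      (Ev (fun S : KSet n k => S.1)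
          (fun Z => ind (C.eval (graphInput (gr (below lab (a i) ∪ Z.sym2))) = true)) -
        ind (C.eval (graphInput (gr (below lab (a i)))) = true)) ≤
      Fintype.card (Sym2 (Fin n) → Fin L) +
        (∑ lab : Sym2 (Fin n) → Fin L, (((range M).filter fun i =>
          C.reads (graphInput (gr (below lab (a (i + 1))))) ≠
            C.reads (graphInput (gr (below lab (a i))))).card : ℝ)) +
        M * Fintype.card (Sym2 (Fin n) → Fin L) * perr n c f s B ((k : ℝ) / n) η := by
  obtain ⟨δ, hδ⟩ : ∃ δ, δ = perr n c f s B ((k : ℝ) / n) η := ⟨_, rfl⟩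
  rw [← hδ]
  obtain ⟨h, hh⟩ : ∃ h : Finset (Sym2 (Fin n)) → ℝ, ∀ U, h U =
    ind (C.eval (graphInput (gr U)) = true) := ⟨_, fun _ => rfl⟩
  obtain ⟨r, hr⟩ : ∃ r : Finset (Sym2 (Fin n)) → Finset (Sym2 (Fin n)) → ℝ, ∀ U Z, r U Z =
    ind (C.reads (graphInput (gr Z)) ≠ C.reads (graphInput (gr U))) := ⟨_, fun _ _ => rfl⟩
  have hstep : ∀ i ∈ range M, ∑ lab : Sym2 (Fin n) → Fin L,
      (Ev (fun S : KSet n k => S.1)
          (fun Z => ind (C.eval (graphInput (gr (below lab (a i) ∪ Z.sym2))) = true)) -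
        ind (C.eval (graphInput (gr (below lab (a i)))) = true)) ≤
      (∑ lab : Sym2 (Fin n) → Fin L, (h (below lab (a (i + 1))) - h (below lab (a i)))) +
        ((∑ lab : Sym2 (Fin n) → Fin L, r (below lab (a i)) (below lab (a (i + 1)))) +
          Fintype.card (Sym2 (Fin n) → Fin L) * δ) := by
    intro i hi
    rw [mem_range] at hi
    have h1 := ha i hi
    have h2 := haL i hi
    have h3 := hQ i hi
    have hab : (0 : ℝ) < (a (i + 1) : ℝ) - a i := by
      have : (a i : ℝ) < a (i + 1) := by exact_mod_cast h1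
      linarith
    have hLa : (0 : ℝ) < (L : ℝ) - a i := by
      have : (a (i + 1) : ℝ) ≤ L := by exact_mod_cast h2
      linarith
    obtain ⟨γ, hγ⟩ : ∃ γ : ℝ, γ = ((a (i + 1) : ℝ) - a i) / ((L : ℝ) - a i) := ⟨_, rfl⟩
    have hγ0 : 0 ≤ γ := by rw [hγ]; positivity
    have hγ1 : γ ≤ 1 := by
      rw [hγ, div_le_one hLa]
      have : (a (i + 1) : ℝ) ≤ L := by exact_mod_cast h2
      linarith
    have hγm : γ * ((L : ℝ) - a i) = (a (i + 1) : ℝ) - a i := by
      rw [hγ]
      field_simp
    have hQγ : 1 ≤ Q * γ := by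
      rw [hγ, ← mul_div_assoc, one_le_div hLa]
      exact h3
    have hη0 : 0 < η := lt_trans (by positivity) hη
    have H : Hyp (bern (E := Sym2 (Fin n)) hγ0 hγ1) (fun S : Finset (Fin n) => S.sym2)
        (fun S : KSet n k => S.1) η c c f B ((k : ℝ) / n) :=
      { hK := sys_clique n c
        hη := hη0
        hη1 := hη1
        hc := hc
        hB1 := hB1
        hcov := covers_bern (sys_clique n c) hγ0 hγ1 hQ1 hQγ hm hB hB1 hη
        hκ := by positivity
        hsp := spread_kset hk hn (2 * c)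
        hf1 := by omega
        hf := hBf }
    have h4 : ∀ lab : Sym2 (Fin n) → Fin L, Ev (fun S : KSet n k => S.1)
          (fun Z => ind (C.eval (graphInput (gr (below lab (a i) ∪ Z.sym2))) = true)) ≤
        (∑ W : Finset (Sym2 (Fin n)), bw γ W *
          (h (below lab (a i) ∪ W) + r (below lab (a i)) (below lab (a i) ∪ W))) + δ := by
      intro lab
      have h5 := step H hf C hC hs (below lab (a i))
      rw [← hδ] at h5
      simp only [hh, hr]
      exact h5
    have h5 := sum_labels (E := Sym2 (Fin n)) h1.le h2 (by omega : a i < L) hγm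
      (fun U Z => h Z + r U Z)
    have h6 : ∑ lab : Sym2 (Fin n) → Fin L, Ev (fun S : KSet n k => S.1)
          (fun Z => ind (C.eval (graphInput (gr (below lab (a i) ∪ Z.sym2))) = true)) ≤
        (∑ lab : Sym2 (Fin n) → Fin L, (h (below lab (a (i + 1))) +
          r (below lab (a i)) (below lab (a (i + 1))))) +
          Fintype.card (Sym2 (Fin n) → Fin L) * δ := by
      refine (sum_le_sum fun lab _ => h4 lab).trans (le_of_eq ?_)
      rw [sum_add_distrib, sum_const, card_univ, nsmul_eq_mul, ← h5]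
    rw [sum_add_distrib] at h6
    rw [sum_sub_distrib, sum_sub_distrib]
    simp only [hh] at h6 ⊢
    linarith
  refine (sum_le_sum hstep).trans ?_
  rw [sum_add_distrib, sum_add_distrib, sum_const, card_range, nsmul_eq_mul]
  have h7 : ∑ i ∈ range M, ∑ lab : Sym2 (Fin n) → Fin L,
      (h (below lab (a (i + 1))) - h (below lab (a i))) ≤
      Fintype.card (Sym2 (Fin n) → Fin L) := by
    rw [sum_comm]
    have h8 : ∀ lab ∈ (univ : Finset (Sym2 (Fin n) → Fin L)),
        ∑ i ∈ range M, (h (below lab (a (i + 1))) - h (below lab (a i))) ≤ 1 := by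
      intro lab _
      rw [Finset.sum_range_sub (fun i => h (below lab (a i)))]
      have h9 : h (below lab (a M)) ≤ 1 := by rw [hh]; exact ind_le_one _
      have h10 : 0 ≤ h (below lab (a 0)) := by rw [hh]; exact ind_nonneg _
      linarith
    refine (sum_le_sum h8).trans (le_of_eq ?_)
    rw [sum_const, card_univ, nsmul_eq_mul, mul_one]
  have h8 : ∑ i ∈ range M, ∑ lab : Sym2 (Fin n) → Fin L,
      r (below lab (a i)) (below lab (a (i + 1))) =
      ∑ lab : Sym2 (Fin n) → Fin L, (((range M).filter fun i =>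
          C.reads (graphInput (gr (below lab (a (i + 1))))) ≠
            C.reads (graphInput (gr (below lab (a i))))).card : ℝ) := by
    rw [sum_comm]
    apply sum_congr rfl
    intro lab _
    rw [card_filter]
    push_cast
    apply sum_congr rfl
    intro i _
    rw [hr]
    by_cases h9 : C.reads (graphInput (gr (below lab (a (i + 1))))) ≠
        C.reads (graphInput (gr (below lab (a i))))
    · rw [ind_of h9, if_pos h9]
    · rw [ind_not h9, if_neg h9]
  rw [h8]
  linarith

end Pool.Agent.T9h34.P
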